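import Pool.Agent.Y913.Vm.Fer

/-!
Triples all of whose members are products of powers of few integers: small heights, or divisibility
by a large power of a small integer.
-/

set_option autoImplicit false

namespace Pool.Agent.Y913.Vm

open Finset Filter Pool.Agent.Y913 Pool.Agent.Y913.Nb

/-- all three members are products of powers of `n` integers `≤ Y`, and the height is small or a
large power of a small integer divides `a b c` -/
def Hv (n : ℕ) (δ η K Y : ℝ) (q : ℕ × ℕ) : Prop :=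
  0 < q.1 ∧ 0 < q.2 ∧ Nat.Coprime q.1 q.2 ∧ NB n Y q.1 ∧ NB n Y q.2 ∧ NB n Y (q.1 + q.2) ∧
    Y ^ K ≤ ((q.1 + q.2 : ℕ) : ℝ) ∧
    (Real.log ((q.1 + q.2 : ℕ) : ℝ) ≤ Y ^ η ∨
      ∃ r k : ℕ, 2 ≤ r ∧ (r : ℝ) ≤ Y ^ η ∧ r ^ k ∣ q.1 * q.2 * (q.1 + q.2) ∧
        δ * Real.log ((q.1 + q.2 : ℕ) : ℝ) ≤ k * Real.log Y)

lemma prime_pow_dvd_three {p k a b c : ℕ} (hp : p.Prime) (hab : Nat.Coprime a b)
    (hac : Nat.Coprime a c) (hbc : Nat.Coprime b c) (h : p ^ k ∣ a * b * c) :
    p ^ k ∣ a ∨ p ^ k ∣ b ∨ p ^ k ∣ c := by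
  by_cases hpa : p ∣ a
  · left
    have h1 : Nat.Coprime (p ^ k) b := by
      apply Nat.Coprime.pow_left
      rw [Nat.Prime.coprime_iff_not_dvd hp]
      intro h2
      have := Nat.dvd_gcd hpa h2
      rw [hab] at this
      exact hp.one_lt.ne' (Nat.dvd_one.mp this)
    have h2 : Nat.Coprime (p ^ k) c := by
      apply Nat.Coprime.pow_left
      rw [Nat.Prime.coprime_iff_not_dvd hp]
      intro h2
      have := Nat.dvd_gcd hpa h2
      rw [hac] at this
      exact hp.one_lt.ne' (Nat.dvd_one.mp this)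
    exact h1.dvd_of_dvd_mul_right (h2.dvd_of_dvd_mul_right h)
  · right
    have h1 : Nat.Coprime (p ^ k) a := by
      apply Nat.Coprime.pow_left
      rw [Nat.Prime.coprime_iff_not_dvd hp]
      exact hpa
    rw [mul_assoc] at h
    have h2 := h1.dvd_of_dvd_mul_left h
    by_cases hpb : p ∣ b
    · left
      have h3 : Nat.Coprime (p ^ k) c := by
        apply Nat.Coprime.pow_left
        rw [Nat.Prime.coprime_iff_not_dvd hp]
        intro h2
        have := Nat.dvd_gcd hpb h2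
        rw [hbc] at this
        exact hp.one_lt.ne' (Nat.dvd_one.mp this)
      exact h3.dvd_of_dvd_mul_right h2
    · right
      have h3 : Nat.Coprime (p ^ k) b := by
        apply Nat.Coprime.pow_left
        rw [Nat.Prime.coprime_iff_not_dvd hp]
        exact hpb
      exact h3.dvd_of_dvd_mul_left h2

theorem hv_count (n : ℕ) (δ ε : ℝ) (hδ : 0 < δ) (hε : 0 < ε) : ∃ K C η : ℝ, 0 < K ∧ 0 < C ∧
    0 < η ∧ ∀ Y : ℝ, 1 ≤ Y → ∀ Q : Finset (ℕ × ℕ), (∀ q ∈ Q, Hv n δ η K Y q) →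
      (Q.card : ℝ) ≤ C * Y ^ ε := by
  classical
  obtain ⟨K1, C1, η1, hK1, hC1, hη1, hlow⟩ := low_count n ε hε
  obtain ⟨C4, κ4, hC4, hht⟩ := padic_height4 n δ hδ
  obtain ⟨η, hη⟩ : ∃ η : ℝ, η = min η1 (η1 / (2 * (κ4 + 1))) := ⟨_, rfl⟩
  have hηpos : 0 < η := by rw [hη]; exact lt_min hη1 (by positivity)
  have hηη1 : η ≤ η1 := by rw [hη]; exact min_le_left _ _
  have hηκ : η ≤ η1 / (2 * (κ4 + 1)) := by rw [hη]; exact min_le_right _ _
  obtain ⟨Z1, hZ1⟩ := eventually_atTop.mp (ev_polylog κ4 hC4 hη1)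
  obtain ⟨Z0, hZ0⟩ : ∃ Z0 : ℝ, Z0 = max Z1 4 := ⟨_, rfl⟩
  have hZ04 : 4 ≤ Z0 := by rw [hZ0]; exact le_max_right _ _
  have hZ01 : Z1 ≤ Z0 := by rw [hZ0]; exact le_max_left _ _
  have hl2 : 0 < Real.log 2 := Real.log_pos (by norm_num)
  obtain ⟨K, hK⟩ : ∃ K : ℝ, K = K1 + K1 * (Real.log Z0 / Real.log 2) + 1 := ⟨_, rfl⟩
  have hlZ0 : 0 < Real.log Z0 := Real.log_pos (by linarith)
  refine ⟨K, C1 * Z0 ^ ε, η, by rw [hK]; positivity, by positivity, hηpos, ?_⟩
  intro Y hY Q hQ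
  rcases lt_or_ge Y 2 with hY2 | hY2
  · have hQ0 : Q = ∅ := by
      apply Finset.eq_empty_of_forall_notMem
      intro q hq
      obtain ⟨h1, h2, h3, h4, h5, h6, -⟩ := hQ q hq
      have e1 := nb_lt_two hY2 h4
      have e2 := nb_lt_two hY2 h5
      have e3 := nb_lt_two hY2 h6
      omega
    rw [hQ0]
    simp only [Finset.card_empty, Nat.cast_zero]
    positivity
  have hYpos : 0 < Y := by linarith
  obtain ⟨Z, hZ⟩ : ∃ Z : ℝ, Z = Z0 * Y := ⟨_, rfl⟩
  have hZY : Y ≤ Z := by rw [hZ]; nlinarith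
  have hZZ0 : Z0 ≤ Z := by rw [hZ]; nlinarith
  have hZpos : 0 < Z := by linarith
  have hZ1' : 1 ≤ Z := by linarith
  have hZfin : Z ^ ε = Z0 ^ ε * Y ^ ε := by
    rw [hZ, Real.mul_rpow (by linarith) (by linarith)]
  have hpoly := hZ1 Z (hZ01.trans hZZ0)
  have hZK : Z ^ K1 ≤ Y ^ K := by
    rw [hZ, Real.mul_rpow (by linarith) (by linarith)]
    have h1 : Z0 ^ K1 ≤ Y ^ (K1 * (Real.log Z0 / Real.log 2)) := by
      rw [Real.rpow_def_of_pos (by linarith), Real.rpow_def_of_pos hYpos]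
      apply Real.exp_le_exp.mpr
      have h2 : Real.log 2 ≤ Real.log Y := Real.log_le_log (by norm_num) hY2
      calc Real.log Z0 * K1 = Real.log 2 * (K1 * (Real.log Z0 / Real.log 2)) := by
            field_simp
        _ ≤ Real.log Y * (K1 * (Real.log Z0 / Real.log 2)) := by
            apply mul_le_mul_of_nonneg_right h2
            positivity
    calc Z0 ^ K1 * Y ^ K1 ≤ Y ^ (K1 * (Real.log Z0 / Real.log 2)) * Y ^ K1 := by gcongr
      _ = Y ^ (K1 * (Real.log Z0 / Real.log 2) + K1) := by rw [← Real.rpow_add hYpos]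
      _ ≤ Y ^ K := by
          apply Real.rpow_le_rpow_of_exponent_le hY
          rw [hK]
          linarith
  rw [mul_assoc, ← hZfin]
  apply hlow Z hZ1' Q
  intro q hq
  obtain ⟨h1, h2, h3, h4, h5, h6, h7, h8⟩ := hQ q hq
  refine ⟨h1, h2, h3, h4.mono_Y hZY, h5.mono_Y hZY, h6.mono_Y hZY, hZK.trans h7, ?_⟩
  have hMpos : (0 : ℝ) < ((q.1 + q.2 : ℕ) : ℝ) := by exact_mod_cast (by omega : 0 < q.1 + q.2)
  rcases h8 with h8 | ⟨r, k, hr2, hrY, hdvd, hk⟩
  · calc Real.log ((q.1 + q.2 : ℕ) : ℝ) ≤ Y ^ η := h8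
      _ ≤ Z ^ η := Real.rpow_le_rpow (by linarith) hZY hηpos.le
      _ ≤ Z ^ η1 := Real.rpow_le_rpow_of_exponent_le hZ1' hηη1
  · obtain ⟨p, hp, hpr⟩ := Nat.exists_prime_and_dvd (by omega : r ≠ 1)
    have hpr' : p ≤ r := Nat.le_of_dvd (by omega) hpr
    have hpZ : (p : ℝ) ≤ Z ^ (η1 / (2 * (κ4 + 1))) := by
      calc (p : ℝ) ≤ r := by exact_mod_cast hpr'
        _ ≤ Y ^ η := hrY
        _ ≤ Z ^ η := Real.rpow_le_rpow (by linarith) hZY hηpos.le
        _ ≤ _ := Real.rpow_le_rpow_of_exponent_le hZ1' hηκ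
    have hlY : 0 ≤ Real.log Y := Real.log_nonneg hY
    have hdv : p ^ k ∣ q.1 * q.2 * (q.1 + q.2) := (pow_dvd_pow_of_dvd hpr k).trans hdvd
    have hl2' : (0 : ℝ) ≤ Real.log 2 := hl2.le
    have hfinish : ∀ t : ℝ, t ≤ C4 * ((p : ℝ) + (1 + Real.log Y)) ^ κ4 →
        Real.log ((q.1 + q.2 : ℕ) : ℝ) ≤ Real.log 2 + t →
        Real.log ((q.1 + q.2 : ℕ) : ℝ) ≤ Z ^ η1 := by
      intro t ht1 ht2
      have h9 : C4 * ((p : ℝ) + (1 + Real.log Y)) ^ κ4 ≤
          C4 * (Z ^ (η1 / (2 * (κ4 + 1))) + (1 + Real.log Z)) ^ κ4 := by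
        have : Real.log Y ≤ Real.log Z := Real.log_le_log hYpos hZY
        gcongr
      linarith
    have hkl : ∀ t : ℝ, t ≤ Real.log ((q.1 + q.2 : ℕ) : ℝ) →
        δ * t ≤ k * ((p : ℝ) + (1 + Real.log Y)) := by
      intro t ht
      have h9 : (0 : ℝ) ≤ (k : ℝ) * (p + 1) := by positivity
      have h10 : δ * t ≤ δ * Real.log ((q.1 + q.2 : ℕ) : ℝ) :=
        mul_le_mul_of_nonneg_left ht hδ.le
      nlinarith
    rcases prime_pow_dvd_three hp h3 (Nat.coprime_self_add_right.mpr h3)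
      (Nat.coprime_add_self_right.mpr h3.symm) hdv with hd | hd | hd
    · apply hfinish _ _ (by linarith : _ ≤ Real.log 2 + Real.log ((q.1 + q.2 : ℕ) : ℝ))
      apply hht Y hY p k hp 1 (Or.inl rfl) (q.2, q.1 + q.2) h2 (by simp only; omega)
        (by simp only; exact (Nat.coprime_add_self_right.mpr h3.symm)) h5 h6
      · simp only
        have : ((p ^ k : ℕ) : ℤ) ∣ (q.1 : ℤ) := by exact_mod_cast hd
        push_cast at this ⊢
        simpa using this
      · exact hkl _ le_rfl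
    · apply hfinish _ _ (by linarith : _ ≤ Real.log 2 + Real.log ((q.1 + q.2 : ℕ) : ℝ))
      apply hht Y hY p k hp 1 (Or.inl rfl) (q.1, q.1 + q.2) h1 (by simp only; omega)
        (by simp only; exact (Nat.coprime_self_add_right.mpr h3)) h4 h6
      · simp only
        have : ((p ^ k : ℕ) : ℤ) ∣ (q.2 : ℤ) := by exact_mod_cast hd
        push_cast at this ⊢
        simpa using this
      · exact hkl _ le_rfl
    · have hdv' : ((p ^ k : ℕ) : ℤ) ∣ (q.1 : ℤ) + q.2 := by
        have : ((p ^ k : ℕ) : ℤ) ∣ ((q.1 + q.2 : ℕ) : ℤ) := by exact_mod_cast hd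
        push_cast at this ⊢
        exact this
      rcases lt_trichotomy q.1 q.2 with hlt | heq | hgt
      · apply hfinish (Real.log q.2)
        · apply hht Y hY p k hp (-1) (Or.inr rfl) (q.1, q.2) h1 hlt h3 h4 h5
          · simp only
            have e1 : (q.2 : ℤ) - -1 * (q.1 : ℤ) = (q.1 : ℤ) + q.2 := by ring
            rw [e1]
            exact hdv'
          · apply hkl
            apply Real.log_le_log (by exact_mod_cast h2)
            push_cast
            have : (0 : ℝ) ≤ (q.1 : ℝ) := Nat.cast_nonneg _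
            linarith
        · rw [← Real.log_mul (by norm_num) (by exact_mod_cast h2.ne')]
          apply Real.log_le_log hMpos
          push_cast
          have : (q.1 : ℝ) < q.2 := by exact_mod_cast hlt
          linarith
      · rw [heq] at h3
        have h9 : q.2 = 1 := (Nat.coprime_self _).mp h3
        have h10 : ((q.1 + q.2 : ℕ) : ℝ) = 2 := by
          rw [heq, h9]
          norm_num
        rw [h10]
        have h11 : 0 ≤ C4 * (Z ^ (η1 / (2 * (κ4 + 1))) + (1 + Real.log Z)) ^ κ4 := by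
          have : 0 ≤ Real.log Z := Real.log_nonneg hZ1'
          positivity
        linarith
      · apply hfinish (Real.log q.1)
        · apply hht Y hY p k hp (-1) (Or.inr rfl) (q.2, q.1) h2 hgt h3.symm h5 h4
          · simp only
            have e1 : (q.1 : ℤ) - -1 * (q.2 : ℤ) = (q.1 : ℤ) + q.2 := by ring
            rw [e1]
            exact hdv'
          · apply hkl
            apply Real.log_le_log (by exact_mod_cast h1)
            push_cast
            have : (0 : ℝ) ≤ (q.2 : ℝ) := Nat.cast_nonneg _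
            linarith
        · rw [← Real.log_mul (by norm_num) (by exact_mod_cast h1.ne')]
          apply Real.log_le_log hMpos
          push_cast
          have : (q.2 : ℝ) < q.1 := by exact_mod_cast hgt
          linarith

end Pool.Agent.Y913.Vm
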