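import Pool.Agent.Y913.Nb.Rep3

/-!
Height bound from a large power of a small prime.
-/

set_option autoImplicit false

namespace Pool.Agent.Y913.Nb

open Finset Pool.Agent.Y913

/-- **height bound, large powers of a small prime** -/
theorem padic_height4 (n : ℕ) (δ : ℝ) (hδ : 0 < δ) : ∃ C : ℝ, ∃ κ : ℕ, 0 < C ∧
    ∀ Y : ℝ, 1 ≤ Y → ∀ p k : ℕ, p.Prime → ∀ s : ℤ, (s = 1 ∨ s = -1) →
      ∀ q : ℕ × ℕ, 0 < q.1 → q.1 < q.2 → Nat.Coprime q.1 q.2 → NB n Y q.1 → NB n Y q.2 →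
      ((p ^ k : ℕ) : ℤ) ∣ (q.2 : ℤ) - s * q.1 →
      δ * Real.log q.2 ≤ k * (p + (1 + Real.log Y)) →
      Real.log q.2 ≤ C * (p + (1 + Real.log Y)) ^ κ := by
  obtain ⟨C0, κ0, hWB⟩ := Pool.Agent.TH888.W2.weakBaker_all (n + n)
  obtain ⟨B, hB⟩ : ∃ B : ℝ, B = ((C0 : ℝ) + 1) * 8 ^ (κ0 + 1) := ⟨_, rfl⟩
  have hBpos : 0 < B := by rw [hB]; positivity
  obtain ⟨C, hC, hsolve⟩ := solve_height (κ0 + 1) (δ / B) (by positivity)
  refine ⟨C, κ0 + 1, hC, ?_⟩
  intro Y hY p k hp s hs q h0 h1 hcop hu hv hdvd hpk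
  obtain ⟨X, b, hX, hb, hΛ, hrep⟩ := exists_rep hY h0 h1 hu hv
  have hq2 : (1 : ℝ) < q.2 := by exact_mod_cast (by omega : 1 < q.2)
  have hq20 : (0 : ℝ) < q.2 := by linarith
  obtain ⟨G, hG⟩ : ∃ G : ℝ, G = Real.log q.2 := ⟨_, rfl⟩
  have hG0 : 0 < G := by rw [hG]; exact Real.log_pos hq2
  have hlY : 0 ≤ Real.log Y := Real.log_nonneg hY
  rw [← hG]
  have hk : k ≠ 0 := by
    rintro rfl
    rw [← hG, Nat.cast_zero, zero_mul] at hpk
    have := mul_pos hδ hG0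
    linarith
  have : Fact p.Prime := ⟨hp⟩
  have hs2 : s * s = 1 := by rcases hs with rfl | rfl <;> norm_num
  obtain ⟨hc1, hc2⟩ := coprime_of_dvd hp hk hs2 hcop hdvd
  have hdbl := doubled_rel (le_refl k) hs2 hc1 hc2 hdvd X b hrep
  have hcX := (hrep (p ^ k) (Nat.Coprime.pow_right _ hc1) (Nat.Coprime.pow_right _ hc2)).1
  let e : Fin (n + n) ≃ Fin n ⊕ Fin n := finSumFinEquiv.symm
  obtain ⟨g1, hg1, hg1'⟩ := log_two_mul_clog Y hY
  obtain ⟨g2, hg2, hg2'⟩ := log_two_mul_clog (1 + G) (by linarith)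
  obtain ⟨S, hS⟩ : ∃ S, S = p + g1 + g2 + 3 := ⟨_, rfl⟩
  have h2g : ∀ a : ℕ, a ≤ S → (2 : ℝ) ^ a ≤ 2 ^ S := fun a ha =>
    pow_le_pow_right₀ (by norm_num) ha
  have hkS := hWB p S (by omega) (fun j => X (e j)) (fun j => 2 * b (e j)) k
    (fun j => ud (p ^ k) (X (e j))) (fun j => ud_coe (hcX _)) (fun j => (hX _).1)
    (by
      intro j
      have h3 := (hX (e j)).2.trans (hg1.trans (h2g g1 (by omega)))
      exact_mod_cast h3)
    (by
      intro j
      have h3 : ((b (e j)).natAbs : ℝ) * Real.log 2 ≤ G := by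
        rw [hG, ← Real.log_pow]
        apply Real.log_le_log (by positivity)
        exact_mod_cast hb (e j)
      have hl2 : 0.6931471803 < Real.log 2 := Real.log_two_gt_d9
      have h4 : (2 * (b (e j)).natAbs : ℝ) ≤ 2 ^ S := by
        calc (2 * (b (e j)).natAbs : ℝ) ≤ 2 * (2 * (1 + G)) := by
              have : (0 : ℝ) ≤ ((b (e j)).natAbs : ℝ) := Nat.cast_nonneg _
              nlinarith
          _ ≤ 2 ^ 2 * 2 ^ g2 := by linarith
          _ = 2 ^ (2 + g2) := by rw [← pow_add]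
          _ ≤ 2 ^ S := h2g _ (by omega)
      have h5 : 2 * (b (e j)).natAbs ≤ 2 ^ S := by exact_mod_cast h4
      rw [abs_mul, ← Int.natCast_natAbs (b (e j))]
      have : |(2 : ℤ)| = 2 := rfl
      rw [this]
      exact_mod_cast h5)
    (by
      intro h
      have h3 := congrArg (fun z : ℚ => Real.log (z : ℝ)) h
      rw [Rat.cast_one, Real.log_one] at h3
      push_cast at h3
      rw [Real.log_prod (fun j _ => zpow_ne_zero _ (by
        have := (hX (e j)).1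
        positivity))] at h3
      have h4 : ∑ j, Real.log ((X (e j) : ℝ) ^ (2 * b (e j))) =
          2 * ∑ j, (b j : ℝ) * Real.log (X j) := by
        rw [Finset.mul_sum]
        rw [← Fintype.sum_equiv e (fun j => 2 * ((b (e j) : ℝ) * Real.log (X (e j))))
          (fun j => 2 * ((b j : ℝ) * Real.log (X j))) (fun _ => rfl)]
        apply Finset.sum_congr rfl
        intro j _
        rw [Real.log_zpow]
        push_cast
        ring
      rw [h4, hΛ] at h3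
      have h5 : Real.log q.1 < Real.log q.2 :=
        Real.log_lt_log (by exact_mod_cast h0) (by exact_mod_cast h1)
      linarith)
    (by
      rw [← hdbl]
      exact Fintype.prod_equiv e _ _ (fun _ => rfl))
  have hp0 : (1 : ℝ) ≤ p := by exact_mod_cast hp.one_lt.le
  have hY1 : (p : ℝ) + (1 + Real.log Y) ≤ S := by
    have h5 : Real.log Y ≤ g1 := by
      have h6 := Real.log_le_log (by linarith) hg1
      rw [Real.log_pow] at h6
      have h7 : Real.log 2 < 0.6931471808 := Real.log_two_lt_d9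
      have h8 : (0 : ℝ) ≤ (g1 : ℝ) := Nat.cast_nonneg _
      nlinarith
    rw [hS]
    push_cast
    have h8 : (0 : ℝ) ≤ (g2 : ℝ) := Nat.cast_nonneg _
    linarith
  have h4 : δ * G ≤ ((C0 : ℝ) + 1) * (S : ℝ) ^ (κ0 + 1) := by
    rw [← hG] at hpk
    have h7 : (k : ℝ) ≤ C0 * (S : ℝ) ^ κ0 := by exact_mod_cast hkS
    calc δ * G ≤ k * (p + (1 + Real.log Y)) := hpk
      _ ≤ (C0 * (S : ℝ) ^ κ0) * S := mul_le_mul h7 hY1 (by positivity) (by positivity)
      _ = C0 * (S : ℝ) ^ (κ0 + 1) := by rw [pow_succ]; ring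
      _ ≤ _ := by
          have : 0 ≤ (S : ℝ) ^ (κ0 + 1) := by positivity
          linarith
  have hlG : 0 ≤ Real.log (1 + G) := Real.log_nonneg (by linarith)
  have h6 : (S : ℝ) ≤ 8 * ((p + (1 + Real.log Y)) + Real.log (1 + G)) := by
    rw [hS]
    push_cast
    linarith
  have h7 : δ / B * G ≤ ((p + (1 + Real.log Y)) + Real.log (1 + G)) ^ (κ0 + 1) := by
    have h8 : (S : ℝ) ^ (κ0 + 1) ≤
        8 ^ (κ0 + 1) * ((p + (1 + Real.log Y)) + Real.log (1 + G)) ^ (κ0 + 1) := by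
      rw [← mul_pow]
      exact pow_le_pow_left₀ (Nat.cast_nonneg _) h6 _
    have h9 : δ / B * G = (δ * G) / B := by ring
    rw [h9, div_le_iff₀ hBpos, hB]
    have h10 : (0 : ℝ) ≤ (C0 : ℝ) + 1 := by positivity
    calc δ * G ≤ ((C0 : ℝ) + 1) * (S : ℝ) ^ (κ0 + 1) := h4
      _ ≤ ((C0 : ℝ) + 1) * (8 ^ (κ0 + 1) *
          ((p + (1 + Real.log Y)) + Real.log (1 + G)) ^ (κ0 + 1)) := by gcongr
      _ = _ := by ring
  exact hsolve (p + (1 + Real.log Y)) G (by linarith) hG0.le h7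

end Pool.Agent.Y913.Nb
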