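import Pool.Agent.Y913.Vm.Fin
import Pool.Agent.Y913.Vm.Ht

/-!
Fermat type triples counted by their bases.
-/

set_option autoImplicit false

namespace Pool.Agent.Y913.Vm

open Finset Filter Pool.Agent.Y913 Pool.Agent.Y913.Nb

/-- the three members -/
def mem3 (q : ℕ × ℕ) : Fin 3 → ℕ := ![q.1, q.2, q.1 + q.2]

/-- triples whose members are `a * x ^ p` with `a` a product of powers of `n` integers `≤ W` -/
def FT (n R : ℕ) (δ η W Y : ℝ) (q : ℕ × ℕ) : Prop :=
  0 < q.1 ∧ 0 < q.2 ∧ Nat.Coprime q.1 q.2 ∧ ∃ a x p : Fin 3 → ℕ,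
    (∀ i, mem3 q i = a i * x i ^ p i ∧ NB n W (a i) ∧ 0 < x i ∧ (x i : ℝ) ≤ Y) ∧
    (∃ i j, i ≠ j ∧ R ≤ p i ∧ R ≤ p j) ∧
    ((∃ (l : ℕ) (i : Fin 3), Nat.Prime l ∧ (l : ℝ) ≤ Y ^ η ∧ l ∣ x i) ∨
     (∃ i, ((x i ^ p i : ℕ) : ℝ) ≤ ((q.1 + q.2 : ℕ) : ℝ) ^ (1 - δ)) ∨
     Real.log ((q.1 + q.2 : ℕ) : ℝ) ≤ Y ^ η)

/-- a set containing the small values -/
noncomputable def Vs (n E A B : ℕ) : Finset ℕ :=
  ((Fintype.piFinset (fun _ : Fin n => Finset.range (E + 1))) ×ˢ
    (Fintype.piFinset (fun _ : Fin n => Finset.range (A + 1))) ×ˢ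
    (Finset.range (E + 1)) ×ˢ (Finset.range (B + 1))).image
    (fun t => (∏ i, t.2.1 i ^ t.1 i) * t.2.2.2 ^ t.2.2.1)

lemma card_Vs (n E A B : ℕ) : (Vs n E A B).card ≤ (E + 1) ^ n * ((A + 1) ^ n *
    ((E + 1) * (B + 1))) := by
  unfold Vs
  refine Finset.card_image_le.trans ?_
  simp [Finset.card_product, Fintype.card_piFinset]

lemma mem_Vs {n R : ℕ} {W K Z : ℝ} (hR : 1 ≤ R) (hZ : 1 ≤ Z) (hK : 0 ≤ K) {m a x p : ℕ}
    (hm : 0 < m) (h : m = a * x ^ p) (ha : NB n W a) (hp : R ≤ p)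
    (hmZ : (m : ℝ) < Z ^ K) :
    m ∈ Vs n ⌊2 * (K * Real.log Z)⌋₊ ⌊W⌋₊ ⌊Z ^ (K / R)⌋₊ := by
  have hZ0 : 0 < Z := by linarith
  have hlog : Real.log m ≤ K * Real.log Z := by
    rw [← Real.log_rpow hZ0]
    exact Real.log_le_log (by exact_mod_cast hm) hmZ.le
  have ha0 : 0 < a := by
    rcases Nat.eq_zero_or_pos a with h0 | h0
    · rw [h0, zero_mul] at h
      omega
    · exact h0
  have hxp : 0 < x ^ p := by
    rcases Nat.eq_zero_or_pos (x ^ p) with h0 | h0
    · rw [h0, mul_zero] at h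
      omega
    · exact h0
  have hx0 : 0 < x := by
    rcases Nat.eq_zero_or_pos x with h0 | h0
    · rw [h0, zero_pow (by omega)] at hxp
      omega
    · exact h0
  have hla : Real.log a ≤ K * Real.log Z := by
    refine le_trans (Real.log_le_log (by exact_mod_cast ha0) ?_) hlog
    have : a ≤ m := by rw [h]; exact Nat.le_mul_of_pos_right _ hxp
    exact_mod_cast this
  obtain ⟨y, e, hy, hay, he⟩ := nb_small ha hla
  have hB0 : 0 ≤ K * Real.log Z := mul_nonneg hK (Real.log_nonneg hZ)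
  have hxR : (x : ℝ) ≤ Z ^ (K / R) := by
    have h1 : (x : ℝ) ^ R ≤ Z ^ K := by
      have h2 : x ^ R ≤ m := by
        rw [h]
        exact (Nat.pow_le_pow_right hx0 hp).trans (Nat.le_mul_of_pos_left _ ha0)
      have h3 : ((x ^ R : ℕ) : ℝ) ≤ (m : ℝ) := by exact_mod_cast h2
      push_cast at h3
      linarith
    have h2 : (x : ℝ) = ((x : ℝ) ^ R) ^ ((1 : ℝ) / R) := by
      rw [← Real.rpow_natCast, ← Real.rpow_mul (by positivity)]
      rw [mul_one_div_cancel (by positivity), Real.rpow_one]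
    rw [h2]
    calc ((x : ℝ) ^ R) ^ ((1 : ℝ) / R) ≤ (Z ^ K) ^ ((1 : ℝ) / R) :=
          Real.rpow_le_rpow (by positivity) h1 (by positivity)
      _ = Z ^ (K / R) := by
          rw [← Real.rpow_mul hZ0.le]
          ring_nf
  unfold Vs
  rw [Finset.mem_image]
  refine ⟨(e, y, if x = 1 then 0 else p, x), ?_, ?_⟩
  · simp only [Finset.mem_product, Fintype.mem_piFinset, Finset.mem_range]
    refine ⟨?_, ?_, ?_, ?_⟩
    · intro i
      have := Nat.le_floor (he i)
      omega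
    · intro i
      have := Nat.le_floor (hy i).2
      omega
    · split_ifs with h1
      · omega
      · have h2 : 2 ^ p ≤ m := by
          rw [h]
          exact (Nat.pow_le_pow_left (by omega : 2 ≤ x) p).trans (Nat.le_mul_of_pos_left _ ha0)
        have h3 : (p : ℝ) * Real.log 2 ≤ K * Real.log Z := by
          rw [← Real.log_pow]
          refine le_trans (Real.log_le_log (by positivity) ?_) hlog
          exact_mod_cast h2
        have h4 : (0.6931471803 : ℝ) < Real.log 2 := Real.log_two_gt_d9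
        have h5 : (p : ℝ) ≤ 2 * (K * Real.log Z) := by
          have h7 : (0 : ℝ) ≤ (p : ℝ) := Nat.cast_nonneg _
          nlinarith
        have := Nat.le_floor h5
        omega
    · have := Nat.le_floor hxR
      omega
  · simp only
    rw [h, hay]
    congr 1
    split_ifs with h1
    · rw [h1]
      simp
    · rfl

lemma ev_polylog (κ : ℕ) {C s : ℝ} (hC : 0 < C) (hs : 0 < s) :
    ∀ᶠ Z : ℝ in atTop, C * (Z ^ (s / (2 * (κ + 1))) + (1 + Real.log Z)) ^ κ + Real.log 2 ≤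
      Z ^ s := by
  obtain ⟨u, hu⟩ : ∃ u : ℝ, u = s / (2 * (κ + 1)) := ⟨_, rfl⟩
  have hupos : 0 < u := by rw [hu]; positivity
  have huκ : u * κ ≤ s / 2 := by
    have h1 : u * (κ + 1) = s / 2 := by
      rw [hu]
      field_simp
    nlinarith
  rw [← hu]
  have h2 := (isLittleO_log_rpow_atTop hupos).bound (by norm_num : (0 : ℝ) < 1)
  have h3 : ∀ᶠ Z : ℝ in atTop, C * 3 ^ κ + 1 ≤ Z ^ (s / 2) :=
    (tendsto_rpow_atTop (by positivity)).eventually_ge_atTop _
  filter_upwards [h2, h3, eventually_gt_atTop (1 : ℝ)] with Z h5 h6 hZ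
  have hZ0 : 0 < Z := by linarith
  have hl0 : 0 ≤ Real.log Z := Real.log_nonneg hZ.le
  rw [Real.norm_eq_abs, Real.norm_eq_abs, abs_of_nonneg hl0, abs_of_pos (by positivity),
    one_mul] at h5
  have h7 : 1 ≤ Z ^ u := Real.one_le_rpow hZ.le hupos.le
  have h8 : (Z ^ u + (1 + Real.log Z)) ^ κ ≤ (3 * Z ^ u) ^ κ := by
    apply pow_le_pow_left₀ (by positivity)
    linarith
  have h9 : (Z ^ u) ^ κ ≤ Z ^ (s / 2) := by
    rw [← Real.rpow_natCast, ← Real.rpow_mul hZ0.le]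
    exact Real.rpow_le_rpow_of_exponent_le hZ.le huκ
  have h10 : Real.log 2 < 0.6931471808 := Real.log_two_lt_d9
  have h11 : 1 ≤ Z ^ (s / 2) := Real.one_le_rpow hZ.le (by positivity)
  calc C * (Z ^ u + (1 + Real.log Z)) ^ κ + Real.log 2 ≤ C * (3 * Z ^ u) ^ κ + Real.log 2 := by
        gcongr
    _ = C * 3 ^ κ * (Z ^ u) ^ κ + Real.log 2 := by rw [mul_pow]; ring
    _ ≤ C * 3 ^ κ * Z ^ (s / 2) + 1 * Z ^ (s / 2) := by
        have : C * 3 ^ κ * (Z ^ u) ^ κ ≤ C * 3 ^ κ * Z ^ (s / 2) := by gcongr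
        linarith
    _ = (C * 3 ^ κ + 1) * Z ^ (s / 2) := by ring
    _ ≤ Z ^ (s / 2) * Z ^ (s / 2) := by gcongr
    _ = Z ^ s := by
        rw [← Real.rpow_add hZ0]
        ring_nf

theorem ft_count (n : ℕ) (δ ε : ℝ) (hδ : 0 < δ) (hε : 0 < ε) : ∃ R : ℕ, ∃ C η : ℝ, 0 < C ∧
    0 < η ∧ ∀ Y : ℝ, 1 ≤ Y → ∀ Q : Finset (ℕ × ℕ),
      (∀ q ∈ Q, FT n R δ η (Y ^ η) Y q) → (Q.card : ℝ) ≤ C * Y ^ ε := by
  classical
  obtain ⟨K1, C1, η1, hK1, hC1, hη1, hlow⟩ := low_count (n + 1) ε hε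
  obtain ⟨K2, C2, η2, hK2, hC2, hη2, habc⟩ := abc3_count (n + 1) (min δ (1 / 2)) ε
    (lt_min hδ (by norm_num)) hε
  obtain ⟨C4, κ4, hC4, hht⟩ := padic_height4 (n + 1) (1 / 2) (by norm_num)
  obtain ⟨K, hK⟩ : ∃ K : ℝ, K = max (max K1 K2) 1 := ⟨_, rfl⟩
  have hK1' : K1 ≤ K := by rw [hK]; exact (le_max_left _ _).trans (le_max_left _ _)
  have hK2' : K2 ≤ K := by rw [hK]; exact (le_max_right _ _).trans (le_max_left _ _)
  have hK3' : 1 ≤ K := by rw [hK]; exact le_max_right _ _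
  obtain ⟨s, hs⟩ : ∃ s : ℝ, s = ε / (16 * (n + 1)) := ⟨_, rfl⟩
  have hspos : 0 < s := by rw [hs]; positivity
  have hsn : s * (n + 1) = ε / 16 := by rw [hs]; field_simp
  obtain ⟨η3, hη3⟩ : ∃ η3 : ℝ, η3 = min 1 (η1 / (2 * (κ4 + 1))) := ⟨_, rfl⟩
  have hη3pos : 0 < η3 := by rw [hη3]; exact lt_min one_pos (by positivity)
  obtain ⟨η, hη⟩ : ∃ η : ℝ, η = min (min η1 η2) (min s η3) := ⟨_, rfl⟩
  have hηpos : 0 < η := by
    rw [hη]; exact lt_min (lt_min hη1 hη2) (lt_min hspos hη3pos)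
  have hηη1 : η ≤ η1 := by rw [hη]; exact (min_le_left _ _).trans (min_le_left _ _)
  have hηη2 : η ≤ η2 := by rw [hη]; exact (min_le_left _ _).trans (min_le_right _ _)
  have hηs : η ≤ s := by rw [hη]; exact (min_le_right _ _).trans (min_le_left _ _)
  have hηη3 : η ≤ η3 := by rw [hη]; exact (min_le_right _ _).trans (min_le_right _ _)
  have hη1' : η ≤ 1 := hηη3.trans (by rw [hη3]; exact min_le_left _ _)
  have hηκ : η ≤ η1 / (2 * (κ4 + 1)) := hηη3.trans (by rw [hη3]; exact min_le_right _ _)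
  obtain ⟨R, hR⟩ : ∃ R : ℕ, R = ⌈8 * K / ε⌉₊ + 1 := ⟨_, rfl⟩
  have hR1 : 1 ≤ R := by omega
  have hRK : K / R ≤ ε / 8 := by
    have h1 : 8 * K / ε ≤ R := by
      rw [hR]
      push_cast
      have := Nat.le_ceil (8 * K / ε)
      linarith
    rw [div_le_iff₀ hε] at h1
    rw [div_le_iff₀ (by positivity)]
    nlinarith
  obtain ⟨Z1, hZ1⟩ := eventually_atTop.mp (ev_polylog κ4 hC4 hη1)
  obtain ⟨Z0, hZ0⟩ : ∃ Z0 : ℝ, Z0 = max Z1 4 := ⟨_, rfl⟩
  have hZ04 : 4 ≤ Z0 := by rw [hZ0]; exact le_max_right _ _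
  obtain ⟨A, hA⟩ : ∃ A : ℝ, A = 2 * K / s + 1 := ⟨_, rfl⟩
  have hApos : 0 < A := by rw [hA]; positivity
  obtain ⟨C5, hC5⟩ : ∃ C5 : ℝ, C5 = A ^ (n + 1) * 2 ^ n * 2 := ⟨_, rfl⟩
  have hC5pos : 0 < C5 := by rw [hC5]; positivity
  refine ⟨R, (C1 + C2 + 9 * C5 ^ 2) * Z0 ^ ε, η, by positivity, hηpos, ?_⟩
  intro Y hY Q hQ
  obtain ⟨Z, hZ⟩ : ∃ Z : ℝ, Z = Z0 * Y := ⟨_, rfl⟩
  have hZY : Y ≤ Z := by rw [hZ]; nlinarith
  have hZZ0 : Z0 ≤ Z := by rw [hZ]; nlinarith
  have hZpos : 0 < Z := by linarith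
  have hZ1' : 1 ≤ Z := by linarith
  have hZfin : Z ^ ε = Z0 ^ ε * Y ^ ε := by
    rw [hZ, Real.mul_rpow (by linarith) (by linarith)]
  have hpoly := hZ1 Z (by rw [hZ0] at hZZ0; exact (le_max_left _ _).trans hZZ0)
  -- members
  have hYη : Y ^ η ≤ Z ^ η := Real.rpow_le_rpow (by linarith) hZY hηpos.le
  have hZη : Z ^ η ≤ Z := by
    calc Z ^ η ≤ Z ^ (1 : ℝ) := Real.rpow_le_rpow_of_exponent_le hZ1' hη1'
      _ = Z := Real.rpow_one Z
  let Qa := Q.filter (fun q => ((q.1 + q.2 : ℕ) : ℝ) < Z ^ K)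
  let Qx := Q.filter (fun q => Low (n + 1) K1 η1 Z q)
  let Qy := Q.filter (fun q => AbcExc3 (n + 1) (min δ (1 / 2)) η2 K2 Z q)
  have hcov : Q ⊆ Qa ∪ (Qx ∪ Qy) := by
    intro q hq
    simp only [Qa, Qx, Qy, Finset.mem_union, Finset.mem_filter]
    by_cases hM : ((q.1 + q.2 : ℕ) : ℝ) < Z ^ K
    · exact Or.inl ⟨hq, hM⟩
    right
    rw [not_lt] at hM
    obtain ⟨h1, h2, h3, a, x, p, hrep, -, hcase⟩ := hQ q hq
    have hM1 : (1 : ℝ) ≤ ((q.1 + q.2 : ℕ) : ℝ) := by exact_mod_cast (by omega : 1 ≤ q.1 + q.2)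
    have hMpos : (0 : ℝ) < ((q.1 + q.2 : ℕ) : ℝ) := by linarith
    have hnb : ∀ i, NB (n + 1) Z (mem3 q i) := by
      intro i
      obtain ⟨g1, g2, g3, g4⟩ := hrep i
      rw [g1]
      apply NB.mul
      · exact g2.mono_Y (hYη.trans hZη)
      · exact ⟨fun _ => x i, fun _ => p i, fun _ => ⟨g3, g4.trans hZY⟩, by simp⟩
    have n0 : NB (n + 1) Z q.1 := hnb 0
    have n1 : NB (n + 1) Z q.2 := hnb 1
    have n2 : NB (n + 1) Z (q.1 + q.2) := hnb 2
    by_cases hlogM : Real.log ((q.1 + q.2 : ℕ) : ℝ) ≤ Z ^ η1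
    · exact Or.inl ⟨hq, h1, h2, h3, n0, n1, n2,
        (Real.rpow_le_rpow_of_exponent_le hZ1' hK1').trans hM, hlogM⟩
    right
    refine ⟨hq, h1, h2, h3, (Real.rpow_le_rpow_of_exponent_le hZ1' hK2').trans hM, ?_⟩
    by_cases hsm : ∃ i, ((x i ^ p i : ℕ) : ℝ) ≤ ((q.1 + q.2 : ℕ) : ℝ) ^ (1 - min δ (1 / 2))
    · obtain ⟨i, hi⟩ := hsm
      obtain ⟨g1, g2, g3, g4⟩ := hrep i
      have hdef : Def3 (n + 1) (Z ^ η2) (((q.1 + q.2 : ℕ) : ℝ) ^ (1 - min δ (1 / 2)))
          (mem3 q i) := by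
        refine ⟨a i, x i ^ p i, g1, ?_, hi⟩
        exact (g2.mono_Y (hYη.trans (Real.rpow_le_rpow_of_exponent_le hZ1' hηη2))).mono_n
          (Real.one_le_rpow hZ1' hη2.le) (by omega)
      fin_cases i
      · exact Or.inl ⟨n1, n2, hdef⟩
      · exact Or.inr (Or.inl ⟨n0, n2, hdef⟩)
      · exact Or.inr (Or.inr ⟨n0, n1, hdef⟩)
    · exfalso
      apply hlogM
      push Not at hsm
      have hbig : ∀ i, (1 / 2 : ℝ) * Real.log ((q.1 + q.2 : ℕ) : ℝ) ≤
          p i * (1 + Real.log Z) := by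
        intro i
        obtain ⟨g1, g2, g3, g4⟩ := hrep i
        have h4 : ((q.1 + q.2 : ℕ) : ℝ) ^ ((1 : ℝ) / 2) ≤
            ((q.1 + q.2 : ℕ) : ℝ) ^ (1 - min δ (1 / 2)) := by
          apply Real.rpow_le_rpow_of_exponent_le hM1
          have := min_le_right δ (1 / 2)
          linarith
        have h5 := Real.log_le_log (by positivity) (h4.trans (hsm i).le)
        rw [Real.log_rpow hMpos] at h5
        push_cast at h5
        rw [Real.log_pow] at h5
        have h6 : Real.log (x i) ≤ Real.log Z :=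
          Real.log_le_log (by exact_mod_cast g3) (g4.trans hZY)
        have h7 : (0 : ℝ) ≤ (p i : ℝ) := Nat.cast_nonneg _
        push_cast
        nlinarith
      rcases hcase with ⟨l, i, hl, hlP, hli⟩ | ⟨i, hi⟩ | hh
      · have hlP' : (l : ℝ) ≤ Z ^ (η1 / (2 * (κ4 + 1))) :=
          (hlP.trans hYη).trans (Real.rpow_le_rpow_of_exponent_le hZ1' hηκ)
        have hlZ : 0 ≤ Real.log Z := Real.log_nonneg hZ1'
        have hfinish : ∀ t : ℝ, t ≤ C4 * ((l : ℝ) + (1 + Real.log Z)) ^ κ4 →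
            Real.log ((q.1 + q.2 : ℕ) : ℝ) ≤ Real.log 2 + t →
            Real.log ((q.1 + q.2 : ℕ) : ℝ) ≤ Z ^ η1 := by
          intro t ht1 ht2
          have h4 : C4 * ((l : ℝ) + (1 + Real.log Z)) ^ κ4 ≤
              C4 * (Z ^ (η1 / (2 * (κ4 + 1))) + (1 + Real.log Z)) ^ κ4 := by gcongr
          linarith
        have hkl : (1 / 2 : ℝ) * Real.log ((q.1 + q.2 : ℕ) : ℝ) ≤
            p i * ((l : ℝ) + (1 + Real.log Z)) := by
          have h4 := hbig i
          have h5 : (0 : ℝ) ≤ (p i : ℝ) * l := by positivity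
          nlinarith
        have hdv : l ^ p i ∣ mem3 q i := by
          rw [(hrep i).1]
          exact Dvd.dvd.mul_left (pow_dvd_pow_of_dvd hli _) _
        have hl2 : (0 : ℝ) ≤ Real.log 2 := Real.log_nonneg (by norm_num)
        fin_cases i
        · apply hfinish _ _ (by linarith : _ ≤ Real.log 2 + Real.log ((q.1 + q.2 : ℕ) : ℝ))
          apply hht Z hZ1' l (p 0) hl 1 (Or.inl rfl) (q.2, q.1 + q.2) h2 (by simp only; omega)
            (by simp only; exact (Nat.coprime_add_self_right.mpr h3.symm)) n1 n2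
          · simp only
            have : ((l ^ p 0 : ℕ) : ℤ) ∣ (q.1 : ℤ) := by exact_mod_cast hdv
            push_cast at this ⊢
            simpa using this
          · exact hkl
        · apply hfinish _ _ (by linarith : _ ≤ Real.log 2 + Real.log ((q.1 + q.2 : ℕ) : ℝ))
          apply hht Z hZ1' l (p 1) hl 1 (Or.inl rfl) (q.1, q.1 + q.2) h1 (by simp only; omega)
            (by simp only; exact (Nat.coprime_self_add_right.mpr h3)) n0 n2
          · simp only
            have : ((l ^ p 1 : ℕ) : ℤ) ∣ (q.2 : ℤ) := by exact_mod_cast hdv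
            push_cast at this ⊢
            simpa using this
          · exact hkl
        · have hdv' : ((l ^ p 2 : ℕ) : ℤ) ∣ (q.1 : ℤ) + q.2 := by
            have : ((l ^ p 2 : ℕ) : ℤ) ∣ ((q.1 + q.2 : ℕ) : ℤ) := by exact_mod_cast hdv
            push_cast at this ⊢
            exact this
          rcases lt_trichotomy q.1 q.2 with hlt | heq | hgt
          · apply hfinish (Real.log q.2)
            · apply hht Z hZ1' l (p 2) hl (-1) (Or.inr rfl) (q.1, q.2) h1 hlt h3 n0 n1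
              · simp only
                have e1 : (q.2 : ℤ) - -1 * (q.1 : ℤ) = (q.1 : ℤ) + q.2 := by ring
                rw [e1]
                exact hdv'
              · refine le_trans ?_ hkl
                have h5 : Real.log (q.2 : ℝ) ≤ Real.log ((q.1 + q.2 : ℕ) : ℝ) := by
                  apply Real.log_le_log (by exact_mod_cast h2)
                  push_cast
                  have : (0 : ℝ) ≤ (q.1 : ℝ) := Nat.cast_nonneg _
                  linarith
                simp only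
                linarith
            · rw [← Real.log_mul (by norm_num) (by exact_mod_cast h2.ne')]
              apply Real.log_le_log hMpos
              push_cast
              have : (q.1 : ℝ) < q.2 := by exact_mod_cast hlt
              linarith
          · rw [heq] at h3
            have h4 : q.2 = 1 := (Nat.coprime_self _).mp h3
            have h5 : ((q.1 + q.2 : ℕ) : ℝ) = 2 := by
              rw [heq, h4]
              norm_num
            rw [h5] at hM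
            have h6 : Z ^ (1 : ℝ) ≤ Z ^ K := Real.rpow_le_rpow_of_exponent_le hZ1' hK3'
            rw [Real.rpow_one] at h6
            linarith
          · apply hfinish (Real.log q.1)
            · apply hht Z hZ1' l (p 2) hl (-1) (Or.inr rfl) (q.2, q.1) h2 hgt h3.symm n1 n0
              · simp only
                have e1 : (q.1 : ℤ) - -1 * (q.2 : ℤ) = (q.1 : ℤ) + q.2 := by ring
                rw [e1]
                exact hdv'
              · refine le_trans ?_ hkl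
                have h5 : Real.log (q.1 : ℝ) ≤ Real.log ((q.1 + q.2 : ℕ) : ℝ) := by
                  apply Real.log_le_log (by exact_mod_cast h1)
                  push_cast
                  have : (0 : ℝ) ≤ (q.2 : ℝ) := Nat.cast_nonneg _
                  linarith
                simp only
                linarith
            · rw [← Real.log_mul (by norm_num) (by exact_mod_cast h1.ne')]
              apply Real.log_le_log hMpos
              push_cast
              have : (q.2 : ℝ) < q.1 := by exact_mod_cast hgt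
              linarith
      · exfalso
        have h4 := hsm i
        have h5 : ((q.1 + q.2 : ℕ) : ℝ) ^ (1 - δ) ≤
            ((q.1 + q.2 : ℕ) : ℝ) ^ (1 - min δ (1 / 2)) := by
          apply Real.rpow_le_rpow_of_exponent_le hM1
          have := min_le_left δ (1 / 2)
          linarith
        linarith
      · refine hh.trans ?_
        calc Y ^ η ≤ Z ^ η := hYη
          _ ≤ Z ^ η1 := Real.rpow_le_rpow_of_exponent_le hZ1' hηη1
  have cx : (Qx.card : ℝ) ≤ C1 * Z ^ ε :=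
    hlow Z hZ1' Qx (fun q hq => (Finset.mem_filter.mp hq).2)
  have cy : (Qy.card : ℝ) ≤ C2 * Z ^ ε :=
    habc Z hZ1' Qy (fun q hq => (Finset.mem_filter.mp hq).2)
  -- the small triples
  have ca : (Qa.card : ℝ) ≤ 9 * C5 ^ 2 * Z ^ ε := by
    obtain ⟨V, hV⟩ : ∃ V, V = Vs n ⌊2 * (K * Real.log Z)⌋₊ ⌊Z ^ η⌋₊ ⌊Z ^ (K / R)⌋₊ := ⟨_, rfl⟩
    have hch : ∀ q ∈ Qa, ∃ i j : Fin 3, i ≠ j ∧ mem3 q i ∈ V ∧ mem3 q j ∈ V := by
      intro q hq
      obtain ⟨hq, hM⟩ := Finset.mem_filter.mp hq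
      obtain ⟨h1, h2, h3, a, x, p, hrep, ⟨i, j, hij, hpi, hpj⟩, -⟩ := hQ q hq
      have hm : ∀ i, 0 < mem3 q i ∧ (mem3 q i : ℝ) < Z ^ K := by
        intro i
        have h4 : 0 < mem3 q i ∧ mem3 q i ≤ q.1 + q.2 := by
          fin_cases i
          · exact ⟨h1, by simp [mem3]⟩
          · exact ⟨h2, by simp [mem3]⟩
          · exact ⟨by simp [mem3]; omega, by simp [mem3]⟩
        refine ⟨h4.1, lt_of_le_of_lt ?_ hM⟩
        exact_mod_cast h4.2
      refine ⟨i, j, hij, ?_, ?_⟩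
      · rw [hV]
        obtain ⟨g1, g2, g3, g4⟩ := hrep i
        exact mem_Vs hR1 hZ1' (by linarith) (hm i).1 g1 (g2.mono_Y hYη) hpi (hm i).2
      · rw [hV]
        obtain ⟨g1, g2, g3, g4⟩ := hrep j
        exact mem_Vs hR1 hZ1' (by linarith) (hm j).1 g1 (g2.mono_Y hYη) hpj (hm j).2
    choose! fi fj hij hfi hfj using hch
    have h1 : Qa.card ≤ ((Finset.univ : Finset (Fin 3)) ×ˢ (Finset.univ : Finset (Fin 3)) ×ˢ
        V ×ˢ V).card := by
      apply Finset.card_le_card_of_injOn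
        (fun q => (fi q, fj q, mem3 q (fi q), mem3 q (fj q)))
      · intro q hq
        rw [Finset.mem_coe] at hq ⊢
        simp only [Finset.mem_product, Finset.mem_univ, true_and]
        exact ⟨hfi q hq, hfj q hq⟩
      · intro q hq q' hq' heq
        rw [Finset.mem_coe] at hq hq'
        simp only [Prod.mk.injEq] at heq
        obtain ⟨e1, e2, e3, e4⟩ := heq
        have hne := hij q hq
        rw [← e1] at e3
        rw [← e2] at e4
        obtain ⟨i, hi⟩ : ∃ i, i = fi q := ⟨_, rfl⟩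
        obtain ⟨j, hj⟩ : ∃ j, j = fj q := ⟨_, rfl⟩
        rw [← hi] at hne e3
        rw [← hj] at hne e4
        rcases q with ⟨u, v⟩
        rcases q' with ⟨u', v'⟩
        rw [Prod.mk.injEq]
        fin_cases i <;> fin_cases j <;> simp [mem3] at hne e3 e4 ⊢ <;> omega
    have hVc : (V.card : ℝ) ≤ C5 * Z ^ (ε / 4) := by
      have h2 := card_Vs n ⌊2 * (K * Real.log Z)⌋₊ ⌊Z ^ η⌋₊ ⌊Z ^ (K / R)⌋₊
      rw [← hV] at h2
      have hlZ : 0 ≤ Real.log Z := Real.log_nonneg hZ1'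
      have hZs1 : 1 ≤ Z ^ s := Real.one_le_rpow hZ1' hspos.le
      have e1 : (⌊2 * (K * Real.log Z)⌋₊ : ℝ) + 1 ≤ A * Z ^ s := by
        have h3 := Nat.floor_le (by positivity : 0 ≤ 2 * (K * Real.log Z))
        have h4 := Real.log_le_rpow_div hZpos.le hspos
        rw [hA]
        have h5 : 2 * (K * Real.log Z) ≤ 2 * K / s * Z ^ s := by
          calc 2 * (K * Real.log Z) ≤ 2 * (K * (Z ^ s / s)) := by gcongr
            _ = 2 * K / s * Z ^ s := by ring
        nlinarith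
      have e2 : (⌊Z ^ η⌋₊ : ℝ) + 1 ≤ 2 * Z ^ s := by
        have h3 := Nat.floor_le (by positivity : 0 ≤ Z ^ η)
        have h4 : Z ^ η ≤ Z ^ s := Real.rpow_le_rpow_of_exponent_le hZ1' hηs
        linarith
      have e3 : (⌊Z ^ (K / R)⌋₊ : ℝ) + 1 ≤ 2 * Z ^ (ε / 8) := by
        have h3 := Nat.floor_le (by positivity : 0 ≤ Z ^ (K / R))
        have h4 : Z ^ (K / R) ≤ Z ^ (ε / 8) := Real.rpow_le_rpow_of_exponent_le hZ1' hRK
        have h5 : 1 ≤ Z ^ (ε / 8) := Real.one_le_rpow hZ1' (by positivity)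
        linarith
      have h3 : (V.card : ℝ) ≤ ((⌊2 * (K * Real.log Z)⌋₊ : ℝ) + 1) ^ n *
          (((⌊Z ^ η⌋₊ : ℝ) + 1) ^ n * (((⌊2 * (K * Real.log Z)⌋₊ : ℝ) + 1) *
          ((⌊Z ^ (K / R)⌋₊ : ℝ) + 1))) := by exact_mod_cast h2
      have h4 : (Z ^ s) ^ (n + 1) ≤ Z ^ (ε / 16) := by
        rw [← Real.rpow_natCast, ← Real.rpow_mul hZpos.le]
        apply Real.rpow_le_rpow_of_exponent_le hZ1'
        push_cast
        linarith
      have h5 : (Z ^ s) ^ n ≤ Z ^ (ε / 16) :=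
        (pow_le_pow_right₀ hZs1 (by omega)).trans h4
      calc (V.card : ℝ) ≤ _ := h3
        _ ≤ (A * Z ^ s) ^ n * ((2 * Z ^ s) ^ n * ((A * Z ^ s) * (2 * Z ^ (ε / 8)))) := by
            gcongr
        _ = (A ^ (n + 1) * 2 ^ n * 2) * ((Z ^ s) ^ (n + 1) * (Z ^ s) ^ n * Z ^ (ε / 8)) := by
            rw [mul_pow, mul_pow, pow_succ, pow_succ]
            ring
        _ ≤ (A ^ (n + 1) * 2 ^ n * 2) * (Z ^ (ε / 16) * Z ^ (ε / 16) * Z ^ (ε / 8)) := by
            gcongr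
        _ = C5 * Z ^ (ε / 4) := by
            rw [← Real.rpow_add hZpos, ← Real.rpow_add hZpos, hC5]
            ring_nf
    have h2 : (Qa.card : ℝ) ≤ 9 * (V.card : ℝ) ^ 2 := by
      rw [Finset.card_product, Finset.card_product, Finset.card_product, Finset.card_univ,
        Fintype.card_fin] at h1
      have : (Qa.card : ℝ) ≤ 3 * (3 * ((V.card : ℝ) * V.card)) := by exact_mod_cast h1
      linarith [this]
    calc (Qa.card : ℝ) ≤ 9 * (V.card : ℝ) ^ 2 := h2
      _ ≤ 9 * (C5 * Z ^ (ε / 4)) ^ 2 := by gcongr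
      _ = 9 * C5 ^ 2 * Z ^ (ε / 2) := by
          rw [mul_pow, pow_two (Z ^ (ε / 4)), ← Real.rpow_add hZpos]
          ring_nf
      _ ≤ 9 * C5 ^ 2 * Z ^ ε := by
          have : Z ^ (ε / 2) ≤ Z ^ ε :=
            Real.rpow_le_rpow_of_exponent_le hZ1' (by linarith)
          gcongr
  have hcard : (Q.card : ℝ) ≤ Qa.card + (Qx.card + Qy.card) := by
    have h3 := (Finset.card_le_card hcov).trans (Finset.card_union_le _ _)
    have h4 := Finset.card_union_le Qx Qy
    exact_mod_cast h3.trans (by omega)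
  calc (Q.card : ℝ) ≤ 9 * C5 ^ 2 * Z ^ ε + (C1 * Z ^ ε + C2 * Z ^ ε) := by linarith
    _ = (C1 + C2 + 9 * C5 ^ 2) * Z0 ^ ε * Y ^ ε := by
        rw [hZfin]
        ring

end Pool.Agent.Y913.Vm
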