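import Mathlib

/-!
Tangent derivations of a system of polynomial equations.
-/

set_option autoImplicit false

namespace Pool.Agent.Y913.Vm

open Finset MvPolynomial Matrix

/-- the polynomial ring -/
abbrev Rg (σ : Type) := MvPolynomial σ ℤ

section

variable {σ κ ν : Type} [Fintype κ] [DecidableEq κ] [Fintype ν] [DecidableEq ν]

/-- the Jacobian matrix with respect to the dependent variables -/
noncomputable def jm (u : ν → σ) (ι : κ → ν) (F : κ → Rg σ) : Matrix κ κ (Rg σ) :=
  Matrix.of fun a b => pderiv (u (ι b)) (F a)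

/-- its determinant -/
noncomputable def jd (u : ν → σ) (ι : κ → ν) (F : κ → Rg σ) : Rg σ := (jm u ι F).det

/-- the coefficients of the tangent derivations -/
noncomputable def kp (u : ν → σ) (ι : κ → ν) (F : κ → Rg σ) (i r : ν) : Rg σ :=
  (if r = i then jd u ι F else 0) -
    ∑ b, ∑ a, if ι b = r then (jm u ι F).adjugate b a * pderiv (u i) (F a) else 0

/-- the tangent derivations -/
noncomputable def dd (u : ν → σ) (ι : κ → ν) (F : κ → Rg σ) (i : ν) :
    Derivation ℤ (Rg σ) (Rg σ) := ∑ r, kp u ι F i r • pderiv (u r)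

variable (u : ν → σ) (ι : κ → ν) (F : κ → Rg σ)

lemma dd_apply (i : ν) (G : Rg σ) :
    dd u ι F i G = ∑ r, kp u ι F i r * pderiv (u r) G := by
  have h : ∀ s : Finset ν, (∑ r ∈ s, kp u ι F i r • pderiv (u r) :
      Derivation ℤ (Rg σ) (Rg σ)) G = ∑ r ∈ s, kp u ι F i r * pderiv (u r) G := by
    intro s
    induction s using Finset.induction_on with
    | empty => simp
    | insert a s ha ih =>
      rw [Finset.sum_insert ha, Finset.sum_insert ha, Derivation.add_apply, ih,
        Derivation.smul_apply, smul_eq_mul]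
  exact h Finset.univ

lemma dd_eq (i : ν) (G : Rg σ) :
    dd u ι F i G = jd u ι F * pderiv (u i) G -
      ∑ b, ∑ a, (jm u ι F).adjugate b a * pderiv (u i) (F a) * pderiv (u (ι b)) G := by
  rw [dd_apply]
  unfold kp
  simp only [sub_mul, Finset.sum_sub_distrib, ite_mul, zero_mul, Finset.sum_ite_eq',
    Finset.mem_univ, if_true]
  congr 1
  simp only [Finset.sum_mul]
  rw [Finset.sum_comm]
  apply Finset.sum_congr rfl
  intro b _
  rw [Finset.sum_comm]
  apply Finset.sum_congr rfl
  intro a _
  simp only [ite_mul, zero_mul, Finset.sum_ite_eq, Finset.mem_univ, if_true]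

/-- the derivations in the directions of the dependent variables vanish -/
lemma dd_dep (b' : κ) (G : Rg σ) : dd u ι F (ι b') G = 0 := by
  rw [dd_eq]
  have h1 : ∀ b, ∑ a, (jm u ι F).adjugate b a * pderiv (u (ι b')) (F a) =
      if b = b' then jd u ι F else 0 := by
    intro b
    have h2 := congrFun (congrFun (Matrix.adjugate_mul (jm u ι F)) b) b'
    rw [Matrix.mul_apply, Matrix.smul_apply, Matrix.one_apply, smul_eq_mul, mul_ite, mul_one,
      mul_zero] at h2
    have h4 : jd u ι F = (jm u ι F).det := rfl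
    rw [h4, ← h2]
    rfl
  have h3 : ∑ b, ∑ a, (jm u ι F).adjugate b a * pderiv (u (ι b')) (F a) *
      pderiv (u (ι b)) G = jd u ι F * pderiv (u (ι b')) G := by
    calc _ = ∑ b, (∑ a, (jm u ι F).adjugate b a * pderiv (u (ι b')) (F a)) *
          pderiv (u (ι b)) G := by
          apply Finset.sum_congr rfl
          intro b _
          rw [Finset.sum_mul]
      _ = ∑ b, (if b = b' then jd u ι F * pderiv (u (ι b)) G else 0) := by
          apply Finset.sum_congr rfl
          intro b _
          rw [h1, ite_mul, zero_mul]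
      _ = _ := by simp
  rw [h3, sub_self]

/-- the derivations kill functions which do not depend on the variables `u` -/
lemma dd_const (i : ν) {G : Rg σ} (h : ∀ r, pderiv (u r) G = 0) : dd u ι F i G = 0 := by
  rw [dd_apply]
  apply Finset.sum_eq_zero
  intro r _
  rw [h, mul_zero]

/-- the basic identity -/
lemma sum_dd {A : Type} [CommRing A] (φ : Rg σ →+* A) (v : ν → A) (H : Rg σ) :
    ∑ i, v i * φ (dd u ι F i H) = φ (jd u ι F) * ∑ i, v i * φ (pderiv (u i) H) -
      ∑ b, ∑ a, φ ((jm u ι F).adjugate b a) * (∑ i, v i * φ (pderiv (u i) (F a))) *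
        φ (pderiv (u (ι b)) H) := by
  simp only [dd_eq, map_sub, map_mul, map_sum, mul_sub, Finset.sum_sub_distrib, Finset.mul_sum,
    Finset.sum_mul]
  congr 1
  · apply Finset.sum_congr rfl
    intro i _
    ring
  · rw [Finset.sum_comm]
    apply Finset.sum_congr rfl
    intro b _
    rw [Finset.sum_comm]
    apply Finset.sum_congr rfl
    intro a _
    apply Finset.sum_congr rfl
    intro i _
    ring

/-- words in the derivations -/
noncomputable def word (w : List ν) (G : Rg σ) : Rg σ :=
  w.foldr (fun i G => dd u ι F i G) G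

lemma word_nil (G : Rg σ) : word u ι F [] G = G := rfl

lemma word_cons (i : ν) (w : List ν) (G : Rg σ) :
    word u ι F (i :: w) G = dd u ι F i (word u ι F w G) := rfl

end

/-- the determinant of a bordered matrix over a field -/
lemma bordered {K κ : Type} [Field K] [Fintype κ] [DecidableEq κ] (M : Matrix κ κ K)
    (hM : M.det ≠ 0) (b c : κ → K) (d : K) :
    (Matrix.fromBlocks M (Matrix.of fun a (_ : Unit) => b a) (Matrix.of fun (_ : Unit) a => c a)
      (Matrix.of fun (_ _ : Unit) => d)).det =
      d * M.det - ∑ j, ∑ a, M.adjugate j a * b a * c j := by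
  have hu : IsUnit M.det := isUnit_iff_ne_zero.mpr hM
  let _ := Matrix.invertibleOfIsUnitDet M hu
  rw [Matrix.det_fromBlocks₁₁]
  rw [show (Matrix.of (fun (_ _ : Unit) => d) - Matrix.of (fun (_ : Unit) a => c a) * ⅟M *
    Matrix.of (fun a (_ : Unit) => b a)).det = (Matrix.of (fun (_ _ : Unit) => d) -
    Matrix.of (fun (_ : Unit) a => c a) * ⅟M * Matrix.of (fun a (_ : Unit) => b a)) () () from
      Matrix.det_unique _]
  have h1 : ⅟M = (M.det)⁻¹ • M.adjugate := by
    rw [Matrix.invOf_eq_nonsing_inv, Matrix.inv_def, Ring.inverse_eq_inv']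
  rw [h1]
  simp only [Matrix.sub_apply, Matrix.mul_apply, Matrix.smul_apply, Matrix.of_apply, smul_eq_mul,
    mul_sub, Finset.sum_mul, Finset.mul_sum]
  congr 1
  · ring
  · rw [Finset.sum_comm]
    apply Finset.sum_congr rfl
    intro j _
    apply Finset.sum_congr rfl
    intro a _
    field_simp

/-- the determinant of a bordered integer matrix -/
lemma bordered_int {κ : Type} [Fintype κ] [DecidableEq κ] (M : Matrix κ κ ℤ)
    (hM : M.det ≠ 0) (b c : κ → ℤ) (d : ℤ) :
    (Matrix.fromBlocks M (Matrix.of fun a (_ : Unit) => b a) (Matrix.of fun (_ : Unit) a => c a)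
      (Matrix.of fun (_ _ : Unit) => d)).det =
      d * M.det - ∑ j, ∑ a, M.adjugate j a * b a * c j := by
  have h1 : (M.map (Int.castRingHom ℚ)).det ≠ 0 := by
    rw [← RingHom.mapMatrix_apply, ← RingHom.map_det]
    simpa using hM
  have h2 := bordered (M.map (Int.castRingHom ℚ)) h1 (fun a => (b a : ℚ)) (fun a => (c a : ℚ))
    (d : ℚ)
  have h3 : (Matrix.fromBlocks (M.map (Int.castRingHom ℚ))
      (Matrix.of fun a (_ : Unit) => (b a : ℚ)) (Matrix.of fun (_ : Unit) a => (c a : ℚ))
      (Matrix.of fun (_ _ : Unit) => (d : ℚ))) =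
      (Matrix.fromBlocks M (Matrix.of fun a (_ : Unit) => b a)
        (Matrix.of fun (_ : Unit) a => c a) (Matrix.of fun (_ _ : Unit) => d)).map
        (Int.castRingHom ℚ) := by
    ext i j
    rcases i with i | i <;> rcases j with j | j <;> rfl
  rw [h3, ← RingHom.mapMatrix_apply, ← RingHom.map_det, ← RingHom.mapMatrix_apply,
    ← RingHom.map_det, ← RingHom.map_adjugate] at h2
  simp only [RingHom.mapMatrix_apply, Matrix.map_apply, eq_intCast] at h2
  exact_mod_cast h2

section

variable {σ κ ν : Type} [Fintype κ] [DecidableEq κ] [Fintype ν] [DecidableEq ν]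

/-- adding an equation: the new Jacobian -/
lemma jd_snoc (u : ν → σ) (ι : κ → ν) (F : κ → Rg σ) (i : ν) (G : Rg σ) (v : σ → ℤ)
    (h : eval v (jd u ι F) ≠ 0) :
    eval v (jd u (Sum.elim ι (fun _ : Unit => i)) (Sum.elim F (fun _ : Unit => G))) =
      eval v (dd u ι F i G) := by
  have h1 : eval v (jd u ι F) = ((jm u ι F).map (eval v)).det := by
    unfold jd
    rw [RingHom.map_det]
    rfl
  have h2 := bordered_int ((jm u ι F).map (eval v)) (by rwa [← h1])
    (fun a => eval v (pderiv (u i) (F a))) (fun b => eval v (pderiv (u (ι b)) G))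
    (eval v (pderiv (u i) G))
  have h3 : (jm u (Sum.elim ι (fun _ : Unit => i)) (Sum.elim F (fun _ : Unit => G))).map
      (eval v) = Matrix.fromBlocks ((jm u ι F).map (eval v))
      (Matrix.of fun a (_ : Unit) => eval v (pderiv (u i) (F a)))
      (Matrix.of fun (_ : Unit) b => eval v (pderiv (u (ι b)) G))
      (Matrix.of fun (_ _ : Unit) => eval v (pderiv (u i) G)) := by
    ext a b
    rcases a with a | a <;> rcases b with b | b <;> rfl
  have h4 : eval v (jd u (Sum.elim ι (fun _ : Unit => i)) (Sum.elim F (fun _ : Unit => G))) =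
      ((jm u (Sum.elim ι (fun _ : Unit => i)) (Sum.elim F (fun _ : Unit => G))).map
        (eval v)).det := by
    unfold jd
    rw [RingHom.map_det]
    rfl
  rw [h4, h3, h2, dd_eq, map_sub, map_mul, ← h1, mul_comm]
  congr 1
  rw [map_sum]
  apply Finset.sum_congr rfl
  intro b _
  rw [map_sum]
  apply Finset.sum_congr rfl
  intro a _
  rw [map_mul, map_mul]
  congr 2
  have h5 := RingHom.map_adjugate (eval v) (jm u ι F)
  have h6 := congrFun (congrFun h5 b) a
  exact h6.symm

omit [Fintype ν] [DecidableEq ν] in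
/-- a non-injective choice of dependent variables has Jacobian zero -/
lemma jd_eq_zero (u : ν → σ) (ι : κ → ν) (F : κ → Rg σ) (h : ¬ Function.Injective ι) :
    jd u ι F = 0 := by
  rw [Function.Injective] at h
  push Not at h
  obtain ⟨a, b, hab, hne⟩ := h
  unfold jd
  apply Matrix.det_zero_of_column_eq hne
  intro k
  unfold jm
  simp only [Matrix.of_apply, hab]

end

end Pool.Agent.Y913.Vm
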