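import Pool.Agent.Y913.Vm.Rel

/-!
The statement proved by induction, and elementary lemmas.
-/

set_option autoImplicit false

namespace Pool.Agent.Y913.Vm

open Finset MvPolynomial Matrix Filter

/-- a product of powers -/
def vl {ν : Type} [Fintype ν] (P : ν → ℤ) (a : ν → ℕ) : ℤ := ∏ r, P r ^ a r

/-- the admissible vectors of bases -/
def Good {ν : Type} [Fintype ν] (X : ℝ) (K : ℕ) (η : ℝ) (e : Fin 3 → ν → ℕ) (P : ν → ℤ) : Prop :=
  (∀ r, 1 ≤ P r ∧ (P r : ℝ) ≤ X) ∧ vl P (e 0) + vl P (e 1) = vl P (e 2) ∧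
    IsCoprime (vl P (e 0)) (vl P (e 1)) ∧ X ^ K ≤ (vl P (e 2) : ℝ) ∧
    Real.log (vl P (e 2)) ≤ X ^ η

/-- the ratios of the first and third members are distinct -/
def Sep {ν : Type} [Fintype ν] (e : Fin 3 → ν → ℕ) (E : Finset (ν → ℤ)) : Prop :=
  ∀ P ∈ E, ∀ P' ∈ E, vl P (e 0) * vl P' (e 2) = vl P' (e 0) * vl P (e 2) → P = P'

/-- the bound for a system of equations -/
def Bd {ν π κ : Type} [Fintype ν] [DecidableEq ν] [Fintype κ] [DecidableEq κ]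
    (ex : Fin 3 → ν → π) (ι : κ → ν) (F : κ → Rg (π ⊕ ν)) (D : ℕ) (ε : ℝ) (K : ℕ) (η X : ℝ) :
    Prop :=
  ∀ z : π → ℤ, (∀ i, |(z i : ℝ)| ≤ X ^ D) → ∀ e : Fin 3 → ν → ℕ,
    (∀ j r, z (ex j r) = e j r) → ∀ E : Finset (ν → ℤ), (∀ P ∈ E, Good X K η e P ∧
      (∀ a, eval (Sum.elim z P) (F a) = 0) ∧ eval (Sum.elim z P) (jd Sum.inr ι F) ≠ 0) →
    Sep e E → (E.card : ℝ) ≤ X ^ ε

/-- the statement for `s` equations -/
def Stmt (ν : Type) [Fintype ν] [DecidableEq ν] (s : ℕ) : Prop :=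
  ∀ (π κ : Type) [Fintype π] [DecidableEq π] [Fintype κ] [DecidableEq κ], Fintype.card κ = s →
    ∀ (ex : Fin 3 → ν → π) (ι : κ → ν) (F : κ → Rg (π ⊕ ν)) (D : ℕ) (ε : ℝ), 0 < ε →
    ∃ K : ℕ, ∃ η : ℝ, 0 < η ∧ ∀ᶠ X : ℝ in atTop, Bd ex ι F D ε K η X

lemma Good.mono {ν : Type} [Fintype ν] {X : ℝ} (hX : 1 ≤ X) {K K' : ℕ} (hK : K ≤ K') {η η' : ℝ}
    (hη : η' ≤ η) {e : Fin 3 → ν → ℕ} {P : ν → ℤ} (h : Good X K' η' e P) : Good X K η e P := by
  obtain ⟨h1, h2, h3, h4, h5⟩ := h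
  exact ⟨h1, h2, h3, (pow_le_pow_right₀ hX hK).trans h4,
    h5.trans (Real.rpow_le_rpow_of_exponent_le hX hη)⟩

lemma Sep.sub {ν : Type} [Fintype ν] {e : Fin 3 → ν → ℕ} {E E' : Finset (ν → ℤ)} (h : Sep e E)
    (hE : E' ⊆ E) : Sep e E' := fun P hP P' hP' h1 => h P (hE hP) P' (hE hP') h1

lemma Bd.mono {ν π κ : Type} [Fintype ν] [DecidableEq ν] [Fintype κ] [DecidableEq κ]
    {ex : Fin 3 → ν → π} {ι : κ → ν} {F : κ → Rg (π ⊕ ν)} {D : ℕ} {ε : ℝ} {K K' : ℕ}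
    {η η' X : ℝ} (hX : 1 ≤ X) (hK : K ≤ K') (hη : η' ≤ η) (h : Bd ex ι F D ε K η X) :
    Bd ex ι F D ε K' η' X := by
  intro z hz e he E hE hS
  exact h z hz e he E (fun P hP => ⟨(hE P hP).1.mono hX hK hη, (hE P hP).2⟩) hS

/-- uniformity over finite families -/
lemma unif {T : Type} (s : Finset T) (Q : T → ℕ → ℝ → ℝ → Prop)
    (hmono : ∀ t (K K' : ℕ) (η η' X : ℝ), 1 ≤ X → K ≤ K' → η' ≤ η → Q t K η X → Q t K' η' X)
    (h : ∀ t ∈ s, ∃ K : ℕ, ∃ η : ℝ, 0 < η ∧ ∀ᶠ X : ℝ in atTop, Q t K η X) :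
    ∃ K : ℕ, ∃ η : ℝ, 0 < η ∧ ∀ᶠ X : ℝ in atTop, ∀ t ∈ s, Q t K η X := by
  classical
  induction s using Finset.induction_on with
  | empty => exact ⟨0, 1, one_pos, Eventually.of_forall (by simp)⟩
  | insert a s ha ih =>
    obtain ⟨K1, η1, hη1, h1⟩ := ih (fun t ht => h t (Finset.mem_insert_of_mem ht))
    obtain ⟨K2, η2, hη2, h2⟩ := h a (Finset.mem_insert_self _ _)
    refine ⟨max K1 K2, min η1 η2, lt_min hη1 hη2, ?_⟩
    filter_upwards [h1, h2, eventually_ge_atTop (1 : ℝ)] with X h3 h4 hX t ht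
    rcases Finset.mem_insert.mp ht with rfl | ht
    · exact hmono _ _ _ _ _ _ hX (le_max_right _ _) (min_le_right _ _) h4
    · exact hmono _ _ _ _ _ _ hX (le_max_left _ _) (min_le_left _ _) (h3 t ht)

lemma fiber_bound {α β : Type} [DecidableEq β] (E : Finset α) (f : α → β) (T : Finset β)
    (hf : ∀ P ∈ E, f P ∈ T) (B : ℝ)
    (hB : ∀ t ∈ T, ((E.filter (fun P => f P = t)).card : ℝ) ≤ B) :
    (E.card : ℝ) ≤ T.card * B := by
  rw [Finset.card_eq_sum_card_fiberwise (f := f) (t := T) (fun P hP => hf P hP)]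
  push_cast
  calc ∑ b ∈ T, ((E.filter (fun P => f P = b)).card : ℝ) ≤ ∑ _b ∈ T, B :=
        Finset.sum_le_sum hB
    _ = _ := by rw [Finset.sum_const, nsmul_eq_mul]

/-- splitting into residue classes modulo primes of a set -/
lemma classes {ν T : Type} [Fintype ν] [DecidableEq ν] [DecidableEq T] (T0 : Finset T)
    (L : Finset ℕ) (Y : ℝ) (hL : ∀ l ∈ L, 0 < l ∧ (l : ℝ) ≤ Y) (hY : 1 ≤ Y)
    (hLc : (L.card : ℝ) ≤ Y) (E : Finset (ν → ℤ)) (τ : (ν → ℤ) → T)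
    (lam : (ν → ℤ) → ℕ) (hτ : ∀ P ∈ E, τ P ∈ T0) (hlam : ∀ P ∈ E, lam P ∈ L) (B : ℝ) (hB0 : 0 ≤ B)
    (h : ∀ t ∈ T0, ∀ l ∈ L, ∀ E' ⊆ E, (∀ P ∈ E', τ P = t ∧ lam P = l) →
      (∀ P ∈ E', ∀ P' ∈ E', ∀ r, (l : ℤ) ∣ P' r - P r) → (E'.card : ℝ) ≤ B) :
    (E.card : ℝ) ≤ T0.card * (Y * (2 * Y) ^ Fintype.card ν) * B := by
  classical
  let f : (ν → ℤ) → T × ℕ × (ν → ℕ) := fun P => (τ P, lam P, fun r => (P r % (lam P : ℤ)).toNat)
  let W : Finset (T × ℕ × (ν → ℕ)) :=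
    T0 ×ˢ L ×ˢ Fintype.piFinset (fun _ : ν => Finset.range (⌊Y⌋₊ + 1))
  have h1 := fiber_bound E f W (by
    intro P hP
    simp only [f, W, Finset.mem_product, Fintype.mem_piFinset, Finset.mem_range]
    refine ⟨hτ P hP, hlam P hP, ?_⟩
    intro r
    have h2 := hL _ (hlam P hP)
    have h3 : P r % (lam P : ℤ) < lam P := Int.emod_lt_of_pos _ (by exact_mod_cast h2.1)
    have h5 : 0 ≤ P r % (lam P : ℤ) := Int.emod_nonneg _ (by exact_mod_cast h2.1.ne')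
    have h4 : lam P ≤ ⌊Y⌋₊ := Nat.le_floor h2.2
    omega) B (by
    rintro ⟨t, l, ρ⟩ ht
    simp only [W, Finset.mem_product] at ht
    apply h t ht.1 l ht.2.1 _ (Finset.filter_subset _ _)
    · intro P hP
      rw [Finset.mem_filter] at hP
      have := hP.2
      simp only [f, Prod.mk.injEq] at this
      exact ⟨this.1, this.2.1⟩
    · intro P hP P' hP' r
      rw [Finset.mem_filter] at hP hP'
      have h2 := hP.2
      have h3 := hP'.2
      simp only [f, Prod.mk.injEq] at h2 h3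
      obtain ⟨-, h4, h5⟩ := h2
      obtain ⟨-, h6, h7⟩ := h3
      have h8 := congrFun h5 r
      have h9 := congrFun h7 r
      simp only [h4, h6] at h8 h9
      have h10 : 0 < l := (hL l ht.2.1).1
      have e1 : 0 ≤ P r % (l : ℤ) := Int.emod_nonneg _ (by exact_mod_cast h10.ne')
      have e2 : 0 ≤ P' r % (l : ℤ) := Int.emod_nonneg _ (by exact_mod_cast h10.ne')
      have e3 : P r % (l : ℤ) = P' r % (l : ℤ) := by omega
      exact Int.ModEq.dvd e3)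
  refine h1.trans ?_
  apply mul_le_mul_of_nonneg_right _ hB0
  simp only [W, Finset.card_product, Fintype.card_piFinset, Finset.card_range, Finset.prod_const,
    Finset.card_univ]
  push_cast
  have h2 : (⌊Y⌋₊ : ℝ) + 1 ≤ 2 * Y := by
    have := Nat.floor_le (by linarith : 0 ≤ Y)
    linarith
  have h3 : ((⌊Y⌋₊ : ℝ) + 1) ^ Fintype.card ν ≤ (2 * Y) ^ Fintype.card ν :=
    pow_le_pow_left₀ (by positivity) h2 _
  gcongr

lemma card_fv {ν κ : Type} [Fintype ν] [DecidableEq ν] [Fintype κ] (ι : κ → ν)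
    (hι : Function.Injective ι) : Fintype.card (Fv ι) + Fintype.card κ = Fintype.card ν := by
  classical
  have h1 : Fintype.card (Fv ι) = (Finset.univ.filter (fun r : ν => ∀ b, r ≠ ι b)).card :=
    Fintype.card_subtype _
  have h2 : Finset.univ.filter (fun r : ν => ∀ b, r ≠ ι b) = Finset.univ \ Finset.univ.image ι := by
    ext r
    simp only [Finset.mem_filter, Finset.mem_univ, true_and, Finset.mem_sdiff, Finset.mem_image,
      not_exists]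
    exact ⟨fun h b hb => h b hb.symm, fun h b hb => h b hb.symm⟩
  rw [h1, h2, Finset.card_sdiff_of_subset (Finset.subset_univ _),
    Finset.card_image_of_injective _ hι, Finset.card_univ, Finset.card_univ]
  have := Fintype.card_le_of_injective ι hι
  omega

/-- sizes of the values of a fixed polynomial -/
lemma size' {π ν : Type} (G : Rg (π ⊕ ν)) (D : ℕ) : ∃ D' : ℕ, ∀ X : ℝ, 2 ≤ X →
    ∀ (z : π → ℤ) (P : ν → ℤ), (∀ i, |(z i : ℝ)| ≤ X ^ D) → (∀ r, 1 ≤ P r ∧ (P r : ℝ) ≤ X) →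
    |((eval (Sum.elim z P) G : ℤ) : ℝ)| ≤ X ^ D' := by
  obtain ⟨D1, h1⟩ := size G
  refine ⟨(D + 1) * D1, ?_⟩
  intro X hX z P hz hP
  rw [pow_mul]
  have hX1 : X ≤ X ^ (D + 1) := by
    calc X = X ^ 1 := (pow_one X).symm
      _ ≤ X ^ (D + 1) := pow_le_pow_right₀ (by linarith) (by omega)
  apply h1 _ (hX.trans hX1)
  rintro (i | r)
  · exact (hz i).trans (pow_le_pow_right₀ (by linarith) (by omega))
  · show |((P r : ℤ) : ℝ)| ≤ _
    have h2 : (1 : ℝ) ≤ (P r : ℝ) := by exact_mod_cast (hP r).1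
    rw [abs_of_nonneg (by linarith)]
    exact (hP r).2.trans hX1

lemma eval_mn {π ν : Type} [Fintype ν] (z : π → ℤ) (P : ν → ℤ) (a : ν → ℕ) :
    eval (Sum.elim z P) (mn Sum.inr a : Rg (π ⊕ ν)) = vl P a := by
  unfold mn vl
  rw [map_prod]
  apply Finset.prod_congr rfl
  intro r _
  rw [map_pow, eval_X]
  rfl

lemma vl_pos {ν : Type} [Fintype ν] {P : ν → ℤ} (hP : ∀ r, 1 ≤ P r) (a : ν → ℕ) :
    1 ≤ vl P a := by
  unfold vl
  have : 0 < ∏ r, P r ^ a r := Finset.prod_pos (fun r _ => pow_pos (by linarith [hP r]) _)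
  omega

end Pool.Agent.Y913.Vm
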