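import Pool.Agent.Y913.Vm.Cl

/-!
Points in a residue class at which the third equation is transverse to the system.
-/

set_option autoImplicit false

namespace Pool.Agent.Y913.Vm

open Finset MvPolynomial Matrix Filter

/-- the parameters of the auxiliary polynomial -/
lemma pig_cond {X ε2 : ℝ} (hX : 1 ≤ X) {l c d h n : ℕ} (hl0 : 0 < l)
    (hl : (l : ℝ) ≤ X ^ ε2) (hh : ε2 * (c : ℝ) ^ (n + 1) ≤ h) :
    (l ^ (c * d)) ^ ((c * d) ^ n) < (⌊X ^ h⌋₊ + 1) ^ (d ^ (n + 1)) ∨ d = 0 := by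
  rcases Nat.eq_zero_or_pos d with hd | hd
  · exact Or.inr hd
  left
  have hX0 : 0 < X := by linarith
  have h1 : (l ^ (c * d)) ^ ((c * d) ^ n) = l ^ ((c * d) ^ (n + 1)) := by
    rw [← pow_mul, pow_succ, mul_comm ((c * d) ^ n)]
  rw [h1]
  have h2 : ((l ^ ((c * d) ^ (n + 1)) : ℕ) : ℝ) ≤ (X ^ h) ^ (d ^ (n + 1)) := by
    push_cast
    calc (l : ℝ) ^ ((c * d) ^ (n + 1)) ≤ (X ^ ε2) ^ ((c * d) ^ (n + 1)) :=
          pow_le_pow_left₀ (by positivity) hl _
      _ = X ^ (ε2 * ((c : ℝ) * d) ^ (n + 1)) := by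
          rw [← Real.rpow_natCast, ← Real.rpow_mul hX0.le]
          push_cast
          ring_nf
      _ ≤ X ^ ((h : ℝ) * (d : ℝ) ^ (n + 1)) := by
          apply Real.rpow_le_rpow_of_exponent_le hX
          rw [mul_pow, ← mul_assoc]
          exact mul_le_mul_of_nonneg_right hh (by positivity)
      _ = (X ^ h) ^ (d ^ (n + 1)) := by
          rw [← pow_mul, ← Real.rpow_natCast X (h * d ^ (n + 1))]
          push_cast
          rfl
  have h3 : (X ^ h) ^ (d ^ (n + 1)) < (((⌊X ^ h⌋₊ + 1) ^ (d ^ (n + 1)) : ℕ) : ℝ) := by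
    push_cast
    apply pow_lt_pow_left₀ (Nat.lt_floor_add_one _) (by positivity)
    positivity
  exact_mod_cast h2.trans_lt h3

lemma sum_small {ν κ : Type} [Fintype ν] [DecidableEq ν] [Fintype κ] [DecidableEq κ]
    {ι : κ → ν} {X ε2 : ℝ} (hX : 1 ≤ X) {l c d h n : ℕ}
    (hl : X ^ (ε2 / 2) < l) (hc : 2 * (n : ℝ) ≤ c * (ε2 / 2)) (hd : h + 1 ≤ n * d) (hcd : 0 < c * d)
    (hdX : (d : ℝ) ^ n ≤ X) (hn : Fintype.card (Fv ι) = n) (G : (Fv ι → Fin d) → ℤ)
    (hG : ∀ m, |G m| ≤ ((⌊X ^ h⌋₊ : ℕ) : ℤ)) (P : ν → ℤ) (hP : ∀ r, 1 ≤ P r ∧ (P r : ℝ) ≤ X)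
    (hdiv : (l : ℤ) ^ (c * d) ∣ ∑ m, G m * ∏ r : Fv ι, P r ^ (m r : ℕ)) :
    ∑ m, G m * ∏ r : Fv ι, P r ^ (m r : ℕ) = 0 := by
  have hX0 : 0 < X := by linarith
  by_contra hne
  have h1 := Int.le_of_dvd (abs_pos.mpr hne) ((dvd_abs _ _).mpr hdiv)
  have h2 : (l : ℝ) ^ (c * d) ≤ |((∑ m, G m * ∏ r : Fv ι, P r ^ (m r : ℕ) : ℤ) : ℝ)| := by
    exact_mod_cast h1
  have h3 : |((∑ m, G m * ∏ r : Fv ι, P r ^ (m r : ℕ) : ℤ) : ℝ)| ≤
      (d : ℝ) ^ n * (X ^ h * X ^ (n * d)) := by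
    push_cast
    refine (Finset.abs_sum_le_sum_abs _ _).trans ?_
    calc ∑ m : Fv ι → Fin d, |(G m : ℝ) * ∏ r : Fv ι, (P r : ℝ) ^ (m r : ℕ)| ≤
          ∑ _m : Fv ι → Fin d, X ^ h * X ^ (n * d) := by
          apply Finset.sum_le_sum
          intro m _
          rw [abs_mul]
          apply mul_le_mul _ _ (abs_nonneg _) (by positivity)
          · have h4 : ((|G m| : ℤ) : ℝ) ≤ ((⌊X ^ h⌋₊ : ℕ) : ℝ) := by exact_mod_cast hG m
            rw [Int.cast_abs] at h4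
            exact h4.trans (Nat.floor_le (by positivity))
          · rw [Finset.abs_prod]
            calc ∏ r : Fv ι, |(P r : ℝ) ^ (m r : ℕ)| ≤ ∏ _r : Fv ι, X ^ d := by
                  apply Finset.prod_le_prod (fun r _ => abs_nonneg _)
                  intro r _
                  have h5 : (1 : ℝ) ≤ (P r : ℝ) := by exact_mod_cast (hP r).1
                  rw [abs_of_nonneg (by positivity)]
                  calc (P r : ℝ) ^ (m r : ℕ) ≤ X ^ (m r : ℕ) :=
                        pow_le_pow_left₀ (by linarith) (hP r).2 _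
                    _ ≤ X ^ d := pow_le_pow_right₀ hX (m r).isLt.le
              _ = X ^ (n * d) := by
                  rw [Finset.prod_const, Finset.card_univ, hn, ← pow_mul, mul_comm]
      _ = (d : ℝ) ^ n * (X ^ h * X ^ (n * d)) := by
          rw [Finset.sum_const, Finset.card_univ, Fintype.card_fun, Fintype.card_fin, hn,
            nsmul_eq_mul]
          push_cast
          rfl
  have h4 : (d : ℝ) ^ n * (X ^ h * X ^ (n * d)) ≤ X ^ (n * d + n * d) := by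
    calc (d : ℝ) ^ n * (X ^ h * X ^ (n * d)) ≤ X * (X ^ h * X ^ (n * d)) := by gcongr
      _ = X ^ (h + 1 + n * d) := by ring
      _ ≤ X ^ (n * d + n * d) := pow_le_pow_right₀ hX (by omega)
  have h5 : X ^ (n * d + n * d) < (l : ℝ) ^ (c * d) := by
    calc X ^ (n * d + n * d) = X ^ (2 * (n : ℝ) * d) := by
          rw [← Real.rpow_natCast]
          push_cast
          ring_nf
      _ ≤ X ^ (c * (ε2 / 2) * d) := by
          apply Real.rpow_le_rpow_of_exponent_le hX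
          exact mul_le_mul_of_nonneg_right hc (by positivity)
      _ = (X ^ (ε2 / 2)) ^ (c * d) := by
          rw [← Real.rpow_natCast, ← Real.rpow_mul hX0.le]
          push_cast
          ring_nf
      _ < (l : ℝ) ^ (c * d) := pow_lt_pow_left₀ hl (by positivity) (by omega)
  linarith

/-- **one residue class** -/
theorem class1 {ν : Type} [Fintype ν] [DecidableEq ν] {π κ : Type} [Fintype π] [DecidableEq π]
    [Fintype κ] [DecidableEq κ] (hst : Stmt ν (Fintype.card κ + 1)) (ex : Fin 3 → ν → π)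
    (ι : κ → ν) (hι : Function.Injective ι) (F : κ → Rg (π ⊕ ν)) (D : ℕ) (ε ε2 : ℝ) (hε : 0 < ε)
    (hε2 : 0 < ε2) (i : ν) :
    ∃ K : ℕ, ∃ η : ℝ, 0 < η ∧ ∀ᶠ X : ℝ in atTop, ∀ z : π → ℤ, (∀ i, |(z i : ℝ)| ≤ X ^ D) →
      ∀ e : Fin 3 → ν → ℕ, (∀ j r, z (ex j r) = e j r) → ∀ l : ℕ, l.Prime →
      X ^ (ε2 / 2) < l → (l : ℝ) ≤ X ^ ε2 → ∀ E : Finset (ν → ℤ), (∀ P ∈ E, Good X K η e P ∧
      (∀ a, eval (Sum.elim z P) (F a) = 0) ∧ eval (Sum.elim z P) (jd Sum.inr ι F) ≠ 0 ∧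
      ¬ (l : ℤ) ∣ eval (Sum.elim z P) (jd Sum.inr (Sum.elim ι (fun _ : Unit => i))
        (Sum.elim F (fun _ : Unit =>
          mn Sum.inr (e 0) + mn Sum.inr (e 1) - mn Sum.inr (e 2))))) →
      (∀ P ∈ E, ∀ P' ∈ E, ∀ r, (l : ℤ) ∣ P' r - P r) → Sep e E → (E.card : ℝ) ≤ X ^ ε := by
  classical
  by_cases hi : ∃ b, ι b = i
  · -- the direction is not free
    refine ⟨0, 1, one_pos, ?_⟩
    filter_upwards [eventually_ge_atTop (1 : ℝ)] with X hX z hz e he l hl hl1 hl2 E hE hcl hS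
    have hE0 : E = ∅ := by
      apply Finset.eq_empty_of_forall_notMem
      intro P hP
      obtain ⟨-, -, -, h1⟩ := hE P hP
      apply h1
      rw [jd_eq_zero, map_zero]
      · exact dvd_zero _
      · intro h
        obtain ⟨b, hb⟩ := hi
        have h2 : (Sum.elim ι (fun _ : Unit => i)) (Sum.inl b) =
            (Sum.elim ι (fun _ : Unit => i)) (Sum.inr ()) := hb
        exact absurd (h h2) (by simp)
    rw [hE0]
    simp only [Finset.card_empty, Nat.cast_zero]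
    positivity
  push Not at hi
  have hι' : Function.Injective (Sum.elim ι (fun _ : Unit => i)) := by
    rintro (a | a) (b | b) h
    · exact congrArg _ (hι h)
    · exact absurd h (hi a)
    · exact absurd h.symm (hi b)
    · rfl
  obtain ⟨n, hn⟩ : ∃ n, Fintype.card (Fv (Sum.elim ι (fun _ : Unit => i))) = n := ⟨_, rfl⟩
  have hcard : Fintype.card (Fv ι) = n + 1 := by
    have h1 := card_fv ι hι
    have h2 := card_fv _ hι'
    rw [Fintype.card_sum, Fintype.card_unit, hn] at h2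
    omega
  obtain ⟨c, hc1, hc2⟩ : ∃ c : ℕ, 1 ≤ c ∧ 2 * ((n + 1 : ℕ) : ℝ) ≤ c * (ε2 / 2) := by
    obtain ⟨c, hc⟩ := exists_nat_ge (2 * ((n + 1 : ℕ) : ℝ) / (ε2 / 2))
    refine ⟨c + 1, by omega, ?_⟩
    rw [div_le_iff₀ (by positivity)] at hc
    push_cast at hc ⊢
    nlinarith
  obtain ⟨h, hh⟩ := exists_nat_ge (ε2 * (c : ℝ) ^ (n + 1))
  obtain ⟨d, hd⟩ : ∃ d : ℕ, d = h + 1 := ⟨_, rfl⟩
  have hd1 : h + 1 ≤ (n + 1) * d := by
    rw [hd]
    nlinarith
  have hcd : 0 < c * d := by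
    rw [hd]
    positivity
  -- the finite set of new equations
  have hfin : {w : List ν | w.length ≤ (n + 1) * d}.Finite := List.finite_length_le ν _
  obtain ⟨W, hW⟩ : ∃ W : Finset (List ν × ν), W = hfin.toFinset ×ˢ Finset.univ := ⟨_, rfl⟩
  obtain ⟨K, η, hη, hev⟩ := unif W (fun t K η X => Bd (fun j r => Sum.inl (ex j r))
    (Sum.elim ι (fun _ : Unit => t.2)) (Sum.elim (fun a => rename (Sum.map Sum.inl id) (F a))
      (fun _ : Unit => pw Sum.inr t.1 (gen π ι d))) (max D h) (ε / 2) K η X)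
    (fun t K K' η η' X hX hK hη hb => hb.mono hX hK hη)
    (fun t _ => hst (π ⊕ (Fv ι → Fin d)) (κ ⊕ Unit) (by rw [Fintype.card_sum, Fintype.card_unit])
      _ _ _ _ _ (by positivity))
  refine ⟨K, η, hη, ?_⟩
  have hev2 : ∀ᶠ X : ℝ in atTop, (d : ℝ) ^ (n + 1) ≤ X := eventually_ge_atTop _
  have hev3 : ∀ᶠ X : ℝ in atTop, (W.card : ℝ) ≤ X ^ (ε / 2) :=
    (tendsto_rpow_atTop (by positivity)).eventually_ge_atTop _
  filter_upwards [hev, hev2, hev3, eventually_ge_atTop (1 : ℝ)] with X h1 h2 h3 hX z hz e he l hl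
    hl1 hl2 E hE hcl hS
  have hX0 : 0 < X := by linarith
  rcases Finset.eq_empty_or_nonempty E with hE0 | ⟨P0, hP0⟩
  · rw [hE0]
    simp only [Finset.card_empty, Nat.cast_zero]
    positivity
  have hlpos : 0 < l := hl.pos
  have hpig := (pig_cond hX (d := d) hlpos hl2 hh).resolve_right (by omega)
  obtain ⟨G, hG0, hGH, hG⟩ := aux_poly (Sum.inr : ν → π ⊕ ν) Sum.inr_injective
    (Sum.elim ι (fun _ : Unit => i)) hι' (Sum.elim F (fun _ : Unit =>
      mn Sum.inr (e 0) + mn Sum.inr (e 1) - mn Sum.inr (e 2))) (Sum.elim z P0) hl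
    (hE P0 hP0).2.2.2 (φ := Fv ι) Subtype.val (c * d) d ⌊X ^ h⌋₊ (by omega) (by
      rw [hn, hcard]
      exact hpig)
  -- the auxiliary polynomial vanishes on the class
  have hzero : ∀ P ∈ E, ∑ m, G m * ∏ r : Fv ι, P r ^ (m r : ℕ) = 0 := by
    intro P hP
    obtain ⟨⟨hg1, hg2, hg3, hg4, hg5⟩, hF, hJ, -⟩ := hE P hP
    apply sum_small hX hl1 hc2 hd1 hcd h2 hcard G hGH P hg1
    apply hG (Sum.elim z P)
    refine ⟨?_, ?_, ?_⟩
    · rintro (j | r)
      · simp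
      · exact hcl P0 hP0 P hP r
    · rintro (j | r) hj
      · rfl
      · exact absurd rfl (hj r)
    · rintro (a | a)
      · exact hF a
      · show eval (Sum.elim z P) (mn Sum.inr (e 0) + mn Sum.inr (e 1) - mn Sum.inr (e 2)) = 0
        rw [map_sub, map_add, eval_mn, eval_mn, eval_mn, hg2, sub_self]
  -- the new equations
  have hnew : ∀ P ∈ E, ∃ t ∈ W, (∀ a, eval (pt z G P) ((Sum.elim
      (fun a => rename (Sum.map Sum.inl id) (F a))
        (fun _ : Unit => pw Sum.inr t.1 (gen π ι d))) a) = 0) ∧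
      eval (pt z G P) (jd Sum.inr (Sum.elim ι (fun _ : Unit => t.2))
        (Sum.elim (fun a => rename (Sum.map Sum.inl id) (F a))
        (fun _ : Unit => pw Sum.inr t.1 (gen π ι d)))) ≠ 0 := by
    intro P hP
    obtain ⟨-, hF, hJ, -⟩ := hE P hP
    obtain ⟨w, t, hw, h4, h5⟩ := new_rel ι F d z P hJ hF G hG0 (hzero P hP)
    refine ⟨(w, t), ?_, h4, h5⟩
    rw [hW, Finset.mem_product]
    refine ⟨?_, Finset.mem_univ _⟩
    rw [Set.Finite.mem_toFinset]
    show w.length ≤ (n + 1) * d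
    rw [← hcard]
    exact hw
  have hne : Nonempty (List ν × ν) := ⟨([], i)⟩
  choose! f hf1 hf2 hf3 using hnew
  have h4 := fiber_bound E f W hf1 (X ^ (ε / 2)) (by
    intro t ht
    refine h1 t ht (Sum.elim z G) ?_ e ?_ _ ?_ (hS.sub (Finset.filter_subset _ _))
    · rintro (j | m)
      · exact (hz j).trans (pow_le_pow_right₀ hX (le_max_left _ _))
      · have h5 : ((|G m| : ℤ) : ℝ) ≤ ((⌊X ^ h⌋₊ : ℕ) : ℝ) := by exact_mod_cast hGH m
        rw [Int.cast_abs] at h5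
        exact (h5.trans (Nat.floor_le (by positivity))).trans
          (pow_le_pow_right₀ hX (le_max_right _ _))
    · exact he
    · intro P hP
      rw [Finset.mem_filter] at hP
      obtain ⟨hP, hft⟩ := hP
      refine ⟨(hE P hP).1, ?_, ?_⟩
      · have := hf2 P hP
        rw [hft] at this
        exact this
      · have := hf3 P hP
        rw [hft] at this
        exact this)
  calc (E.card : ℝ) ≤ W.card * X ^ (ε / 2) := h4
    _ ≤ X ^ (ε / 2) * X ^ (ε / 2) := by gcongr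
    _ = X ^ ε := by
        rw [← Real.rpow_add hX0]
        ring_nf

end Pool.Agent.Y913.Vm
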