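import Pool.Agent.Y913.Vm.Ea

/-!
Points at which the third equation is transverse to the system.
-/

set_option autoImplicit false

namespace Pool.Agent.Y913.Vm

open Finset MvPolynomial Matrix Filter

/-- the logarithmic derivatives of the two ratios -/
noncomputable def gg {ν π κ : Type} [Fintype ν] [DecidableEq ν] [Fintype κ] [DecidableEq κ]
    (ex : Fin 3 → ν → π) (ι : κ → ν) (F : κ → Rg (π ⊕ ν)) (i : ν) (j : Fin 3) : Rg (π ⊕ ν) :=
  lg Sum.inr ι F i (fun r => X (Sum.inl (ex j r)) - X (Sum.inl (ex 2 r)))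

/-- the third equation -/
noncomputable def SS {ν : Type} (π : Type) [Fintype ν] (e : Fin 3 → ν → ℕ) : Rg (π ⊕ ν) :=
  mn Sum.inr (e 0) + mn Sum.inr (e 1) - mn Sum.inr (e 2)

lemma trans_id {ν π κ : Type} [Fintype ν] [DecidableEq ν] [Fintype κ] [DecidableEq κ]
    (ex : Fin 3 → ν → π) (ι : κ → ν) (F : κ → Rg (π ⊕ ν)) (z : π → ℤ) (P : ν → ℤ)
    (e : Fin 3 → ν → ℕ) (he : ∀ j r, z (ex j r) = e j r)
    (hs : vl P (e 0) + vl P (e 1) = vl P (e 2)) (i : ν) :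
    (∏ r, P r) * eval (Sum.elim z P) (dd Sum.inr ι F i (SS π e)) =
      eval (Sum.elim z P) (gg ex ι F i 0) * vl P (e 0) +
      eval (Sum.elim z P) (gg ex ι F i 1) * vl P (e 1) := by
  have h1 : ∀ j : Fin 3, (∏ r, P r) * eval (Sum.elim z P) (dd Sum.inr ι F i
      (mn Sum.inr (e j))) = (∑ r, (e j r : ℤ) * eval (Sum.elim z P)
        (kp Sum.inr ι F i r * om Sum.inr r)) * vl P (e j) := by
    intro j
    have h2 := congrArg (eval (Sum.elim z P)) (pi_dd (σ := π ⊕ ν) (u := Sum.inr) (ι := ι) (F := F)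
      Sum.inr_injective (e j) i)
    rw [map_mul, map_mul, eval_mn, map_prod] at h2
    have h3 : ∀ r, eval (Sum.elim z P) (X (Sum.inr r) : Rg (π ⊕ ν)) = P r := fun r => by
      rw [eval_X]; rfl
    simp only [h3] at h2
    rw [h2]
    congr 1
    unfold lg
    rw [map_sum]
    apply Finset.sum_congr rfl
    intro r _
    rw [map_mul, eval_C]
  have h4 : ∀ j : Fin 3, eval (Sum.elim z P) (gg ex ι F i j) =
      (∑ r, (e j r : ℤ) * eval (Sum.elim z P) (kp Sum.inr ι F i r * om Sum.inr r)) -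
      ∑ r, (e 2 r : ℤ) * eval (Sum.elim z P) (kp Sum.inr ι F i r * om Sum.inr r) := by
    intro j
    unfold gg lg
    rw [map_sum, ← Finset.sum_sub_distrib]
    apply Finset.sum_congr rfl
    intro r _
    rw [map_mul, map_sub, eval_X, eval_X]
    simp only [Sum.elim_inl, he]
    ring
  unfold SS
  rw [map_sub, map_add, map_sub, map_add, mul_sub, mul_add, h1, h1, h1, h4, h4, ← hs]
  ring

lemma nonvan {g0 g1 A B : ℤ} {M : ℝ} (hA : 1 ≤ A) (hB : 1 ≤ B) (hco : IsCoprime A B)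
    (hg : g0 ≠ 0 ∨ g1 ≠ 0) (h0 : |(g0 : ℝ)| ≤ M) (h1 : |(g1 : ℝ)| ≤ M)
    (hM : 2 * M < ((A + B : ℤ) : ℝ)) : g0 * A + g1 * B ≠ 0 := by
  intro h
  have h2 : A ∣ g1 := by
    apply hco.dvd_of_dvd_mul_right
    exact ⟨-g0, by linarith⟩
  have h3 : B ∣ g0 := by
    apply hco.symm.dvd_of_dvd_mul_right
    exact ⟨-g1, by linarith⟩
  have h4 : g0 ≠ 0 ∧ g1 ≠ 0 := by
    rcases hg with hg | hg
    · refine ⟨hg, ?_⟩
      rintro rfl
      rw [zero_mul, add_zero] at h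
      rcases mul_eq_zero.mp h with h | h
      · exact hg h
      · omega
    · refine ⟨?_, hg⟩
      rintro rfl
      rw [zero_mul, zero_add] at h
      rcases mul_eq_zero.mp h with h | h
      · exact hg h
      · omega
  have h5 : A ≤ |g1| := Int.le_of_dvd (abs_pos.mpr h4.2) ((dvd_abs _ _).mpr h2)
  have h6 : B ≤ |g0| := Int.le_of_dvd (abs_pos.mpr h4.1) ((dvd_abs _ _).mpr h3)
  have h7 : (A : ℝ) ≤ |(g1 : ℝ)| := by exact_mod_cast h5
  have h8 : (B : ℝ) ≤ |(g0 : ℝ)| := by exact_mod_cast h6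
  push_cast at hM
  linarith

lemma ev_size (D : ℕ) {a : ℝ} (ha : 0 < a) :
    ∀ᶠ X : ℝ in atTop, (D : ℝ) * Real.log X + X ^ (a / 2) < X ^ a := by
  have h1 := (isLittleO_log_rpow_atTop (by positivity : 0 < a / 2)).bound
    (by positivity : (0 : ℝ) < 1 / (D + 1))
  have h2 : ∀ᶠ X : ℝ in atTop, (2 : ℝ) < X ^ (a / 2) :=
    (tendsto_rpow_atTop (by positivity)).eventually_gt_atTop 2
  filter_upwards [h1, h2, eventually_ge_atTop (1 : ℝ)] with X h3 h4 h5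
  have hX0 : 0 < X := by linarith
  have h6 : 0 ≤ Real.log X := Real.log_nonneg h5
  rw [Real.norm_eq_abs, Real.norm_eq_abs, abs_of_nonneg h6, abs_of_pos (by positivity)] at h3
  have h7 : (D : ℝ) * Real.log X ≤ X ^ (a / 2) := by
    have h8 : (D + 1 : ℝ) * Real.log X ≤ X ^ (a / 2) := by
      have h9 : (0 : ℝ) < D + 1 := by positivity
      rw [one_div, inv_mul_eq_div, le_div_iff₀ h9] at h3
      linarith
    nlinarith
  have h8 : X ^ a = X ^ (a / 2) * X ^ (a / 2) := by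
    rw [← Real.rpow_add hX0]
    ring_nf
  rw [h8]
  nlinarith

/-- the bound of `class1` as a predicate -/
def Cb {ν π κ : Type} [Fintype ν] [DecidableEq ν] [Fintype κ] [DecidableEq κ]
    (ex : Fin 3 → ν → π) (ι : κ → ν) (F : κ → Rg (π ⊕ ν)) (D : ℕ) (ε ε2 : ℝ) (i : ν) (K : ℕ)
    (η X : ℝ) : Prop :=
  ∀ z : π → ℤ, (∀ i, |(z i : ℝ)| ≤ X ^ D) →
      ∀ e : Fin 3 → ν → ℕ, (∀ j r, z (ex j r) = e j r) → ∀ l : ℕ, l.Prime →
      X ^ (ε2 / 2) < l → (l : ℝ) ≤ X ^ ε2 → ∀ E : Finset (ν → ℤ), (∀ P ∈ E, Good X K η e P ∧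
      (∀ a, eval (Sum.elim z P) (F a) = 0) ∧ eval (Sum.elim z P) (jd Sum.inr ι F) ≠ 0 ∧
      ¬ (l : ℤ) ∣ eval (Sum.elim z P) (jd Sum.inr (Sum.elim ι (fun _ : Unit => i))
        (Sum.elim F (fun _ : Unit => SS π e)))) →
      (∀ P ∈ E, ∀ P' ∈ E, ∀ r, (l : ℤ) ∣ P' r - P r) → Sep e E → (E.card : ℝ) ≤ X ^ ε

lemma Cb.mono {ν π κ : Type} [Fintype ν] [DecidableEq ν] [Fintype κ] [DecidableEq κ]
    {ex : Fin 3 → ν → π} {ι : κ → ν} {F : κ → Rg (π ⊕ ν)} {D : ℕ} {ε ε2 : ℝ} {i : ν} {K K' : ℕ}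
    {η η' X : ℝ} (hX : 1 ≤ X) (hK : K ≤ K') (hη : η' ≤ η) (h : Cb ex ι F D ε ε2 i K η X) :
    Cb ex ι F D ε ε2 i K' η' X := by
  intro z hz e he l hl hl1 hl2 E hE hcl hS
  exact h z hz e he l hl hl1 hl2 E (fun P hP => ⟨(hE P hP).1.mono hX hK hη, (hE P hP).2⟩) hcl hS

/-- the transverse points -/
theorem part1 {ν : Type} [Fintype ν] [DecidableEq ν] {π κ : Type} [Fintype π] [DecidableEq π]
    [Fintype κ] [DecidableEq κ] (hst : Stmt ν (Fintype.card κ + 1)) (ex : Fin 3 → ν → π)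
    (ι : κ → ν) (hι : Function.Injective ι) (F : κ → Rg (π ⊕ ν)) (D : ℕ) (ε : ℝ) (hε : 0 < ε) :
    ∃ K : ℕ, ∃ η : ℝ, 0 < η ∧ ∀ᶠ X : ℝ in atTop, ∀ z : π → ℤ, (∀ i, |(z i : ℝ)| ≤ X ^ D) →
      ∀ e : Fin 3 → ν → ℕ, (∀ j r, z (ex j r) = e j r) → ∀ E : Finset (ν → ℤ),
      (∀ P ∈ E, Good X K η e P ∧
      (∀ a, eval (Sum.elim z P) (F a) = 0) ∧ eval (Sum.elim z P) (jd Sum.inr ι F) ≠ 0 ∧
      ∃ i, eval (Sum.elim z P) (gg ex ι F i 0) ≠ 0 ∨ eval (Sum.elim z P) (gg ex ι F i 1) ≠ 0) →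
      Sep e E → (E.card : ℝ) ≤ X ^ ε := by
  classical
  obtain ⟨N, hN⟩ : ∃ N, Fintype.card ν = N := ⟨_, rfl⟩
  obtain ⟨ε2, hε2⟩ : ∃ ε2 : ℝ, ε2 = ε / (4 * (N + 1)) := ⟨_, rfl⟩
  have hε2pos : 0 < ε2 := by rw [hε2]; positivity
  have hε2N : ε2 * (N + 1) = ε / 4 := by
    rw [hε2]
    field_simp
  obtain ⟨K1, η1, hη1, hev⟩ := unif (Finset.univ : Finset ν)
    (fun i K η X => Cb ex ι F D (ε / 4) ε2 i K η X)
    (fun i K K' η η' X hX hK hη hb => hb.mono hX hK hη)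
    (fun i _ => class1 hst ex ι hι F D (ε / 4) ε2 (by positivity) hε2pos i)
  -- sizes
  have hsz : ∃ D' : ℕ, ∀ X : ℝ, 2 ≤ X → ∀ (z : π → ℤ) (P : ν → ℤ), (∀ i, |(z i : ℝ)| ≤ X ^ D) →
      (∀ r, 1 ≤ P r ∧ (P r : ℝ) ≤ X) → ∀ i, |((eval (Sum.elim z P) (gg ex ι F i 0) : ℤ) : ℝ)| ≤
        X ^ D' ∧ |((eval (Sum.elim z P) (gg ex ι F i 1) : ℤ) : ℝ)| ≤ X ^ D' := by
    have h1 : ∀ i : ν, ∃ D0 : ℕ, ∀ X : ℝ, 2 ≤ X → ∀ (z : π → ℤ) (P : ν → ℤ),
        (∀ i, |(z i : ℝ)| ≤ X ^ D) → (∀ r, 1 ≤ P r ∧ (P r : ℝ) ≤ X) →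
        |((eval (Sum.elim z P) (gg ex ι F i 0) : ℤ) : ℝ)| ≤ X ^ D0 ∧
        |((eval (Sum.elim z P) (gg ex ι F i 1) : ℤ) : ℝ)| ≤ X ^ D0 := by
      intro i
      obtain ⟨D1, h1⟩ := size' (gg ex ι F i 0) D
      obtain ⟨D2, h2⟩ := size' (gg ex ι F i 1) D
      refine ⟨max D1 D2, fun X hX z P hz hP => ⟨(h1 X hX z P hz hP).trans
        (pow_le_pow_right₀ (by linarith) (le_max_left _ _)), (h2 X hX z P hz hP).trans
        (pow_le_pow_right₀ (by linarith) (le_max_right _ _))⟩⟩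
    choose D0 h2 using h1
    refine ⟨Finset.univ.sup D0, ?_⟩
    intro X hX z P hz hP i
    have h3 : X ^ D0 i ≤ X ^ Finset.univ.sup D0 :=
      pow_le_pow_right₀ (by linarith) (Finset.le_sup (Finset.mem_univ i))
    exact ⟨(h2 i X hX z P hz hP).1.trans h3, (h2 i X hX z P hz hP).2.trans h3⟩
  obtain ⟨D', hsz⟩ := hsz
  refine ⟨max K1 (D' + 1), min η1 (ε2 / 4), lt_min hη1 (by positivity), ?_⟩
  have hev2 := ev_size D' (by positivity : 0 < ε2 / 2)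
  have hev3 : ∀ᶠ X : ℝ in atTop, (1000000 : ℝ) ≤ X ^ ε2 :=
    (tendsto_rpow_atTop hε2pos).eventually_ge_atTop _
  have hev4 : ∀ᶠ X : ℝ in atTop, (N : ℝ) * 2 ^ N ≤ X ^ (ε / 2) :=
    (tendsto_rpow_atTop (by positivity)).eventually_ge_atTop _
  filter_upwards [hev, hev2, hev3, hev4, eventually_gt_atTop (2 : ℝ)] with X h1 h2 h3 h4 hX z hz e
    he E hE hS
  have hX0 : 0 < X := by linarith
  have hX1 : 1 ≤ X := by linarith
  obtain ⟨L, hL1, hL2, hL3⟩ := prime_set h3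
  have hsq : Real.sqrt (X ^ ε2) = X ^ (ε2 / 2) := by
    rw [Real.sqrt_eq_rpow, ← Real.rpow_mul hX0.le]
    ring_nf
  -- the choices
  have hch : ∀ P ∈ E, ∃ i : ν, ∃ l ∈ L, ¬ (l : ℤ) ∣ eval (Sum.elim z P) (jd Sum.inr
      (Sum.elim ι (fun _ : Unit => i)) (Sum.elim F (fun _ : Unit => SS π e))) := by
    intro P hP
    obtain ⟨⟨hg1, hg2, hg3, hg4, hg5⟩, hF, hJ, i, hi⟩ := hE P hP
    refine ⟨i, ?_⟩
    have hA := vl_pos (fun r => (hg1 r).1) (e 0)
    have hB := vl_pos (fun r => (hg1 r).1) (e 1)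
    have hC := vl_pos (fun r => (hg1 r).1) (e 2)
    obtain ⟨s1, s2⟩ := hsz X hX.le z P hz hg1 i
    have hid := trans_id ex ι F z P e he hg2 i
    have hne : eval (Sum.elim z P) (gg ex ι F i 0) * vl P (e 0) +
        eval (Sum.elim z P) (gg ex ι F i 1) * vl P (e 1) ≠ 0 := by
      apply nonvan hA hB hg3 hi s1 s2
      rw [hg2]
      have h5 : X ^ (D' + 1) ≤ (vl P (e 2) : ℝ) :=
        (pow_le_pow_right₀ hX1 (le_max_right _ _)).trans hg4
      rw [pow_succ] at h5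
      have h6 : 0 < X ^ D' := by positivity
      nlinarith
    have hjd := jd_snoc Sum.inr ι F i (SS π e) (Sum.elim z P) hJ
    apply good_prime h3 hL1 hL2
    · rw [hjd]
      intro h5
      rw [h5, mul_zero] at hid
      exact hne hid.symm
    · rw [hjd, hsq]
      have hPi : (1 : ℤ) ≤ ∏ r, P r := by
        have : 0 < ∏ r, P r := Finset.prod_pos (fun r _ => by linarith [(hg1 r).1])
        omega
      have h5 : |((eval (Sum.elim z P) (dd Sum.inr ι F i (SS π e)) : ℤ) : ℝ)| ≤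
          |(((∏ r, P r) * eval (Sum.elim z P) (dd Sum.inr ι F i (SS π e)) : ℤ) : ℝ)| := by
        push_cast
        rw [abs_mul]
        have h6 : (1 : ℝ) ≤ |∏ r, (P r : ℝ)| := by
          rw [abs_of_nonneg (by
            have : ((0 : ℤ) : ℝ) ≤ ((∏ r, P r : ℤ) : ℝ) := by exact_mod_cast (by omega)
            push_cast at this
            exact this)]
          have : ((1 : ℤ) : ℝ) ≤ ((∏ r, P r : ℤ) : ℝ) := by exact_mod_cast hPi
          push_cast at this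
          exact this
        nlinarith [abs_nonneg ((eval (Sum.elim z P) (dd Sum.inr ι F i (SS π e)) : ℤ) : ℝ)]
      rw [hid] at h5
      have hCpos : (0 : ℝ) < (vl P (e 2) : ℝ) := by exact_mod_cast (by omega : 0 < vl P (e 2))
      have h6 : |((eval (Sum.elim z P) (gg ex ι F i 0) * vl P (e 0) +
          eval (Sum.elim z P) (gg ex ι F i 1) * vl P (e 1) : ℤ) : ℝ)| ≤
          X ^ D' * (vl P (e 2) : ℝ) := by
        rw [← hg2]
        push_cast
        have hA' : (0 : ℝ) ≤ (vl P (e 0) : ℝ) := by exact_mod_cast (by omega : 0 ≤ vl P (e 0))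
        have hB' : (0 : ℝ) ≤ (vl P (e 1) : ℝ) := by exact_mod_cast (by omega : 0 ≤ vl P (e 1))
        calc _ ≤ |((eval (Sum.elim z P) (gg ex ι F i 0) : ℤ) : ℝ) * (vl P (e 0) : ℝ)| +
              |((eval (Sum.elim z P) (gg ex ι F i 1) : ℤ) : ℝ) * (vl P (e 1) : ℝ)| :=
              abs_add_le _ _
          _ = |((eval (Sum.elim z P) (gg ex ι F i 0) : ℤ) : ℝ)| * (vl P (e 0) : ℝ) +
              |((eval (Sum.elim z P) (gg ex ι F i 1) : ℤ) : ℝ)| * (vl P (e 1) : ℝ) := by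
              rw [abs_mul, abs_mul, abs_of_nonneg hA', abs_of_nonneg hB']
          _ ≤ X ^ D' * (vl P (e 0) : ℝ) + X ^ D' * (vl P (e 1) : ℝ) := by gcongr
          _ = X ^ D' * ((vl P (e 0) : ℝ) + (vl P (e 1) : ℝ)) := by ring
      have h7 : X ^ D' * (vl P (e 2) : ℝ) < Real.exp (X ^ (ε2 / 2)) := by
        have h8 : Real.log (X ^ D' * (vl P (e 2) : ℝ)) < X ^ (ε2 / 2) := by
          rw [Real.log_mul (by positivity) hCpos.ne', Real.log_pow]
          have h9 : X ^ (min η1 (ε2 / 4)) ≤ X ^ (ε2 / 2 / 2) := by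
            apply Real.rpow_le_rpow_of_exponent_le hX1
            refine (min_le_right _ _).trans ?_
            linarith
          linarith
        rw [← Real.exp_log (by positivity : 0 < X ^ D' * (vl P (e 2) : ℝ))]
        exact Real.exp_lt_exp.mpr h8
      linarith
  rcases Finset.eq_empty_or_nonempty E with hE0 | ⟨P0, hP0⟩
  · rw [hE0]
    simp only [Finset.card_empty, Nat.cast_zero]
    positivity
  have hnu : Nonempty ν := ⟨(hch P0 hP0).choose⟩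
  choose! τ lam hlam hdv using hch
  have h5 := classes (Finset.univ : Finset ν) L (X ^ ε2) (fun l hl => ⟨(hL1 l hl).1.pos,
    (hL1 l hl).2.2⟩) (by linarith) hL3 E τ lam (fun P _ => Finset.mem_univ _) hlam (X ^ (ε / 4))
    (by positivity) (by
      intro t _ l hl E' hE' htl hcl
      refine h1 t (Finset.mem_univ _) z hz e he l (hL1 l hl).1 (by rw [← hsq]; exact (hL1 l hl).2.1)
        (hL1 l hl).2.2 E' ?_ hcl (hS.sub hE')
      intro P hP
      obtain ⟨hg, hF, hJ, -⟩ := hE P (hE' hP)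
      refine ⟨hg.mono hX1 (le_max_left _ _) (min_le_left _ _), hF, hJ, ?_⟩
      have h6 := hdv P (hE' hP)
      rw [(htl P hP).1, (htl P hP).2] at h6
      exact h6)
  rw [Finset.card_univ, hN] at h5
  refine h5.trans ?_
  have h6 : X ^ ε2 * (2 * X ^ ε2) ^ N = 2 ^ N * X ^ (ε / 4) := by
    have : X ^ (ε / 4) = (X ^ ε2) ^ (N + 1) := by
      rw [← hε2N, Real.rpow_mul hX0.le, ← Real.rpow_natCast]
      push_cast
      rfl
    rw [this, mul_pow]
    ring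
  rw [h6]
  calc (N : ℝ) * (2 ^ N * X ^ (ε / 4)) * X ^ (ε / 4) =
        ((N : ℝ) * 2 ^ N) * (X ^ (ε / 4) * X ^ (ε / 4)) := by ring
    _ ≤ X ^ (ε / 2) * (X ^ (ε / 4) * X ^ (ε / 4)) := by gcongr
    _ = X ^ ε := by
        rw [← Real.rpow_add hX0, ← Real.rpow_add hX0]
        ring_nf

end Pool.Agent.Y913.Vm
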