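import Pool.Agent.Y913.Vm.Eb

/-!
Points at which the logarithmic derivatives of the ratios vanish; the induction.
-/

set_option autoImplicit false

namespace Pool.Agent.Y913.Vm

open Finset MvPolynomial Matrix Filter

/-- points at which a logarithmic derivative vanishes to finite order -/
theorem part2 {ν : Type} [Fintype ν] [DecidableEq ν] {π κ : Type} [Fintype π] [DecidableEq π]
    [Fintype κ] [DecidableEq κ] (hst : Stmt ν (Fintype.card κ + 1)) (ex : Fin 3 → ν → π)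
    (ι : κ → ν) (F : κ → Rg (π ⊕ ν)) (D : ℕ) (ε : ℝ) (hε : 0 < ε) (n0 : ℕ) :
    ∃ K : ℕ, ∃ η : ℝ, 0 < η ∧ ∀ᶠ X : ℝ in atTop, ∀ z : π → ℤ, (∀ i, |(z i : ℝ)| ≤ X ^ D) →
      ∀ e : Fin 3 → ν → ℕ, (∀ j r, z (ex j r) = e j r) → ∀ E : Finset (ν → ℤ),
      (∀ P ∈ E, Good X K η e P ∧
      (∀ a, eval (Sum.elim z P) (F a) = 0) ∧ eval (Sum.elim z P) (jd Sum.inr ι F) ≠ 0 ∧
      (∀ i, eval (Sum.elim z P) (gg ex ι F i 0) = 0) ∧
      ∃ i, ¬ Van Sum.inr ι F (Sum.elim z P) n0 (gg ex ι F i 0)) →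
      Sep e E → (E.card : ℝ) ≤ X ^ ε := by
  classical
  have hfin : {w : List ν | w.length ≤ n0}.Finite := List.finite_length_le ν _
  obtain ⟨W, hW⟩ : ∃ W : Finset (ν × List ν × ν),
    W = Finset.univ ×ˢ hfin.toFinset ×ˢ Finset.univ := ⟨_, rfl⟩
  obtain ⟨K, η, hη, hev⟩ := unif W (fun t K η X => Bd ex
    (Sum.elim ι (fun _ : Unit => t.2.2)) (Sum.elim F
      (fun _ : Unit => word Sum.inr ι F t.2.1 (gg ex ι F t.1 0))) D (ε / 2) K η X)
    (fun t K K' η η' X hX hK hη hb => hb.mono hX hK hη)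
    (fun t _ => hst π (κ ⊕ Unit) (by rw [Fintype.card_sum, Fintype.card_unit])
      _ _ _ _ _ (by positivity))
  refine ⟨K, η, hη, ?_⟩
  have hev3 : ∀ᶠ X : ℝ in atTop, (W.card : ℝ) ≤ X ^ (ε / 2) :=
    (tendsto_rpow_atTop (by positivity)).eventually_ge_atTop _
  filter_upwards [hev, hev3, eventually_ge_atTop (1 : ℝ)] with X h1 h3 hX z hz e he E hE hS
  have hX0 : 0 < X := by linarith
  have hnew : ∀ P ∈ E, ∃ t ∈ W, eval (Sum.elim z P) (word Sum.inr ι F t.2.1 (gg ex ι F t.1 0)) = 0 ∧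
      eval (Sum.elim z P) (dd Sum.inr ι F t.2.2 (word Sum.inr ι F t.2.1 (gg ex ι F t.1 0))) ≠ 0 := by
    intro P hP
    obtain ⟨-, hF, hJ, hg, i, hi⟩ := hE P hP
    obtain ⟨w, i', hw, h4, h5⟩ := first_word _ ι F _ _ n0 (hg i) hi
    refine ⟨(i, w, i'), ?_, h4, h5⟩
    rw [hW, Finset.mem_product, Finset.mem_product]
    refine ⟨Finset.mem_univ _, ?_, Finset.mem_univ _⟩
    rw [Set.Finite.mem_toFinset]
    exact hw
  rcases Finset.eq_empty_or_nonempty E with hE0 | ⟨P0, hP0⟩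
  · rw [hE0]
    simp only [Finset.card_empty, Nat.cast_zero]
    positivity
  have hne : Nonempty (ν × List ν × ν) := ⟨(hnew P0 hP0).choose⟩
  choose! f hf1 hf2 hf3 using hnew
  have h4 := fiber_bound E f W hf1 (X ^ (ε / 2)) (by
    intro t ht
    refine h1 t ht z hz e he _ ?_ (hS.sub (Finset.filter_subset _ _))
    intro P hP
    rw [Finset.mem_filter] at hP
    obtain ⟨hP, hft⟩ := hP
    obtain ⟨hg, hF, hJ, -⟩ := hE P hP
    refine ⟨hg, ?_, ?_⟩
    · rintro (a | a)
      · exact hF a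
      · have := hf2 P hP
        rw [hft] at this
        exact this
    · have := hf3 P hP
      rw [hft] at this
      rw [jd_snoc _ _ _ _ _ _ hJ]
      exact this)
  calc (E.card : ℝ) ≤ W.card * X ^ (ε / 2) := h4
    _ ≤ X ^ (ε / 2) * X ^ (ε / 2) := by gcongr
    _ = X ^ ε := by
        rw [← Real.rpow_add hX0]
        ring_nf

/-- points at which the logarithmic derivatives vanish to all orders -/
theorem part3 {ν : Type} [Fintype ν] [DecidableEq ν] {π κ : Type} [Fintype π] [DecidableEq π]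
    [Fintype κ] [DecidableEq κ] (ex : Fin 3 → ν → π)
    (ι : κ → ν) (hι : Function.Injective ι) (F : κ → Rg (π ⊕ ν)) (D : ℕ) (ε : ℝ) (hε : 0 < ε) :
    ∃ K : ℕ, ∃ η : ℝ, 0 < η ∧ ∀ᶠ X : ℝ in atTop, ∀ z : π → ℤ, (∀ i, |(z i : ℝ)| ≤ X ^ D) →
      ∀ e : Fin 3 → ν → ℕ, (∀ j r, z (ex j r) = e j r) → ∀ E : Finset (ν → ℤ),
      (∀ P ∈ E, Good X K η e P ∧
      (∀ a, eval (Sum.elim z P) (F a) = 0) ∧ eval (Sum.elim z P) (jd Sum.inr ι F) ≠ 0 ∧
      ∀ i n, Van Sum.inr ι F (Sum.elim z P) n (gg ex ι F i 0)) →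
      Sep e E → (E.card : ℝ) ≤ X ^ ε := by
  classical
  obtain ⟨N, hN⟩ : ∃ N, Fintype.card ν = N := ⟨_, rfl⟩
  obtain ⟨ε2, hε2⟩ : ∃ ε2 : ℝ, ε2 = ε / (2 * (N + 1)) := ⟨_, rfl⟩
  have hε2pos : 0 < ε2 := by rw [hε2]; positivity
  have hε2N : ε2 * (N + 1) = ε / 2 := by
    rw [hε2]
    field_simp
  obtain ⟨D', hsz⟩ := size' (jd Sum.inr ι F) D
  refine ⟨0, ε2 / 4, by positivity, ?_⟩
  have hev2 := ev_size D' (by positivity : 0 < ε2 / 2)
  have hev3 : ∀ᶠ X : ℝ in atTop, (1000000 : ℝ) ≤ X ^ ε2 :=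
    (tendsto_rpow_atTop hε2pos).eventually_ge_atTop _
  have hev4 : ∀ᶠ X : ℝ in atTop, (2 : ℝ) ^ N ≤ X ^ (ε / 2) :=
    (tendsto_rpow_atTop (by positivity)).eventually_ge_atTop _
  have hev5 : ∀ᶠ X : ℝ in atTop, (2 : ℝ) ≤ X ^ (ε2 / 4) :=
    (tendsto_rpow_atTop (by positivity)).eventually_ge_atTop _
  filter_upwards [hev2, hev3, hev4, hev5, eventually_gt_atTop (2 : ℝ)] with X h2 h3 h4 h5 hX z hz e
    he E hE hS
  have hX0 : 0 < X := by linarith
  have hX1 : 1 ≤ X := by linarith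
  obtain ⟨L, hL1, hL2, hL3⟩ := prime_set h3
  have hsq : Real.sqrt (X ^ ε2) = X ^ (ε2 / 2) := by
    rw [Real.sqrt_eq_rpow, ← Real.rpow_mul hX0.le]
    ring_nf
  have hch : ∀ P ∈ E, ∃ l ∈ L, ¬ (l : ℤ) ∣ eval (Sum.elim z P) (jd Sum.inr ι F) := by
    intro P hP
    obtain ⟨⟨hg1, hg2, hg3, hg4, hg5⟩, hF, hJ, -⟩ := hE P hP
    apply good_prime h3 hL1 hL2 hJ
    rw [hsq]
    refine (hsz X hX.le z P hz hg1).trans_lt ?_
    rw [← Real.exp_log (by positivity : 0 < X ^ D')]
    apply Real.exp_lt_exp.mpr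
    rw [Real.log_pow]
    have : 0 < X ^ (ε2 / 2 / 2) := by positivity
    linarith
  choose! lam hlam hdv using hch
  have h6 := classes ({()} : Finset Unit) L (X ^ ε2) (fun l hl => ⟨(hL1 l hl).1.pos,
    (hL1 l hl).2.2⟩) (by linarith) hL3 E (fun _ => ()) lam (fun P _ => Finset.mem_singleton_self _)
    hlam 1 zero_le_one (by
      intro t _ l hl E' hE' htl hcl
      have h7 : E'.card ≤ 1 := by
        rw [Finset.card_le_one]
        intro P hP P' hP'
        obtain ⟨⟨hg1, hg2, hg3, hg4, hg5⟩, hF, hJ, hv⟩ := hE P (hE' hP)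
        obtain ⟨⟨hg1', hg2', hg3', hg4', hg5'⟩, hF', hJ', hv'⟩ := hE P' (hE' hP')
        have hpl := hL1 l hl
        have hdvP := hdv P (hE' hP)
        rw [(htl P hP).2] at hdvP
        have hvr := van_ratio (σ := π ⊕ ν) (u := Sum.inr) (ι := ι) (F := F)
          (p := Sum.elim z P) Sum.inr_injective (e 0) (e 2)
          (fun r => Sum.inl (ex 0 r)) (fun r => Sum.inl (ex 2 r)) (fun r r' => by simp)
          (fun r r' => by simp) (fun r => he 0 r) (fun r => he 2 r)
          (fun r => by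
            show P r ≠ 0
            have := (hg1 r).1
            omega) hv
        have hfl := flow (Sum.inr : ν → π ⊕ ν) Sum.inr_injective ι hι F (Sum.elim z P)
          (Sum.elim z P') hpl.1 hF hF' (by
            rintro (j | r)
            · simp
            · exact hcl P hP P' hP' r) (by
            rintro (j | r) hj
            · rfl
            · exact absurd rfl (hj r)) hdvP _ (fun w => hvr w.length w le_rfl) l le_rfl
        rw [map_sub, map_mul, map_mul, eval_C, eval_C, eval_mn, eval_mn, eval_mn, eval_mn] at hfl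
        apply hS P (hE' hP) P' (hE' hP')
        by_contra hne
        have hne' : vl P (e 2) * vl P' (e 0) - vl P (e 0) * vl P' (e 2) ≠ 0 := by
          intro h
          apply hne
          linarith
        have h8 := Int.le_of_dvd (abs_pos.mpr hne') ((dvd_abs _ _).mpr hfl)
        have hA := vl_pos (fun r => (hg1 r).1) (e 0)
        have hB := vl_pos (fun r => (hg1 r).1) (e 1)
        have hC := vl_pos (fun r => (hg1 r).1) (e 2)
        have hA' := vl_pos (fun r => (hg1' r).1) (e 0)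
        have hB' := vl_pos (fun r => (hg1' r).1) (e 1)
        have hC' := vl_pos (fun r => (hg1' r).1) (e 2)
        have h9 : |vl P (e 2) * vl P' (e 0) - vl P (e 0) * vl P' (e 2)| ≤
            vl P (e 2) * vl P' (e 2) := by
          rw [abs_le]
          constructor
          · nlinarith
          · nlinarith
        have h10 : (l : ℝ) ^ l ≤ (vl P (e 2) : ℝ) * (vl P' (e 2) : ℝ) := by
          exact_mod_cast h8.trans h9
        have hc1 : (0 : ℝ) < (vl P (e 2) : ℝ) := by exact_mod_cast (by omega : 0 < vl P (e 2))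
        have hc2 : (0 : ℝ) < (vl P' (e 2) : ℝ) := by exact_mod_cast (by omega : 0 < vl P' (e 2))
        have h11 : (vl P (e 2) : ℝ) * (vl P' (e 2) : ℝ) ≤ Real.exp (X ^ (ε2 / 2)) := by
          rw [← Real.exp_log (mul_pos hc1 hc2), Real.log_mul hc1.ne' hc2.ne']
          apply Real.exp_le_exp.mpr
          have h12 : X ^ (ε2 / 2) = X ^ (ε2 / 4) * X ^ (ε2 / 4) := by
            rw [← Real.rpow_add hX0]
            ring_nf
          rw [h12]
          nlinarith
        have h13 : Real.exp (X ^ (ε2 / 2)) < (l : ℝ) ^ l := by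
          have h14 := hpl.2.1
          rw [hsq] at h14
          have h15 : (1000 : ℝ) ≤ Real.sqrt (X ^ ε2) := by
            apply Real.le_sqrt_of_sq_le
            linarith
          rw [hsq] at h15
          calc Real.exp (X ^ (ε2 / 2)) < Real.exp (l : ℝ) := Real.exp_lt_exp.mpr h14
            _ = (Real.exp 1) ^ l := by rw [← Real.exp_nat_mul, mul_one]
            _ ≤ (l : ℝ) ^ l := by
                apply pow_le_pow_left₀ (by positivity)
                have := Real.exp_one_lt_d9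
                linarith
        linarith
      exact_mod_cast h7)
  rw [Finset.card_singleton, hN] at h6
  refine h6.trans ?_
  have h7 : X ^ ε2 * (2 * X ^ ε2) ^ N = 2 ^ N * X ^ (ε / 2) := by
    have : X ^ (ε / 2) = (X ^ ε2) ^ (N + 1) := by
      rw [← hε2N, Real.rpow_mul hX0.le, ← Real.rpow_natCast]
      push_cast
      rfl
    rw [this, mul_pow]
    ring
  rw [h7]
  calc ((1 : ℕ) : ℝ) * (2 ^ N * X ^ (ε / 2)) * 1 = 2 ^ N * X ^ (ε / 2) := by
        push_cast
        ring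
    _ ≤ X ^ (ε / 2) * X ^ (ε / 2) := by gcongr
    _ = X ^ ε := by
        rw [← Real.rpow_add hX0]
        ring_nf

/-- **the induction step** -/
theorem step {ν : Type} [Fintype ν] [DecidableEq ν] {s : ℕ} (hst : Stmt ν (s + 1)) :
    Stmt ν s := by
  classical
  intro π κ _ _ _ _ hs ex ι F D ε hε
  by_cases hι : Function.Injective ι
  swap
  · refine ⟨0, 1, one_pos, ?_⟩
    filter_upwards [eventually_ge_atTop (1 : ℝ)] with X hX z hz e he E hE hS
    have hE0 : E = ∅ := by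
      apply Finset.eq_empty_of_forall_notMem
      intro P hP
      apply (hE P hP).2.2
      rw [jd_eq_zero _ _ _ hι, map_zero]
    rw [hE0]
    simp only [Finset.card_empty, Nat.cast_zero]
    positivity
  subst hs
  -- a uniform order of vanishing
  have hn0 : ∃ n0 : ℕ, ∀ (i : ν) (p : π ⊕ ν → ℤ), Van Sum.inr ι F p n0 (gg ex ι F i 0) →
      ∀ n, Van Sum.inr ι F p n (gg ex ι F i 0) := by
    choose n1 hn1 using fun i : ν => noeth (Sum.inr : ν → π ⊕ ν) ι F (gg ex ι F i 0)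
    refine ⟨Finset.univ.sup n1, ?_⟩
    intro i p hp n
    apply hn1 i p
    intro w hw
    exact hp w (hw.trans (Finset.le_sup (Finset.mem_univ i)))
  obtain ⟨n0, hn0⟩ := hn0
  obtain ⟨K1, η1, hη1, h1⟩ := part1 hst ex ι hι F D (ε / 2) (by positivity)
  obtain ⟨K2, η2, hη2, h2⟩ := part2 hst ex ι F D (ε / 2) (by positivity) n0
  obtain ⟨K3, η3, hη3, h3⟩ := part3 ex ι hι F D (ε / 2) (by positivity)
  refine ⟨max K1 (max K2 K3), min η1 (min η2 η3), lt_min hη1 (lt_min hη2 hη3), ?_⟩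
  have hev3 : ∀ᶠ X : ℝ in atTop, (3 : ℝ) ≤ X ^ (ε / 2) :=
    (tendsto_rpow_atTop (by positivity)).eventually_ge_atTop _
  filter_upwards [h1, h2, h3, hev3, eventually_ge_atTop (1 : ℝ)] with X h1 h2 h3 h4 hX z hz e he
    E hE hS
  have hX0 : 0 < X := by linarith
  obtain ⟨E1, hE1⟩ : ∃ E1, E1 = E.filter (fun P => ∃ i,
    eval (Sum.elim z P) (gg ex ι F i 0) ≠ 0 ∨ eval (Sum.elim z P) (gg ex ι F i 1) ≠ 0) := ⟨_, rfl⟩
  obtain ⟨E2, hE2⟩ : ∃ E2, E2 = E.filter (fun P => (∀ i,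
    eval (Sum.elim z P) (gg ex ι F i 0) = 0) ∧
    ∃ i, ¬ Van Sum.inr ι F (Sum.elim z P) n0 (gg ex ι F i 0)) := ⟨_, rfl⟩
  obtain ⟨E3, hE3⟩ : ∃ E3, E3 = E.filter (fun P =>
    ∀ i n, Van Sum.inr ι F (Sum.elim z P) n (gg ex ι F i 0)) := ⟨_, rfl⟩
  have hcov : E ⊆ E1 ∪ (E2 ∪ E3) := by
    intro P hP
    rw [Finset.mem_union, Finset.mem_union, hE1, hE2, hE3, Finset.mem_filter, Finset.mem_filter,
      Finset.mem_filter]
    by_cases h5 : ∃ i, eval (Sum.elim z P) (gg ex ι F i 0) ≠ 0 ∨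
      eval (Sum.elim z P) (gg ex ι F i 1) ≠ 0
    · exact Or.inl ⟨hP, h5⟩
    · push Not at h5
      by_cases h6 : ∃ i, ¬ Van Sum.inr ι F (Sum.elim z P) n0 (gg ex ι F i 0)
      · exact Or.inr (Or.inl ⟨hP, fun i => (h5 i).1, h6⟩)
      · push Not at h6
        exact Or.inr (Or.inr ⟨hP, fun i n => hn0 i _ (h6 i) n⟩)
  have c1 : (E1.card : ℝ) ≤ X ^ (ε / 2) := by
    refine h1 z hz e he E1 ?_ (hS.sub (by rw [hE1]; exact Finset.filter_subset _ _))
    intro P hP
    rw [hE1, Finset.mem_filter] at hP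
    obtain ⟨hP, h5⟩ := hP
    obtain ⟨hg, hF, hJ⟩ := hE P hP
    exact ⟨hg.mono hX (le_max_left _ _) (min_le_left _ _), hF, hJ, h5⟩
  have c2 : (E2.card : ℝ) ≤ X ^ (ε / 2) := by
    refine h2 z hz e he E2 ?_ (hS.sub (by rw [hE2]; exact Finset.filter_subset _ _))
    intro P hP
    rw [hE2, Finset.mem_filter] at hP
    obtain ⟨hP, h5, h6⟩ := hP
    obtain ⟨hg, hF, hJ⟩ := hE P hP
    exact ⟨hg.mono hX ((le_max_left _ _).trans (le_max_right _ _))
      ((min_le_right _ _).trans (min_le_left _ _)), hF, hJ, h5, h6⟩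
  have c3 : (E3.card : ℝ) ≤ X ^ (ε / 2) := by
    refine h3 z hz e he E3 ?_ (hS.sub (by rw [hE3]; exact Finset.filter_subset _ _))
    intro P hP
    rw [hE3, Finset.mem_filter] at hP
    obtain ⟨hP, h5⟩ := hP
    obtain ⟨hg, hF, hJ⟩ := hE P hP
    exact ⟨hg.mono hX ((le_max_right _ _).trans (le_max_right _ _))
      ((min_le_right _ _).trans (min_le_right _ _)), hF, hJ, h5⟩
  have c4 : (E.card : ℝ) ≤ E1.card + (E2.card + E3.card) := by
    have h5 := (Finset.card_le_card hcov).trans (Finset.card_union_le _ _)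
    have h6 := Finset.card_union_le E2 E3
    exact_mod_cast h5.trans (by omega)
  calc (E.card : ℝ) ≤ 3 * X ^ (ε / 2) := by linarith
    _ ≤ X ^ (ε / 2) * X ^ (ε / 2) := by gcongr
    _ = X ^ ε := by
        rw [← Real.rpow_add hX0]
        ring_nf

/-- the statement for more equations than variables -/
theorem base {ν : Type} [Fintype ν] [DecidableEq ν] {s : ℕ} (hs : Fintype.card ν < s) :
    Stmt ν s := by
  intro π κ _ _ _ _ hκ ex ι F D ε hε
  refine ⟨0, 1, one_pos, ?_⟩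
  filter_upwards [eventually_ge_atTop (1 : ℝ)] with X hX z hz e he E hE hS
  have hι : ¬ Function.Injective ι := by
    intro h
    have := Fintype.card_le_of_injective ι h
    omega
  have hE0 : E = ∅ := by
    apply Finset.eq_empty_of_forall_notMem
    intro P hP
    apply (hE P hP).2.2
    rw [jd_eq_zero _ _ _ hι, map_zero]
  rw [hE0]
  simp only [Finset.card_empty, Nat.cast_zero]
  positivity

/-- **the statement holds for all numbers of equations** -/
theorem stmt_all (ν : Type) [Fintype ν] [DecidableEq ν] : ∀ s : ℕ, Stmt ν s := by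
  have h : ∀ t s : ℕ, Fintype.card ν < s + t → Stmt ν s := by
    intro t
    induction t with
    | zero => intro s hs; exact base (by omega)
    | succ t ih => intro s hs; exact step (ih (s + 1) (by omega))
  intro s
  exact h (Fintype.card ν + 1) s (by omega)

/-- **the count for given exponents** -/
theorem count_fixed (ν : Type) [Fintype ν] [DecidableEq ν] (ε : ℝ) (hε : 0 < ε) :
    ∃ K : ℕ, ∃ η : ℝ, 0 < η ∧ ∀ᶠ X : ℝ in atTop, ∀ e : Fin 3 → ν → ℕ,
      (∀ j r, (e j r : ℝ) ≤ X) → ∀ E : Finset (ν → ℤ), (∀ P ∈ E, Good X K η e P) → Sep e E →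
      (E.card : ℝ) ≤ X ^ ε := by
  classical
  obtain ⟨K, η, hη, h⟩ := stmt_all ν 0 (Fin 3 × ν) Empty (by simp) (fun j r => (j, r))
    Empty.elim Empty.elim 1 ε hε
  refine ⟨K, η, hη, ?_⟩
  filter_upwards [h, eventually_ge_atTop (1 : ℝ)] with X h hX e he E hE hS
  refine h (fun t => (e t.1 t.2 : ℤ)) ?_ e (fun j r => rfl) E ?_ hS
  · rintro ⟨j, r⟩
    have h1 : (0 : ℝ) ≤ (e j r : ℝ) := by positivity
    simp only [Int.cast_natCast, abs_of_nonneg h1, pow_one]
    exact he j r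
  · intro P hP
    refine ⟨hE P hP, fun a => a.elim, ?_⟩
    unfold jd
    rw [Matrix.det_isEmpty, map_one]
    exact one_ne_zero

end Pool.Agent.Y913.Vm
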