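import Pool.Agent.Y913.Vm.Alg

/-!
Filtered rings and the first order Taylor formula.
-/

set_option autoImplicit false

namespace Pool.Agent.Y913.Vm

open Finset MvPolynomial Matrix

/-- evaluation of integer polynomials in a commutative ring -/
noncomputable def ev {σ A : Type} [CommRing A] (x : σ → A) : Rg σ →+* A :=
  eval₂Hom (Int.castRingHom A) x

lemma ev_C {σ A : Type} [CommRing A] (x : σ → A) (a : ℤ) : ev x (C a) = (a : A) := by
  unfold ev
  rw [eval₂Hom_C]
  rfl

lemma ev_X {σ A : Type} [CommRing A] (x : σ → A) (i : σ) : ev x (X i) = x i := by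
  unfold ev
  rw [eval₂Hom_X']

lemma ev_int {σ : Type} (x : σ → ℤ) (G : Rg σ) : ev x G = eval x G := by
  unfold ev
  have : (Int.castRingHom ℤ) = RingHom.id ℤ := RingHom.ext_int _ _
  rw [this]
  rfl

/-- a ring filtration -/
structure FR (A : Type) [CommRing A] where
  W : ℕ → AddSubgroup A
  top : ∀ a, a ∈ W 0
  mul : ∀ s t a b, a ∈ W s → b ∈ W t → a * b ∈ W (s + t)
  mono : ∀ s t a, s ≤ t → a ∈ W t → a ∈ W s

section

variable {A : Type} [CommRing A] (W : FR A)

lemma FR.mul_left (s : ℕ) (a b : A) (h : b ∈ W.W s) : a * b ∈ W.W s := by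
  have := W.mul 0 s a b (W.top a) h
  rwa [zero_add] at this

lemma FR.mul_right (s : ℕ) (a b : A) (h : a ∈ W.W s) : a * b ∈ W.W s := by
  rw [mul_comm]
  exact W.mul_left s b a h

/-- zeroth order -/
lemma taylor0 {σ : Type} (s : ℕ) (x p : σ → A) (hx : ∀ i, x i - p i ∈ W.W s) (G : Rg σ) :
    ev x G - ev p G ∈ W.W s := by
  induction G using MvPolynomial.induction_on with
  | C a =>
    rw [ev_C, ev_C, sub_self]
    exact (W.W s).zero_mem
  | add G H hG hH =>
    rw [map_add, map_add]
    have : ev x G + ev x H - (ev p G + ev p H) =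
        (ev x G - ev p G) + (ev x H - ev p H) := by ring
    rw [this]
    exact (W.W s).add_mem hG hH
  | mul_X G n hG =>
    rw [map_mul, map_mul, ev_X, ev_X]
    have : ev x G * x n - ev p G * p n =
        (ev x G - ev p G) * x n + ev p G * (x n - p n) := by ring
    rw [this]
    exact (W.W s).add_mem (W.mul_right s _ _ hG) (W.mul_left s _ _ (hx n))

/-- first order -/
lemma taylor1 {σ : Type} [Fintype σ] (j : ℕ) (x y p : σ → A) (hxy : ∀ i, x i - y i ∈ W.W j)
    (hx : ∀ i, x i - p i ∈ W.W 1) (hy : ∀ i, y i - p i ∈ W.W 1) (G : Rg σ) :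
    ev x G - ev y G - ∑ i, ev p (pderiv i G) * (x i - y i) ∈ W.W (j + 1) := by
  classical
  induction G using MvPolynomial.induction_on with
  | C a =>
    simp only [ev_C, sub_self, pderiv_C, map_zero, zero_mul,
      Finset.sum_const_zero]
    exact (W.W (j + 1)).zero_mem
  | add G H hG hH =>
    simp only [map_add, add_mul, Finset.sum_add_distrib]
    have : ev x G + ev x H - (ev y G + ev y H) -
        (∑ i, ev p (pderiv i G) * (x i - y i) + ∑ i, ev p (pderiv i H) * (x i - y i)) =
        (ev x G - ev y G - ∑ i, ev p (pderiv i G) * (x i - y i)) +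
        (ev x H - ev y H - ∑ i, ev p (pderiv i H) * (x i - y i)) := by ring
    rw [this]
    exact (W.W (j + 1)).add_mem hG hH
  | mul_X G n hG =>
    have hsum : ∑ i, ev p (pderiv i (G * X n)) * (x i - y i) =
        (∑ i, ev p (pderiv i G) * (x i - y i)) * p n + ev p G * (x n - y n) := by
      rw [Finset.sum_mul]
      have h1 : ∀ i, ev p (pderiv i (G * X n)) * (x i - y i) =
          ev p (pderiv i G) * (x i - y i) * p n +
            (if i = n then ev p G * (x i - y i) else 0) := by
        intro i
        rw [Derivation.leibniz, smul_eq_mul, smul_eq_mul, map_add, map_mul, map_mul, ev_X]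
        rcases eq_or_ne i n with rfl | hne
        · rw [pderiv_X_self, map_one, if_pos rfl]
          ring
        · rw [pderiv_X_of_ne hne.symm, map_zero, if_neg hne]
          ring
      rw [Finset.sum_congr rfl (fun i _ => h1 i), Finset.sum_add_distrib]
      congr 1
      rw [Finset.sum_ite_eq']
      simp
    rw [hsum, map_mul, map_mul, ev_X, ev_X]
    have hid : ev x G * x n - ev y G * y n -
        ((∑ i, ev p (pderiv i G) * (x i - y i)) * p n + ev p G * (x n - y n)) =
        (ev x G - ev y G - ∑ i, ev p (pderiv i G) * (x i - y i)) * x n +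
        (∑ i, ev p (pderiv i G) * (x i - y i)) * (x n - p n) +
        (ev y G - ev p G) * (x n - y n) := by ring
    rw [hid]
    have h2 : (∑ i, ev p (pderiv i G) * (x i - y i)) ∈ W.W j :=
      sum_mem (fun i _ => W.mul_left j _ _ (hxy i))
    refine (W.W (j + 1)).add_mem ((W.W (j + 1)).add_mem (W.mul_right _ _ _ hG)
      (W.mul j 1 _ _ h2 (hx n))) ?_
    rw [add_comm j 1]
    exact W.mul 1 j _ _ (taylor0 W 1 y p hy G) (hxy n)

end

/-- the `l`-adic filtration of the integers -/
def zf (l : ℤ) : FR ℤ where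
  W s := (Ideal.span {l ^ s}).toAddSubgroup
  top a := by
    show a ∈ Ideal.span {l ^ 0}
    rw [Ideal.mem_span_singleton, pow_zero]
    exact one_dvd a
  mul s t a b ha hb := by
    have ha' : l ^ s ∣ a := Ideal.mem_span_singleton.mp ha
    have hb' : l ^ t ∣ b := Ideal.mem_span_singleton.mp hb
    show a * b ∈ Ideal.span {l ^ (s + t)}
    rw [Ideal.mem_span_singleton, pow_add]
    exact mul_dvd_mul ha' hb'
  mono s t a hst ha := by
    have ha' : l ^ t ∣ a := Ideal.mem_span_singleton.mp ha
    show a ∈ Ideal.span {l ^ s}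
    rw [Ideal.mem_span_singleton]
    exact (pow_dvd_pow l hst).trans ha'

lemma mem_zf {l : ℤ} {s : ℕ} {a : ℤ} : a ∈ (zf l).W s ↔ l ^ s ∣ a :=
  Ideal.mem_span_singleton

/-- the filtration of `ℤ[τ]` by the powers of `(l, τ)` -/
def pf (l : ℤ) : FR (Polynomial ℤ) where
  W s :=
    { carrier := {p | ∀ i, l ^ (s - i) ∣ p.coeff i}
      add_mem' := by
        intro a b ha hb i
        rw [Polynomial.coeff_add]
        exact dvd_add (ha i) (hb i)
      zero_mem' := by
        intro i
        rw [Polynomial.coeff_zero]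
        exact dvd_zero _
      neg_mem' := by
        intro a ha i
        rw [Polynomial.coeff_neg]
        exact (dvd_neg).mpr (ha i) }
  top a := by
    intro i
    rw [Nat.zero_sub, pow_zero]
    exact one_dvd _
  mul s t a b ha hb := by
    intro n
    rw [Polynomial.coeff_mul]
    apply Finset.dvd_sum
    rintro ⟨i, j⟩ hij
    rw [Finset.HasAntidiagonal.mem_antidiagonal] at hij
    simp only at hij
    refine (pow_dvd_pow l (by omega : s + t - n ≤ (s - i) + (t - j))).trans ?_
    rw [pow_add]
    exact mul_dvd_mul (ha i) (hb j)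
  mono s t a hst ha := by
    intro i
    exact (pow_dvd_pow l (by omega)).trans (ha i)

lemma mem_pf {l : ℤ} {s : ℕ} {p : Polynomial ℤ} :
    p ∈ (pf l).W s ↔ ∀ i, l ^ (s - i) ∣ p.coeff i := Iff.rfl

lemma pf_C {l : ℤ} {s : ℕ} {a : ℤ} (h : l ^ s ∣ a) : Polynomial.C a ∈ (pf l).W s := by
  rw [mem_pf]
  intro i
  rw [Polynomial.coeff_C]
  split_ifs with h1
  · subst h1
    rwa [Nat.sub_zero]
  · exact dvd_zero _

lemma pf_X_mul {l : ℤ} (p : Polynomial ℤ) : p * Polynomial.X ∈ (pf l).W 1 := by
  rw [mem_pf]
  intro i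
  rcases i with _ | i
  · rw [Polynomial.coeff_mul_X_zero]
    exact dvd_zero _
  · rw [show 1 - (i + 1) = 0 by omega, pow_zero]
    exact one_dvd _

lemma pf_eval {l : ℤ} {s : ℕ} {p : Polynomial ℤ} (h : p ∈ (pf l).W s) : l ^ s ∣ p.eval l := by
  rw [Polynomial.eval_eq_sum_range]
  apply Finset.dvd_sum
  intro i _
  refine (pow_dvd_pow l (by omega : s ≤ (s - i) + i)).trans ?_
  rw [pow_add]
  exact mul_dvd_mul (h i) dvd_rfl

lemma pf_deriv {l : ℤ} {s : ℕ} {p : Polynomial ℤ} (h : p ∈ (pf l).W (s + 1)) :
    Polynomial.derivative p ∈ (pf l).W s := by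
  rw [mem_pf]
  intro i
  rw [Polynomial.coeff_derivative]
  have h1 := h (i + 1)
  rw [show s + 1 - (i + 1) = s - i by omega] at h1
  exact h1.mul_right _

lemma pf_integ {l : ℕ} (hl : l.Prime) {s : ℕ} (hs : s + 1 ≤ l) {p : Polynomial ℤ}
    (h0 : p.coeff 0 = 0) (h : Polynomial.derivative p ∈ (pf (l : ℤ)).W s) :
    p ∈ (pf (l : ℤ)).W (s + 1) := by
  rw [mem_pf]
  intro i
  rcases i with _ | i
  · rw [h0]
    exact dvd_zero _
  · rcases lt_or_ge (i + 1) l with hi | hi
    · have h1 := h i
      rw [Polynomial.coeff_derivative] at h1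
      rw [show s + 1 - (i + 1) = s - i by omega]
      have h2 : IsCoprime ((l : ℤ) ^ (s - i)) ((i : ℤ) + 1) := by
        apply IsCoprime.pow_left
        have h3 : Nat.Coprime l (i + 1) := by
          rw [Nat.Prime.coprime_iff_not_dvd hl]
          intro h4
          exact absurd (Nat.le_of_dvd (by omega) h4) (by omega)
        have h5 := Nat.isCoprime_iff_coprime.mpr h3
        push_cast at h5
        exact h5
      exact h2.dvd_of_dvd_mul_right h1
    · rw [show s + 1 - (i + 1) = 0 by omega, pow_zero]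
      exact one_dvd _

/-- chain rule -/
lemma chain {σ : Type} [Fintype σ] (y : σ → Polynomial ℤ) (G : Rg σ) :
    Polynomial.derivative (ev y G) =
      ∑ i, ev y (pderiv i G) * Polynomial.derivative (y i) := by
  classical
  induction G using MvPolynomial.induction_on with
  | C a =>
    rw [ev_C]
    simp
  | add G H hG hH =>
    simp only [map_add, add_mul, Finset.sum_add_distrib]
    rw [hG, hH]
  | mul_X G n hG =>
    rw [map_mul, ev_X, Polynomial.derivative_mul, hG]
    have h1 : ∀ i, ev y (pderiv i (G * X n)) * Polynomial.derivative (y i) =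
        ev y (pderiv i G) * Polynomial.derivative (y i) * y n +
          (if i = n then ev y G * Polynomial.derivative (y i) else 0) := by
      intro i
      rw [Derivation.leibniz, smul_eq_mul, smul_eq_mul, map_add, map_mul, map_mul, ev_X]
      rcases eq_or_ne i n with rfl | hne
      · rw [pderiv_X_self, map_one, if_pos rfl]
        ring
      · rw [pderiv_X_of_ne hne.symm, map_zero, if_neg hne]
        ring
    rw [Finset.sum_congr rfl (fun i _ => h1 i), Finset.sum_add_distrib, Finset.sum_mul,
      Finset.sum_ite_eq']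
    simp

/-- division by a unit modulo `l` -/
lemma pf_unit {l : ℤ} {c e : ℤ} (hce : l ∣ 1 - e * c) {g : Polynomial ℤ}
    (hg : g - Polynomial.C c ∈ (pf l).W 1) {s : ℕ} {h : Polynomial ℤ}
    (hgh : g * h ∈ (pf l).W s) : h ∈ (pf l).W s := by
  have h1 : 1 - Polynomial.C e * g ∈ (pf l).W 1 := by
    have h2 : 1 - Polynomial.C e * g = Polynomial.C (1 - e * c) -
        Polynomial.C e * (g - Polynomial.C c) := by
      rw [Polynomial.C_sub, Polynomial.C_mul, Polynomial.C_1]
      ring
    rw [h2]
    exact ((pf l).W 1).sub_mem (pf_C (by rwa [pow_one])) ((pf l).mul_left 1 _ _ hg)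
  have h3 : ∀ t ≤ s, h ∈ (pf l).W t := by
    intro t
    induction t with
    | zero => intro _; exact (pf l).top h
    | succ t ih =>
      intro ht
      have h4 := ih (by omega)
      have h5 : h = Polynomial.C e * (g * h) + (1 - Polynomial.C e * g) * h := by ring
      rw [h5]
      refine ((pf l).W (t + 1)).add_mem ((pf l).mono (t + 1) s _ ht
        ((pf l).mul_left s _ _ hgh)) ?_
      rw [add_comm t 1]
      exact (pf l).mul 1 t _ _ h1 h4
  exact h3 s le_rfl

end Pool.Agent.Y913.Vm
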