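import Pool.Agent.Y913.Vm.Ec
import Pool.Agent.Y913.Nb.Ops

/-!
The count of abc triples all of whose members are products of powers of few integers, heights up to
the exponential of a small power.
-/

set_option autoImplicit false

namespace Pool.Agent.Y913.Vm

open Finset Filter Pool.Agent.Y913 Pool.Agent.Y913.Nb

/-- the triples counted -/
def Low (n : ℕ) (K η Y : ℝ) (q : ℕ × ℕ) : Prop :=
  0 < q.1 ∧ 0 < q.2 ∧ Nat.Coprime q.1 q.2 ∧ NB n Y q.1 ∧ NB n Y q.2 ∧ NB n Y (q.1 + q.2) ∧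
    Y ^ K ≤ ((q.1 + q.2 : ℕ) : ℝ) ∧ Real.log ((q.1 + q.2 : ℕ) : ℝ) ≤ Y ^ η

/-- representations with bounded exponents -/
lemma nb_small {n m : ℕ} {Y B : ℝ} (h : NB n Y m) (hB : Real.log m ≤ B) :
    ∃ x a : Fin n → ℕ, (∀ i, 0 < x i ∧ (x i : ℝ) ≤ Y) ∧ m = ∏ i, x i ^ a i ∧
      ∀ i, (a i : ℝ) ≤ 2 * B := by
  classical
  obtain ⟨x, a, hx, hm⟩ := h
  refine ⟨x, fun i => if x i = 1 then 0 else a i, hx, ?_, ?_⟩
  · rw [hm]
    apply Finset.prod_congr rfl
    intro i _
    beta_reduce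
    split_ifs with h1
    · rw [h1]
      simp
    · rfl
  · intro i
    have hm1 : 1 ≤ m := by
      rw [hm]
      exact Nat.one_le_iff_ne_zero.mpr (Finset.prod_ne_zero_iff.mpr (fun j _ =>
        pow_ne_zero _ (hx j).1.ne'))
    have hB0 : 0 ≤ B := (Real.log_nonneg (by exact_mod_cast hm1)).trans hB
    beta_reduce
    split_ifs with h1
    · push_cast
      linarith
    · have h2 : 2 ≤ x i := by have := (hx i).1; omega
      have h3 : x i ^ a i ∣ m := by
        rw [hm]
        exact Finset.dvd_prod_of_mem (fun j => x j ^ a j) (Finset.mem_univ i)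
      have h4 : 2 ^ a i ≤ m :=
        (Nat.pow_le_pow_left h2 _).trans (Nat.le_of_dvd (by omega) h3)
      have h5 : (a i : ℝ) * Real.log 2 ≤ Real.log m := by
        rw [← Real.log_pow]
        apply Real.log_le_log (by positivity)
        exact_mod_cast h4
      have h6 : (0.6931471803 : ℝ) < Real.log 2 := Real.log_two_gt_d9
      have h7 : (0 : ℝ) ≤ (a i : ℝ) := Nat.cast_nonneg _
      nlinarith

lemma vl_cast {n : ℕ} (x : Fin 3 → Fin n → ℕ) (a : Fin 3 → Fin n → ℕ) (j : Fin 3) :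
    vl (fun t : Fin 3 × Fin n => (x t.1 t.2 : ℤ)) (fun t => if t.1 = j then a j t.2 else 0) =
      ((∏ i, x j i ^ a j i : ℕ) : ℤ) := by
  unfold vl
  rw [Fintype.prod_prod_type]
  rw [Finset.prod_eq_single j]
  · push_cast
    apply Finset.prod_congr rfl
    intro i _
    simp
  · intro j' _ hj'
    apply Finset.prod_eq_one
    intro i _
    simp [hj']
  · intro h
    exact absurd (Finset.mem_univ _) h

theorem low_count (n : ℕ) (ε : ℝ) (hε : 0 < ε) : ∃ K C η : ℝ, 0 < K ∧ 0 < C ∧ 0 < η ∧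
    ∀ Y : ℝ, 1 ≤ Y → ∀ Q : Finset (ℕ × ℕ), (∀ q ∈ Q, Low n K η Y q) →
      (Q.card : ℝ) ≤ C * Y ^ ε := by
  classical
  obtain ⟨K0, η0, hη0, hev⟩ := count_fixed (Fin 3 × Fin n) (ε / 2) (by positivity)
  obtain ⟨η, hη⟩ : ∃ η : ℝ, η = min (min η0 (1 / 2)) (ε / (6 * (n + 1))) := ⟨_, rfl⟩
  have hηpos : 0 < η := by
    rw [hη]
    exact lt_min (lt_min hη0 (by norm_num)) (by positivity)
  have hη1 : η ≤ η0 := by rw [hη]; exact (min_le_left _ _).trans (min_le_left _ _)
  have hη2 : η ≤ 1 / 2 := by rw [hη]; exact (min_le_left _ _).trans (min_le_right _ _)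
  have hη3 : η * (3 * n) ≤ ε / 2 := by
    have h1 : η ≤ ε / (6 * (n + 1)) := by rw [hη]; exact min_le_right _ _
    rw [le_div_iff₀ (by positivity)] at h1
    nlinarith
  obtain ⟨Y1, hY1⟩ := eventually_atTop.mp (hev.and (eventually_ge_atTop (4 : ℝ)))
  obtain ⟨Y0, hY0⟩ : ∃ Y0 : ℝ, Y0 = max Y1 4 := ⟨_, rfl⟩
  obtain ⟨C, hC⟩ : ∃ C : ℝ, C = (Real.exp (Y0 ^ η) + 1) ^ 2 + 3 ^ (3 * n) := ⟨_, rfl⟩
  refine ⟨K0 + 1, C, η, by positivity, by rw [hC]; positivity, hηpos, ?_⟩
  intro Y hY Q hQ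
  have hYpos : 0 < Y := by linarith
  rcases lt_or_ge Y Y0 with hlt | hge
  · -- bounded `Y`
    have h1 : Q ⊆ Finset.range (⌊Real.exp (Y0 ^ η)⌋₊ + 1) ×ˢ
        Finset.range (⌊Real.exp (Y0 ^ η)⌋₊ + 1) := by
      rintro ⟨a, b⟩ hq
      obtain ⟨h1, h2, -, -, -, -, -, h8⟩ := hQ _ hq
      simp only at h1 h2 h8
      have h9 : ((a + b : ℕ) : ℝ) ≤ Real.exp (Y0 ^ η) := by
        rw [← Real.exp_log (by positivity : (0 : ℝ) < ((a + b : ℕ) : ℝ))]
        exact Real.exp_le_exp.mpr (h8.trans (Real.rpow_le_rpow hYpos.le hlt.le hηpos.le))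
      have h10 : a + b ≤ ⌊Real.exp (Y0 ^ η)⌋₊ := Nat.le_floor h9
      rw [Finset.mem_product, Finset.mem_range, Finset.mem_range]
      constructor
      · simp only
        omega
      · simp only
        omega
    have h2 := Finset.card_le_card h1
    rw [Finset.card_product, Finset.card_range] at h2
    have h3 : (Q.card : ℝ) ≤ (Real.exp (Y0 ^ η) + 1) ^ 2 := by
      calc (Q.card : ℝ) ≤ ((⌊Real.exp (Y0 ^ η)⌋₊ : ℝ) + 1) * ((⌊Real.exp (Y0 ^ η)⌋₊ : ℝ) + 1) := by
            exact_mod_cast h2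
        _ ≤ (Real.exp (Y0 ^ η) + 1) * (Real.exp (Y0 ^ η) + 1) := by
            have := Nat.floor_le (Real.exp_pos (Y0 ^ η)).le
            gcongr
        _ = _ := by ring
    have h4 : 1 ≤ Y ^ ε := Real.one_le_rpow hY hε.le
    have h5 : (0 : ℝ) < 3 ^ (3 * n) := by positivity
    have h6 : C ≤ C * Y ^ ε := le_mul_of_one_le_right (by rw [hC]; positivity) h4
    rw [hC] at h6 ⊢
    linarith
  · obtain ⟨hcf, hY4⟩ := hY1 Y ((le_max_left _ _).trans (by rw [← hY0]; exact hge))
    have h2Y : 2 * Y ^ η ≤ Y := by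
      have h1 : Y ^ η ≤ Y ^ ((1 : ℝ) / 2) := Real.rpow_le_rpow_of_exponent_le hY hη2
      have h2 : Y ^ ((1 : ℝ) / 2) * Y ^ ((1 : ℝ) / 2) = Y := by
        rw [← Real.rpow_add hYpos]
        norm_num
      have h3 : 2 ≤ Y ^ ((1 : ℝ) / 2) := by
        by_contra h
        rw [not_le] at h
        have : 0 < Y ^ ((1 : ℝ) / 2) := by positivity
        nlinarith
      nlinarith
    have hrep : ∀ q ∈ Q, ∃ x a : Fin 3 → Fin n → ℕ, (∀ j i, 0 < x j i ∧ (x j i : ℝ) ≤ Y) ∧
        q.1 = ∏ i, x 0 i ^ a 0 i ∧ q.2 = ∏ i, x 1 i ^ a 1 i ∧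
        q.1 + q.2 = ∏ i, x 2 i ^ a 2 i ∧ ∀ j i, (a j i : ℝ) ≤ 2 * Y ^ η := by
      intro q hq
      obtain ⟨h1, h2, h3, h4, h5, h6, h7, h8⟩ := hQ q hq
      have hl1 : Real.log (q.1 : ℝ) ≤ Y ^ η := by
        refine le_trans (Real.log_le_log (by exact_mod_cast h1) ?_) h8
        push_cast
        have : (0 : ℝ) ≤ (q.2 : ℝ) := Nat.cast_nonneg _
        linarith
      have hl2 : Real.log (q.2 : ℝ) ≤ Y ^ η := by
        refine le_trans (Real.log_le_log (by exact_mod_cast h2) ?_) h8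
        push_cast
        have : (0 : ℝ) ≤ (q.1 : ℝ) := Nat.cast_nonneg _
        linarith
      obtain ⟨x1, a1, hx1, hm1, hb1⟩ := nb_small h4 hl1
      obtain ⟨x2, a2, hx2, hm2, hb2⟩ := nb_small h5 hl2
      obtain ⟨x3, a3, hx3, hm3, hb3⟩ := nb_small h6 h8
      refine ⟨![x1, x2, x3], ![a1, a2, a3], ?_, hm1, hm2, hm3, ?_⟩
      · intro j i
        fin_cases j
        · exact hx1 i
        · exact hx2 i
        · exact hx3 i
      · intro j i
        fin_cases j
        · exact hb1 i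
        · exact hb2 i
        · exact hb3 i
    choose! x a hx hm1 hm2 hm3 hb using hrep
    let T : Finset (Fin 3 → Fin n → ℕ) :=
      Fintype.piFinset (fun _ => Fintype.piFinset (fun _ => Finset.range (⌊2 * Y ^ η⌋₊ + 1)))
    have hfb := fiber_bound Q a T (by
      intro q hq
      simp only [T, Fintype.mem_piFinset, Finset.mem_range]
      intro j i
      have := Nat.le_floor (hb q hq j i)
      omega) (Y ^ (ε / 2)) (by
      intro t ht
      let Pf : ℕ × ℕ → (Fin 3 × Fin n → ℤ) := fun q s => (x q s.1 s.2 : ℤ)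
      let e : Fin 3 → Fin 3 × Fin n → ℕ := fun j s => if s.1 = j then t j s.2 else 0
      obtain ⟨E, hE⟩ : ∃ E, E = (Q.filter (fun q => a q = t)).image Pf := ⟨_, rfl⟩
      have hv : ∀ q ∈ Q, a q = t → vl (Pf q) (e 0) = (q.1 : ℤ) ∧ vl (Pf q) (e 1) = (q.2 : ℤ) ∧
          vl (Pf q) (e 2) = ((q.1 + q.2 : ℕ) : ℤ) := by
        intro q hq haq
        refine ⟨?_, ?_, ?_⟩
        · have := vl_cast (x q) t 0
          rw [← haq] at this
          simp only [Pf, e, ← haq]
          rw [this, ← hm1 q hq]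
        · have := vl_cast (x q) t 1
          rw [← haq] at this
          simp only [Pf, e, ← haq]
          rw [this, ← hm2 q hq]
        · have := vl_cast (x q) t 2
          rw [← haq] at this
          simp only [Pf, e, ← haq]
          rw [this, ← hm3 q hq]
      have hinj : ∀ q ∈ Q, a q = t → ∀ q' ∈ Q, a q' = t →
          vl (Pf q) (e 0) * vl (Pf q') (e 2) = vl (Pf q') (e 0) * vl (Pf q) (e 2) → q = q' := by
        intro q hq haq q' hq' haq' heq
        obtain ⟨v1, v2, v3⟩ := hv q hq haq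
        obtain ⟨w1, w2, w3⟩ := hv q' hq' haq'
        rw [v1, v3, w1, w3] at heq
        obtain ⟨h1, h2, h3, -⟩ := hQ q hq
        obtain ⟨h1', h2', h3', -⟩ := hQ q' hq'
        have heq' : q.1 * (q'.1 + q'.2) = q'.1 * (q.1 + q.2) := by exact_mod_cast heq
        have heq2 : q.1 * q'.2 = q'.1 * q.2 := by nlinarith
        have d1 : q.1 ∣ q'.1 := by
          apply h3.dvd_of_dvd_mul_right
          exact ⟨q'.2, heq2.symm⟩
        have d2 : q'.1 ∣ q.1 := by
          apply h3'.dvd_of_dvd_mul_right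
          exact ⟨q.2, heq2⟩
        have e1 : q.1 = q'.1 := Nat.dvd_antisymm d1 d2
        have e2 : q.2 = q'.2 := by
          rw [e1] at heq2
          exact (Nat.eq_of_mul_eq_mul_left h1' heq2).symm
        exact Prod.ext e1 e2
      have hcard : (Q.filter (fun q => a q = t)).card = E.card := by
        rw [hE, Finset.card_image_of_injOn]
        intro q hq q' hq' heq
        rw [Finset.mem_coe, Finset.mem_filter] at hq hq'
        apply hinj q hq.1 hq.2 q' hq'.1 hq'.2
        rw [heq]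
      rw [hcard]
      refine hcf e ?_ E ?_ ?_
      · intro j s
        simp only [e]
        split_ifs
        · simp only [T, Fintype.mem_piFinset, Finset.mem_range] at ht
          have h1 : t j s.2 ≤ ⌊2 * Y ^ η⌋₊ := by have := ht j s.2; omega
          have h2 : ((t j s.2 : ℕ) : ℝ) ≤ 2 * Y ^ η :=
            (Nat.cast_le.mpr h1).trans (Nat.floor_le (by positivity))
          linarith
        · push_cast
          linarith
      · intro P hP
        rw [hE, Finset.mem_image] at hP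
        obtain ⟨q, hq, rfl⟩ := hP
        rw [Finset.mem_filter] at hq
        obtain ⟨v1, v2, v3⟩ := hv q hq.1 hq.2
        obtain ⟨h1, h2, h3, h4, h5, h6, h7, h8⟩ := hQ q hq.1
        refine ⟨?_, ?_, ?_, ?_, ?_⟩
        · rintro ⟨j, i⟩
          have := hx q hq.1 j i
          refine ⟨by simp only [Pf]; exact_mod_cast this.1, ?_⟩
          simp only [Pf]
          exact_mod_cast this.2
        · rw [v1, v2, v3]
          push_cast
          rfl
        · rw [v1, v2]
          exact Nat.isCoprime_iff_coprime.mpr h3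
        · rw [v3]
          refine le_trans ?_ h7
          rw [← Real.rpow_natCast]
          apply Real.rpow_le_rpow_of_exponent_le hY
          linarith
        · rw [v3]
          refine le_trans h8 (Real.rpow_le_rpow_of_exponent_le hY hη1)
      · intro P hP P' hP' heq
        rw [hE, Finset.mem_image] at hP hP'
        obtain ⟨q, hq, rfl⟩ := hP
        obtain ⟨q', hq', rfl⟩ := hP'
        rw [Finset.mem_filter] at hq hq'
        rw [hinj q hq.1 hq.2 q' hq'.1 hq'.2 heq])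
    have hT : (T.card : ℝ) ≤ 3 ^ (3 * n) * Y ^ (ε / 2) := by
      simp only [T, Fintype.card_piFinset, Finset.card_range, Finset.prod_const, Finset.card_univ,
        Fintype.card_fin]
      push_cast
      have h1 : (⌊2 * Y ^ η⌋₊ : ℝ) + 1 ≤ 3 * Y ^ η := by
        have h2 := Nat.floor_le (by positivity : 0 ≤ 2 * Y ^ η)
        have h3 : 1 ≤ Y ^ η := Real.one_le_rpow hY hηpos.le
        linarith
      calc (((⌊2 * Y ^ η⌋₊ : ℝ) + 1) ^ n) ^ 3 ≤ ((3 * Y ^ η) ^ n) ^ 3 := by gcongr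
        _ = 3 ^ (3 * n) * (Y ^ η) ^ (3 * n) := by
            rw [← pow_mul, mul_pow, mul_comm n 3]
        _ ≤ 3 ^ (3 * n) * Y ^ (ε / 2) := by
            have h2 : (Y ^ η) ^ (3 * n) ≤ Y ^ (ε / 2) := by
              rw [← Real.rpow_natCast, ← Real.rpow_mul hYpos.le]
              apply Real.rpow_le_rpow_of_exponent_le hY
              push_cast
              exact hη3
            gcongr
    calc (Q.card : ℝ) ≤ T.card * Y ^ (ε / 2) := hfb
      _ ≤ (3 ^ (3 * n) * Y ^ (ε / 2)) * Y ^ (ε / 2) := by gcongr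
      _ = 3 ^ (3 * n) * Y ^ ε := by
          rw [mul_assoc, ← Real.rpow_add hYpos]
          ring_nf
      _ ≤ C * Y ^ ε := by
          rw [hC]
          have : 0 ≤ (Real.exp (Y0 ^ η) + 1) ^ 2 := by positivity
          gcongr
          linarith

end Pool.Agent.Y913.Vm
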