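import Pool.Agent.Y913.Vm.Path

/-!
A function all of whose tangent derivatives vanish at an integral point of a system of equations
vanishes, modulo a high power of `l`, at all integral points in its residue class modulo `l`.
-/

set_option autoImplicit false

namespace Pool.Agent.Y913.Vm

open Finset MvPolynomial Matrix

section

variable {σ κ ν : Type} [Fintype σ] [DecidableEq σ] [Fintype κ] [DecidableEq κ] [Fintype ν]
  [DecidableEq ν]

omit [Fintype σ] [DecidableEq σ] [Fintype ν] [DecidableEq ν] in
lemma eval_jd (u : ν → σ) (ι : κ → ν) (F : κ → Rg σ) (p : σ → ℤ) :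
    eval p (jd u ι F) = (Matrix.of fun a b => eval p (pderiv (u (ι b)) (F a))).det := by
  unfold jd
  rw [RingHom.map_det]
  rfl

theorem flow (u : ν → σ) (hu : Function.Injective u) (ι : κ → ν) (hι : Function.Injective ι)
    (F : κ → Rg σ) (p q : σ → ℤ) {l : ℕ} (hl : l.Prime) (hp : ∀ a, eval p (F a) = 0)
    (hq : ∀ a, eval q (F a) = 0) (hpq : ∀ i, (l : ℤ) ∣ q i - p i)
    (hout : ∀ i, (∀ r, i ≠ u r) → q i = p i) (hJ : ¬ (l : ℤ) ∣ eval p (jd u ι F)) (H : Rg σ)
    (hH : ∀ w, eval p (word u ι F w H) = 0) (k : ℕ) (hk : k ≤ l) :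
    (l : ℤ) ^ k ∣ eval q H := by
  classical
  obtain ⟨B, hB1, hB2⟩ := exists_inv hl
    (Matrix.of fun a b => eval p (pderiv (u (ι b)) (F a))) (by rwa [← eval_jd])
  simp only [Matrix.of_apply] at hB1 hB2
  let ω : σ → ℤ := fun i => if ∃ b, i = u (ι b) then 0 else (q i - p i) / l
  have hinj : Function.Injective (fun b => u (ι b)) := hu.comp hι
  obtain ⟨y, hy1, hy2, hy3, hy4⟩ := newton_path u ι F p ω l B hinj hp hB1 (k + 1) (by omega)
  -- the derivative of the path
  have hyp : ∀ i, (∀ r, i ≠ u r) → Polynomial.derivative (y i) = 0 := by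
    intro i hi
    rw [hy3 i (fun b => hi _)]
    have : ω i = 0 := by
      simp only [ω]
      rw [hout i hi]
      simp
    rw [this]
    simp
  have hchain : ∀ G : Rg σ, Polynomial.derivative (ev y G) =
      ∑ r, Polynomial.derivative (y (u r)) * ev y (pderiv (u r) G) := by
    intro G
    rw [chain]
    have h1 := Finset.sum_image (s := Finset.univ) (g := u)
      (f := fun i => ev y (pderiv i G) * Polynomial.derivative (y i)) (fun a _ b _ h => hu h)
    have h2 : ∑ i ∈ Finset.univ.image u, ev y (pderiv i G) * Polynomial.derivative (y i) =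
        ∑ i, ev y (pderiv i G) * Polynomial.derivative (y i) := by
      apply Finset.sum_subset (Finset.subset_univ _)
      intro i _ hi
      rw [Finset.mem_image] at hi
      push Not at hi
      rw [hyp i (fun r h => hi r (Finset.mem_univ r) h.symm), mul_zero]
    rw [← h2, h1]
    apply Finset.sum_congr rfl
    intro r _
    ring
  have hJc : ∃ e : ℤ, (l : ℤ) ∣ 1 - e * eval p (jd u ι F) := by
    have h1 : IsCoprime (l : ℤ) (eval p (jd u ι F)) := by
      rw [Int.isCoprime_iff_gcd_eq_one]
      have h2 : Nat.Coprime l (eval p (jd u ι F)).natAbs := by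
        rw [Nat.Prime.coprime_iff_not_dvd hl]
        intro h
        exact hJ (Int.natCast_dvd.mpr h)
      exact h2
    obtain ⟨e, d, hed⟩ := h1
    exact ⟨d, e, by rw [← hed]; ring⟩
  obtain ⟨e, he⟩ := hJc
  have key : ∀ s, s ≤ k → ∀ w, ev y (word u ι F w H) ∈ (pf (l : ℤ)).W s := by
    intro s
    induction s with
    | zero => intro _ w; exact (pf (l : ℤ)).top _
    | succ s ih =>
      intro hs w
      have ih' := ih (by omega)
      obtain ⟨G, hG⟩ : ∃ G, G = word u ι F w H := ⟨_, rfl⟩
      have h0 : (ev y (word u ι F w H)).coeff 0 = 0 := by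
        rw [Polynomial.coeff_zero_eq_eval_zero, eval_ev]
        simp only [hy4]
        exact hH w
      apply pf_integ hl (by omega) h0
      have h1 := sum_dd u ι F (ev y) (fun r => Polynomial.derivative (y (u r)))
        (word u ι F w H)
      rw [← hchain] at h1
      have h2 : ∑ r, Polynomial.derivative (y (u r)) *
          ev y (dd u ι F r (word u ι F w H)) ∈ (pf (l : ℤ)).W s := by
        apply sum_mem
        intro r _
        apply (pf (l : ℤ)).mul_left
        exact ih' (r :: w)
      have h3 : ∑ b, ∑ a, ev y ((jm u ι F).adjugate b a) *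
          (∑ i, Polynomial.derivative (y (u i)) * ev y (pderiv (u i) (F a))) *
          ev y (pderiv (u (ι b)) (word u ι F w H)) ∈ (pf (l : ℤ)).W s := by
        apply sum_mem
        intro b _
        apply sum_mem
        intro a _
        apply (pf (l : ℤ)).mul_right
        apply (pf (l : ℤ)).mul_left
        rw [← hchain]
        exact (pf (l : ℤ)).mono s k _ (by omega) (pf_deriv (hy2 a))
      have h4 : ev y (jd u ι F) * Polynomial.derivative (ev y (word u ι F w H)) ∈
          (pf (l : ℤ)).W s := by
        have h5 := ((pf (l : ℤ)).W s).add_mem h2 h3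
        rw [h1, sub_add_cancel] at h5
        exact h5
      refine pf_unit he ?_ h4
      have h6 := taylor0 (pf (l : ℤ)) 1 y (fun i => Polynomial.C (p i)) hy1 (jd u ι F)
      rwa [ev_C'] at h6
  -- comparison of the end of the path with the point
  have hz := newton_unique u ι F p q (fun i => (y i).eval (l : ℤ)) l (k + 1) B hinj hB2 hpq
    (by
      intro i
      have h1 := pf_eval (hy1 i)
      rw [pow_one, Polynomial.eval_sub, Polynomial.eval_C] at h1
      exact h1)
    (fun a => by rw [hq a]; exact dvd_zero _)
    (by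
      intro a
      rw [← eval_ev]
      exact pf_eval (hy2 a))
    (by
      intro i hi
      show q i = (y i).eval (l : ℤ)
      rw [hy3 i hi]
      have h1 : ω i = (q i - p i) / l := by
        simp only [ω]
        rw [if_neg]
        push Not
        exact hi
      rw [h1]
      simp only [Polynomial.eval_add, Polynomial.eval_C, Polynomial.eval_mul, Polynomial.eval_X]
      rw [Int.ediv_mul_cancel (hpq i)]
      ring)
  have h1 := pf_eval (key k le_rfl [])
  rw [word_nil, eval_ev] at h1
  have h2 := taylor0 (zf (l : ℤ)) k q (fun i => (y i).eval (l : ℤ))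
    (fun i => mem_zf.mpr ((pow_dvd_pow (l : ℤ) (by omega)).trans (hz i))) H
  rw [mem_zf, ev_int, ev_int] at h2
  have h3 := dvd_add h2 h1
  rwa [sub_add_cancel] at h3

end

end Pool.Agent.Y913.Vm
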