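import Pool.Agent.Y913.Vm.Noeth
import Pool.Agent.Y913.Sm.Fd

/-!
The integral points of a system of equations in a residue class: expansions of the coordinates, and
an auxiliary polynomial in the free variables.
-/

set_option autoImplicit false

namespace Pool.Agent.Y913.Vm

open Finset MvPolynomial Matrix

lemma eval_ev' {σ τ : Type} (y : σ → Rg τ) (h : τ → ℤ) (G : Rg σ) :
    eval h (ev y G) = eval (fun i => eval h (y i)) G := by
  induction G using MvPolynomial.induction_on with
  | C a =>
    rw [ev_C, eval_C]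
    simp
  | add G H hG hH => rw [map_add, map_add, map_add, hG, hH]
  | mul_X G n hG => rw [map_mul, map_mul, map_mul, hG, ev_X, eval_X]

section

variable {σ κ ν : Type} [Fintype σ] [DecidableEq σ] [Fintype κ] [DecidableEq κ] [Fintype ν]
  [DecidableEq ν]

/-- the integral points in a residue class -/
def Cls (u : ν → σ) (F : κ → Rg σ) (p : σ → ℤ) (l : ℤ) (q : σ → ℤ) : Prop :=
  (∀ i, l ∣ q i - p i) ∧ (∀ i, (∀ r, i ≠ u r) → q i = p i) ∧ ∀ a, eval q (F a) = 0

/-- the free variables -/
abbrev Fv (ι : κ → ν) : Type := {r : ν // ∀ b, r ≠ ι b}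

/-- expansions of the coordinates -/
lemma expand (u : ν → σ) (hu : Function.Injective u) (ι : κ → ν) (hι : Function.Injective ι)
    (F : κ → Rg σ) (p : σ → ℤ) (l : ℤ) (B : κ → κ → ℤ)
    (hB : ∀ a c, l ∣ (∑ b, B a b * eval p (pderiv (u (ι c)) (F b))) - if a = c then 1 else 0) :
    ∀ k, 1 ≤ k → ∃ y : σ → Rg (Fv ι), ∀ q, Cls u F p l q →
      (∀ i, l ^ k ∣ eval (fun r : Fv ι => q (u r) - p (u r)) (y i) - q i) ∧
      ∀ i, (∀ b, i ≠ u (ι b)) → eval (fun r : Fv ι => q (u r) - p (u r)) (y i) = q i := by
  intro k hk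
  have hinj : Function.Injective (fun b => u (ι b)) := hu.comp hι
  induction k, hk using Nat.le_induction with
  | base =>
    let y : σ → Rg (Fv ι) := fun i => C (p i) + ∑ r : Fv ι, if i = u r then X r else 0
    refine ⟨y, ?_⟩
    rintro q ⟨h1, h2, h3⟩
    have hy : ∀ i, eval (fun r : Fv ι => q (u r) - p (u r)) (y i) = p i +
        ∑ r : Fv ι, if i = u r then q (u r) - p (u r) else 0 := by
      intro i
      simp only [y, map_add, eval_C, map_sum]
      congr 1
      apply Finset.sum_congr rfl
      intro r _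
      split_ifs
      · rw [eval_X]
      · rw [map_zero]
    constructor
    · intro i
      rw [pow_one, hy]
      have h4 : l ∣ ∑ r : Fv ι, if i = u r then q (u r) - p (u r) else 0 := by
        apply Finset.dvd_sum
        intro r _
        split_ifs
        · exact h1 _
        · exact dvd_zero _
      have h5 := dvd_sub h4 (h1 i)
      have h6 : p i + (∑ r : Fv ι, if i = u r then q (u r) - p (u r) else 0) - q i =
          (∑ r : Fv ι, if i = u r then q (u r) - p (u r) else 0) - (q i - p i) := by ring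
      rwa [h6]
    · intro i hi
      rw [hy]
      by_cases hr : ∃ r, i = u r
      · obtain ⟨r, rfl⟩ := hr
        have hrf : ∀ b, r ≠ ι b := fun b h => hi b (by rw [h])
        rw [Finset.sum_eq_single (⟨r, hrf⟩ : Fv ι)]
        · rw [if_pos rfl]
          ring
        · rintro ⟨r', hr'⟩ _ hne
          rw [if_neg]
          intro h
          apply hne
          apply Subtype.ext
          exact (hu h).symm
        · intro h
          exact absurd (Finset.mem_univ _) h
      · push Not at hr
        rw [Finset.sum_eq_zero, add_zero]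
        · exact (h2 i hr).symm
        · intro r _
          rw [if_neg (hr r)]
  | succ k hk ih =>
    obtain ⟨y, hy⟩ := ih
    let y' : σ → Rg (Fv ι) := fun i => y i - ∑ b, ∑ a, if i = u (ι b) then
      C (B b a) * ev y (F a) else 0
    refine ⟨y', ?_⟩
    intro q hq
    obtain ⟨h1, h2⟩ := hy q hq
    obtain ⟨z, hz⟩ : ∃ z : σ → ℤ, z = fun i =>
      eval (fun r : Fv ι => q (u r) - p (u r)) (y i) := ⟨_, rfl⟩
    have hzq : ∀ i, l ^ k ∣ z i - q i := by rw [hz]; exact h1
    have hzq2 : ∀ i, (∀ b, i ≠ u (ι b)) → z i = q i := by rw [hz]; exact h2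
    obtain ⟨hq1, hq2, hq3⟩ := hq
    have hzp : ∀ i, l ∣ z i - p i := by
      intro i
      have h4 : l ∣ z i - q i := (dvd_pow_self l (by omega)).trans (hzq i)
      have h5 := dvd_add h4 (hq1 i)
      rwa [sub_add_sub_cancel] at h5
    have hev : ∀ i, eval (fun r : Fv ι => q (u r) - p (u r)) (y' i) = z i -
        ∑ b, ∑ a, if i = u (ι b) then B b a * eval z (F a) else 0 := by
      intro i
      simp only [y', map_sub, map_sum]
      rw [hz]
      congr 1
      apply Finset.sum_congr rfl
      intro b _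
      apply Finset.sum_congr rfl
      intro a _
      split_ifs
      · rw [map_mul, eval_C, eval_ev']
      · rw [map_zero]
    have hval : ∀ a, l ^ (k + 1) ∣ eval z (F a) - ∑ b, eval p (pderiv (u (ι b)) (F a)) *
        (z (u (ι b)) - q (u (ι b))) := by
      intro a
      have e2 := taylor1 (zf l) k z q p (fun i => mem_zf.mpr (hzq i))
        (fun i => mem_zf.mpr (by rw [pow_one]; exact hzp i))
        (fun i => mem_zf.mpr (by rw [pow_one]; exact hq1 i)) (F a)
      rw [mem_zf] at e2
      simp only [ev_int] at e2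
      rw [hq3, sub_zero] at e2
      have e3 : ∑ i, eval p (pderiv i (F a)) * (z i - q i) =
          ∑ b, eval p (pderiv (u (ι b)) (F a)) * (z (u (ι b)) - q (u (ι b))) := by
        symm
        rw [← Finset.sum_image (s := Finset.univ) (g := fun b => u (ι b))
          (f := fun i => eval p (pderiv i (F a)) * (z i - q i)) (fun a _ b _ h => hinj h)]
        apply Finset.sum_subset (Finset.subset_univ _)
        intro i _ hi
        rw [Finset.mem_image] at hi
        push Not at hi
        rw [hzq2 i (fun b h => hi b (Finset.mem_univ b) h.symm), sub_self, mul_zero]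
      rwa [e3] at e2
    constructor
    · intro i
      rw [hev]
      by_cases hi : ∀ b, i ≠ u (ι b)
      · rw [Finset.sum_eq_zero, sub_zero, hzq2 i hi, sub_self]
        · exact dvd_zero _
        · intro b _
          apply Finset.sum_eq_zero
          intro a _
          rw [if_neg (hi b)]
      · push Not at hi
        obtain ⟨c, rfl⟩ := hi
        have e1 : ∑ b, ∑ a, (if u (ι c) = u (ι b) then B b a * eval z (F a) else 0) =
            ∑ a, B c a * eval z (F a) := by
          rw [Finset.sum_eq_single c]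
          · simp
          · intro b _ hb
            apply Finset.sum_eq_zero
            intro a _
            rw [if_neg (fun h => hb (hinj h).symm)]
          · intro h
            exact absurd (Finset.mem_univ _) h
        rw [e1]
        have e2 : l ^ (k + 1) ∣ ∑ a, B c a * (eval z (F a) -
            ∑ b, eval p (pderiv (u (ι b)) (F a)) * (z (u (ι b)) - q (u (ι b)))) :=
          Finset.dvd_sum (fun a _ => (hval a).mul_left _)
        have e4 : l ^ (k + 1) ∣ ∑ b, ((∑ a, B c a * eval p (pderiv (u (ι b)) (F a))) -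
            if c = b then 1 else 0) * (z (u (ι b)) - q (u (ι b))) := by
          apply Finset.dvd_sum
          intro b _
          rw [add_comm k 1, pow_add, pow_one]
          exact mul_dvd_mul (hB c b) (hzq _)
        have e5 : z (u (ι c)) - (∑ a, B c a * eval z (F a)) - q (u (ι c)) =
            -(∑ a, B c a * (eval z (F a) -
            ∑ b, eval p (pderiv (u (ι b)) (F a)) * (z (u (ι b)) - q (u (ι b))))) -
            ∑ b, ((∑ a, B c a * eval p (pderiv (u (ι b)) (F a))) -
            if c = b then 1 else 0) * (z (u (ι b)) - q (u (ι b))) := by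
          have e6 : ∑ b, (if c = b then (1 : ℤ) else 0) * (z (u (ι b)) - q (u (ι b))) =
              z (u (ι c)) - q (u (ι c)) := by simp
          have e7 : ∑ a, B c a * ∑ b, eval p (pderiv (u (ι b)) (F a)) *
              (z (u (ι b)) - q (u (ι b))) = ∑ b, (∑ a, B c a *
                eval p (pderiv (u (ι b)) (F a))) * (z (u (ι b)) - q (u (ι b))) := by
            simp only [Finset.mul_sum, Finset.sum_mul]
            rw [Finset.sum_comm]
            apply Finset.sum_congr rfl
            intro b _
            apply Finset.sum_congr rfl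
            intro a _
            ring
          simp only [mul_sub, sub_mul, Finset.sum_sub_distrib] at e6 e7 ⊢
          linarith
        rw [e5]
        exact dvd_sub ((dvd_neg).mpr e2) e4
    · intro i hi
      rw [hev, Finset.sum_eq_zero, sub_zero, hzq2 i hi]
      intro b _
      apply Finset.sum_eq_zero
      intro a _
      rw [if_neg (hi b)]

end

/-- values at points divisible by `l` -/
lemma eval_small {τ : Type} [Fintype τ] [DecidableEq τ] (Q : Rg τ) (l k : ℕ) (h : τ → ℤ)
    (hl : ∀ r, (l : ℤ) ∣ h r)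
    (hQ : ∀ α : τ → Fin k, (l : ℤ) ^ k ∣ coeff (Finsupp.equivFunOnFinite.symm
      (fun r => (α r : ℕ))) Q) : (l : ℤ) ^ k ∣ eval h Q := by
  classical
  rw [MvPolynomial.eval_eq']
  apply Finset.dvd_sum
  intro d _
  by_cases hd : ∀ r, d r < k
  · apply Dvd.dvd.mul_right
    have h1 := hQ (fun r => ⟨d r, hd r⟩)
    have h2 : (Finsupp.equivFunOnFinite.symm (fun r => d r)) = d := by
      ext r
      rfl
    simp only at h1
    rwa [h2] at h1
  · push Not at hd
    obtain ⟨r, hr⟩ := hd
    apply Dvd.dvd.mul_left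
    rw [← Finset.mul_prod_erase Finset.univ _ (Finset.mem_univ r)]
    apply Dvd.dvd.mul_right
    exact (pow_dvd_pow (l : ℤ) hr).trans (pow_dvd_pow_of_dvd (hl r) _)

section

variable {σ κ ν : Type} [Fintype σ] [DecidableEq σ] [Fintype κ] [DecidableEq κ] [Fintype ν]
  [DecidableEq ν]

/-- **the auxiliary polynomial** -/
theorem aux_poly (u : ν → σ) (hu : Function.Injective u) (ι : κ → ν) (hι : Function.Injective ι)
    (F : κ → Rg σ) (p : σ → ℤ) {l : ℕ} (hl : l.Prime) (hJ : ¬ (l : ℤ) ∣ eval p (jd u ι F))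
    {φ : Type} [Fintype φ] [DecidableEq φ] (g : φ → ν) (k D H : ℕ) (hk : 1 ≤ k)
    (hpig : (l ^ k) ^ (k ^ Fintype.card (Fv ι)) < (H + 1) ^ (D ^ Fintype.card φ)) :
    ∃ G : (φ → Fin D) → ℤ, G ≠ 0 ∧ (∀ m, |G m| ≤ H) ∧ ∀ q, Cls u F p l q →
      (l : ℤ) ^ k ∣ ∑ m, G m * ∏ r, q (u (g r)) ^ (m r : ℕ) := by
  classical
  obtain ⟨B, -, hB⟩ := exists_inv hl
    (Matrix.of fun a b => eval p (pderiv (u (ι b)) (F a))) (by rwa [← eval_jd])
  simp only [Matrix.of_apply] at hB
  obtain ⟨y, hy⟩ := expand u hu ι hι F p l B hB k hk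
  let Q : (φ → Fin D) → Rg (Fv ι) := fun m => ∏ r, y (u (g r)) ^ (m r : ℕ)
  have : NeZero (l ^ k) := ⟨(pow_pos hl.pos k).ne'⟩
  obtain ⟨G, hG0, hGH, hG⟩ := Pool.Agent.Y913.Sm.mod_siegel (R := ZMod (l ^ k)) (I := φ → Fin D)
    (K := Fv ι → Fin k) H (fun α m => ((coeff (Finsupp.equivFunOnFinite.symm
      (fun r => (α r : ℕ))) (Q m) : ℤ) : ZMod (l ^ k))) (by
      rw [ZMod.card, Fintype.card_fun, Fintype.card_fun, Fintype.card_fin, Fintype.card_fin]
      exact hpig)
  refine ⟨G, hG0, hGH, ?_⟩
  intro q hq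
  obtain ⟨h1, -⟩ := hy q hq
  obtain ⟨hq1, -, -⟩ := hq
  -- the polynomial in the increments
  have h2 : (l : ℤ) ^ k ∣ eval (fun r : Fv ι => q (u r) - p (u r)) (∑ m, C (G m) * Q m) := by
    apply eval_small _ l k _ (fun r => hq1 _)
    intro α
    rw [coeff_sum]
    have h3 := hG α
    have h4 : ((∑ m, coeff (Finsupp.equivFunOnFinite.symm (fun r => (α r : ℕ)))
        (C (G m) * Q m) : ℤ) : ZMod (l ^ k)) = 0 := by
      push_cast
      rw [← h3]
      apply Finset.sum_congr rfl
      intro m _
      rw [coeff_C_mul]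
      push_cast
      rfl
    rw [ZMod.intCast_zmod_eq_zero_iff_dvd] at h4
    push_cast at h4
    exact h4
  have h5 : ∀ m : φ → Fin D, (l : ℤ) ^ k ∣ eval (fun r : Fv ι => q (u r) - p (u r)) (Q m) -
      ∏ r, q (u (g r)) ^ (m r : ℕ) := by
    intro m
    simp only [Q, map_prod, map_pow]
    have h6 : ∀ r, eval (fun r : Fv ι => q (u r) - p (u r)) (y (u (g r))) ≡ q (u (g r))
        [ZMOD (l : ℤ) ^ k] := fun r => (Int.modEq_iff_dvd.mpr (by
          have := h1 (u (g r))
          rwa [← dvd_neg, neg_sub] at this))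
    have h7 : ∏ r, eval (fun r : Fv ι => q (u r) - p (u r)) (y (u (g r))) ^ (m r : ℕ) ≡
        ∏ r, q (u (g r)) ^ (m r : ℕ) [ZMOD (l : ℤ) ^ k] := by
      apply Int.ModEq.prod
      intro r _
      exact (h6 r).pow _
    have := (Int.modEq_iff_dvd.mp h7)
    rwa [← dvd_neg, neg_sub] at this
  have h6 : ∑ m, G m * ∏ r, q (u (g r)) ^ (m r : ℕ) =
      eval (fun r : Fv ι => q (u r) - p (u r)) (∑ m, C (G m) * Q m) -
      ∑ m, G m * (eval (fun r : Fv ι => q (u r) - p (u r)) (Q m) -
        ∏ r, q (u (g r)) ^ (m r : ℕ)) := by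
    rw [map_sum, ← Finset.sum_sub_distrib]
    apply Finset.sum_congr rfl
    intro m _
    rw [map_mul, eval_C]
    ring
  rw [h6]
  exact dvd_sub h2 (Finset.dvd_sum (fun m _ => (h5 m).mul_left _))

end

end Pool.Agent.Y913.Vm
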