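import Pool.Agent.Y913.Vm.Words

/-!
Uniform orders of vanishing; sizes of values; sets of primes.
-/

set_option autoImplicit false

namespace Pool.Agent.Y913.Vm

open Finset MvPolynomial Matrix

section

variable {σ κ ν : Type} [Fintype κ] [DecidableEq κ] [Fintype ν] [DecidableEq ν]

/-- **vanishing to a fixed order implies vanishing to all orders** -/
theorem noeth [Finite σ] (u : ν → σ) (ι : κ → ν) (F : κ → Rg σ) (G : Rg σ) :
    ∃ n0 : ℕ, ∀ p : σ → ℤ, Van u ι F p n0 G → ∀ n, Van u ι F p n G := by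
  let J : ℕ →o Ideal (Rg σ) :=
    ⟨fun n => Ideal.span {H | ∃ w : List ν, w.length ≤ n ∧ H = word u ι F w G}, by
      intro m n hmn
      apply Ideal.span_mono
      rintro H ⟨w, hw, rfl⟩
      exact ⟨w, by omega, rfl⟩⟩
  obtain ⟨n0, hn0⟩ := (monotone_stabilizes_iff_noetherian (R := Rg σ) (M := Rg σ)).mpr
    inferInstance J
  refine ⟨n0, ?_⟩
  intro p hp n w hw
  have h1 : word u ι F w G ∈ J n0 := by
    rw [hn0 (max n0 n) (le_max_left _ _)]
    apply Ideal.subset_span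
    exact ⟨w, hw.trans (le_max_right _ _), rfl⟩
  have h2 : J n0 ≤ RingHom.ker (eval p) := by
    apply Ideal.span_le.mpr
    rintro H ⟨w', hw', rfl⟩
    exact hp w' hw'
  exact h2 h1

/-- the first non-vanishing derivative -/
lemma first_word (u : ν → σ) (ι : κ → ν) (F : κ → Rg σ) (G : Rg σ) (p : σ → ℤ) (n : ℕ)
    (h0 : eval p G = 0) (h : ¬ Van u ι F p n G) : ∃ w : List ν, ∃ i : ν, w.length ≤ n ∧
      eval p (word u ι F w G) = 0 ∧ eval p (dd u ι F i (word u ι F w G)) ≠ 0 := by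
  classical
  unfold Van at h
  push Not at h
  obtain ⟨w, hw, hne⟩ := h
  have hex : ∃ m : ℕ, ∃ w : List ν, w.length = m ∧ eval p (word u ι F w G) ≠ 0 :=
    ⟨w.length, w, rfl, hne⟩
  obtain ⟨w1, hw1, hne1⟩ := Nat.find_spec hex
  have hmin : ∀ m < Nat.find hex, ¬ ∃ w : List ν, w.length = m ∧ eval p (word u ι F w G) ≠ 0 :=
    fun m hm => Nat.find_min hex hm
  have hle : Nat.find hex ≤ w.length := Nat.find_min' hex ⟨w, rfl, hne⟩
  rcases w1 with _ | ⟨i, w2⟩
  · exact absurd h0 hne1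
  · refine ⟨w2, i, ?_, ?_, hne1⟩
    · simp at hw1
      omega
    · by_contra h3
      apply hmin w2.length (by simp at hw1; omega)
      exact ⟨w2, rfl, h3⟩

end

/-- values of a fixed polynomial -/
lemma size {σ : Type} (G : Rg σ) : ∃ D : ℕ, ∀ Y : ℝ, 2 ≤ Y → ∀ v : σ → ℤ,
    (∀ i, |(v i : ℝ)| ≤ Y) → |((eval v G : ℤ) : ℝ)| ≤ Y ^ D := by
  induction G using MvPolynomial.induction_on with
  | C a =>
    refine ⟨a.natAbs, ?_⟩
    intro Y hY v hv
    rw [eval_C]
    have h1 : |(a : ℝ)| = (a.natAbs : ℝ) := by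
      rw [Nat.cast_natAbs]
      simp
    rw [h1]
    have h2 : (a.natAbs : ℝ) ≤ 2 ^ a.natAbs := by
      exact_mod_cast (Nat.lt_two_pow_self (n := a.natAbs)).le
    exact h2.trans (pow_le_pow_left₀ (by norm_num) hY _)
  | add G H hG hH =>
    obtain ⟨D1, h1⟩ := hG
    obtain ⟨D2, h2⟩ := hH
    refine ⟨max D1 D2 + 1, ?_⟩
    intro Y hY v hv
    rw [map_add]
    push_cast
    have h3 := h1 Y hY v hv
    have h4 := h2 Y hY v hv
    have h5 : Y ^ D1 ≤ Y ^ max D1 D2 := pow_le_pow_right₀ (by linarith) (le_max_left _ _)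
    have h6 : Y ^ D2 ≤ Y ^ max D1 D2 := pow_le_pow_right₀ (by linarith) (le_max_right _ _)
    have h7 : 0 < Y ^ max D1 D2 := by positivity
    calc |((eval v G : ℤ) : ℝ) + ((eval v H : ℤ) : ℝ)| ≤
          |((eval v G : ℤ) : ℝ)| + |((eval v H : ℤ) : ℝ)| := abs_add_le _ _
      _ ≤ Y ^ max D1 D2 + Y ^ max D1 D2 := by linarith
      _ ≤ Y ^ max D1 D2 * Y := by nlinarith
      _ = Y ^ (max D1 D2 + 1) := (pow_succ _ _).symm
  | mul_X G n hG =>
    obtain ⟨D, h1⟩ := hG
    refine ⟨D + 1, ?_⟩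
    intro Y hY v hv
    rw [map_mul, eval_X]
    push_cast
    rw [abs_mul, pow_succ]
    exact mul_le_mul (h1 Y hY v hv) (hv n) (abs_nonneg _) (by positivity)

/-- many primes between `√Y` and `Y` -/
lemma prime_set {Y : ℝ} (hY : 1000000 ≤ Y) : ∃ L : Finset ℕ,
    (∀ l ∈ L, l.Prime ∧ Real.sqrt Y < l ∧ (l : ℝ) ≤ Y) ∧ Real.sqrt Y ≤ L.card ∧
      (L.card : ℝ) ≤ Y := by
  have hY0 : 0 < Y := by linarith
  have hs : Real.sqrt Y * Real.sqrt Y = Y := Real.mul_self_sqrt hY0.le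
  have hs0 : 0 ≤ Real.sqrt Y := Real.sqrt_nonneg Y
  have hs1 : 1000 ≤ Real.sqrt Y := by
    apply Real.le_sqrt_of_sq_le
    linarith
  let L := (Finset.range (⌊Y⌋₊ + 1)).filter (fun l => l.Prime ∧ ⌊Real.sqrt Y⌋₊ < l)
  have hlog : Real.log Y ≤ 8 * Y ^ ((1 : ℝ) / 8) := by
    have := Real.log_le_rpow_div hY0.le (by norm_num : (0 : ℝ) < 1 / 8)
    linarith
  obtain ⟨z, hz⟩ : ∃ z : ℝ, z = Y ^ ((1 : ℝ) / 8) := ⟨_, rfl⟩
  have hz0 : 0 < z := by rw [hz]; positivity
  have hz8 : z ^ 8 = Y := by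
    rw [hz, ← Real.rpow_natCast, ← Real.rpow_mul hY0.le]
    norm_num
  have hz4 : z ^ 4 = Real.sqrt Y := by
    rw [Real.sqrt_eq_rpow, hz, ← Real.rpow_natCast, ← Real.rpow_mul hY0.le]
    norm_num
  have hz5 : 5 ≤ z := by
    by_contra h
    rw [not_le] at h
    have : z ^ 8 < 5 ^ 8 := pow_lt_pow_left₀ h hz0.le (by norm_num)
    rw [hz8] at this
    norm_num at this
    linarith
  have hlY : Real.log Y ≤ 8 * z := by rw [hz]; exact hlog
  have hlYpos : 0 < Real.log Y := Real.log_pos (by linarith)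
  refine ⟨L, ?_, ?_, ?_⟩
  · intro l hl
    rw [Finset.mem_filter, Finset.mem_range] at hl
    obtain ⟨h1, h2, h3⟩ := hl
    refine ⟨h2, (Nat.floor_lt hs0).mp h3, ?_⟩
    exact (Nat.le_floor_iff hY0.le).mp (by omega)
  · have hpi := Chebyshev.pi_ge' (x := Y) (by linarith)
    have h1 : Nat.primeCounting ⌊Y⌋₊ ≤ L.card + ⌊Real.sqrt Y⌋₊ := by
      rw [Nat.primeCounting, Nat.primeCounting', Nat.count_eq_card_filter_range]
      have h2 : (Finset.range (⌊Y⌋₊ + 1)).filter Nat.Prime ⊆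
          L ∪ (Finset.range (⌊Real.sqrt Y⌋₊ + 1)).erase 0 := by
        intro l hl
        rw [Finset.mem_filter, Finset.mem_range] at hl
        rw [Finset.mem_union]
        rcases lt_or_ge ⌊Real.sqrt Y⌋₊ l with h | h
        · left
          rw [Finset.mem_filter, Finset.mem_range]
          exact ⟨hl.1, hl.2, h⟩
        · right
          rw [Finset.mem_erase, Finset.mem_range]
          exact ⟨hl.2.pos.ne', by omega⟩
      have h3 := (Finset.card_le_card h2).trans (Finset.card_union_le _ _)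
      rwa [Finset.card_erase_of_mem (by simp), Finset.card_range, Nat.add_sub_cancel] at h3
    have h2 : ((Nat.primeCounting ⌊Y⌋₊ : ℕ) : ℝ) ≤ L.card + Real.sqrt Y := by
      have h3 : (⌊Real.sqrt Y⌋₊ : ℝ) ≤ Real.sqrt Y := Nat.floor_le hs0
      have h4 : ((Nat.primeCounting ⌊Y⌋₊ : ℕ) : ℝ) ≤ (L.card : ℝ) + (⌊Real.sqrt Y⌋₊ : ℝ) := by
        exact_mod_cast h1
      linarith
    have h3 : 2 * Real.sqrt Y ≤ ((Nat.primeCounting ⌊Y⌋₊ : ℕ) : ℝ) := by
      refine le_trans ?_ hpi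
      rw [le_div_iff₀ hlYpos]
      have h4 : Real.log (Y + 2) ≤ Real.log Y + 1 := by
        have h5 : Y + 2 ≤ Y * Real.exp 1 := by
          have : (2 : ℝ) ≤ Real.exp 1 := by
            have := Real.add_one_le_exp (1 : ℝ)
            linarith
          nlinarith
        calc Real.log (Y + 2) ≤ Real.log (Y * Real.exp 1) :=
              Real.log_le_log (by linarith) h5
          _ = Real.log Y + 1 := by
              rw [Real.log_mul hY0.ne' (Real.exp_pos 1).ne', Real.log_exp]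
      have h5 : (0.6931471803 : ℝ) < Real.log 2 := Real.log_two_gt_d9
      have h6 : 2 * Real.sqrt Y * Real.log Y ≤ 2 * z ^ 4 * (8 * z) := by
        rw [hz4]
        exact mul_le_mul_of_nonneg_left hlY (by positivity)
      have h7 : (0.69 : ℝ) * (z ^ 8 - 1) - (8 * z + 1) ≤
          (Y - 1) * Real.log 2 - Real.log (Y + 2) := by
        rw [hz8]
        have : 0 < Y - 1 := by linarith
        nlinarith
      have h8 : 2 * z ^ 4 * (8 * z) ≤ (0.69 : ℝ) * (z ^ 8 - 1) - (8 * z + 1) := by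
        have e1 : z ^ 8 = z ^ 5 * z ^ 3 := by ring
        have e2 : (125 : ℝ) ≤ z ^ 3 := by
          calc (125 : ℝ) = 5 ^ 3 := by norm_num
            _ ≤ z ^ 3 := pow_le_pow_left₀ (by norm_num) hz5 3
        have e3 : (3125 : ℝ) ≤ z ^ 5 := by
          calc (3125 : ℝ) = 5 ^ 5 := by norm_num
            _ ≤ z ^ 5 := pow_le_pow_left₀ (by norm_num) hz5 5
        have e4 : z ^ 5 * 125 ≤ z ^ 8 := by
          rw [e1]
          exact mul_le_mul_of_nonneg_left e2 (by positivity)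
        have e5 : z ≤ z ^ 5 := by
          calc z = z ^ 1 := (pow_one z).symm
            _ ≤ z ^ 5 := pow_le_pow_right₀ (by linarith) (by norm_num)
        nlinarith
      linarith
    linarith
  · have h1 : L ⊆ (Finset.range (⌊Y⌋₊ + 1)).erase 0 := by
      intro l hl
      rw [Finset.mem_filter] at hl
      rw [Finset.mem_erase]
      exact ⟨hl.2.1.pos.ne', hl.1⟩
    have h2 := Finset.card_le_card h1
    rw [Finset.card_erase_of_mem (by simp), Finset.card_range, Nat.add_sub_cancel] at h2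
    exact le_trans (by exact_mod_cast h2) (Nat.floor_le hY0.le)

/-- a prime of the set which does not divide a given number -/
lemma good_prime {Y : ℝ} (hY : 1000000 ≤ Y) {L : Finset ℕ}
    (hL : ∀ l ∈ L, l.Prime ∧ Real.sqrt Y < l ∧ (l : ℝ) ≤ Y) (hc : Real.sqrt Y ≤ L.card)
    {n : ℤ} (hn : n ≠ 0) (hn2 : |(n : ℝ)| < Real.exp (Real.sqrt Y)) :
    ∃ l ∈ L, ¬ (l : ℤ) ∣ n := by
  by_contra h
  push Not at h
  have hs1 : 1000 ≤ Real.sqrt Y := by
    apply Real.le_sqrt_of_sq_le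
    linarith
  have h1 : ∏ l ∈ L, l ∣ n.natAbs := by
    apply Finset.prod_primes_dvd
    · intro l hl
      exact (hL l hl).1.prime
    · intro l hl
      exact Int.natCast_dvd.mp (h l hl)
  have h2 : ∏ l ∈ L, l ≤ n.natAbs := Nat.le_of_dvd (Int.natAbs_pos.mpr hn) h1
  have h3 : ((∏ l ∈ L, l : ℕ) : ℝ) ≤ |(n : ℝ)| := by
    calc ((∏ l ∈ L, l : ℕ) : ℝ) ≤ (n.natAbs : ℝ) := by exact_mod_cast h2
      _ = |(n : ℝ)| := by rw [Nat.cast_natAbs]; simp
  have h4 : Real.exp (L.card : ℝ) ≤ ((∏ l ∈ L, l : ℕ) : ℝ) := by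
    push_cast
    calc Real.exp (L.card : ℝ) = ∏ _l ∈ L, Real.exp 1 := by
          rw [Finset.prod_const, ← Real.exp_nat_mul, mul_one]
      _ ≤ ∏ l ∈ L, (l : ℝ) := by
          apply Finset.prod_le_prod
          · intro l _
            positivity
          · intro l hl
            have := (hL l hl).2.1
            have := Real.exp_one_lt_d9
            linarith
  have h5 : Real.exp (Real.sqrt Y) ≤ Real.exp (L.card : ℝ) := Real.exp_le_exp.mpr hc
  linarith

end Pool.Agent.Y913.Vm
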