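import Pool.Agent.Y913.Vm.Filt

/-!
Integral points of a system of equations in one residue class: a function all of whose tangent
derivatives vanish at one of them vanishes at the others.
-/

set_option autoImplicit false

namespace Pool.Agent.Y913.Vm

open Finset MvPolynomial Matrix

lemma eval_ev {σ : Type} (y : σ → Polynomial ℤ) (r : ℤ) (G : Rg σ) :
    (ev y G).eval r = eval (fun i => (y i).eval r) G := by
  induction G using MvPolynomial.induction_on with
  | C a =>
    rw [ev_C, eval_C]
    simp
  | add G H hG hH => rw [map_add, map_add, Polynomial.eval_add, hG, hH]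
  | mul_X G n hG => rw [map_mul, map_mul, Polynomial.eval_mul, hG, ev_X, eval_X]

lemma ev_C' {σ : Type} (p : σ → ℤ) (G : Rg σ) :
    ev (fun i => (Polynomial.C (p i) : Polynomial ℤ)) G = Polynomial.C (eval p G) := by
  induction G using MvPolynomial.induction_on with
  | C a =>
    rw [ev_C, eval_C]
    simp
  | add G H hG hH => rw [map_add, map_add, Polynomial.C_add, hG, hH]
  | mul_X G n hG => rw [map_mul, map_mul, Polynomial.C_mul, hG, ev_X, eval_X]

section

variable {σ κ ν : Type} [Fintype σ] [DecidableEq σ] [Fintype κ] [DecidableEq κ] [Fintype ν]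
  [DecidableEq ν]

omit [Fintype ν] [DecidableEq ν] in
/-- the approximate solution path -/
lemma newton_path (u : ν → σ) (ι : κ → ν) (F : κ → Rg σ) (p ω : σ → ℤ) (l : ℤ)
    (B : κ → κ → ℤ) (hinj : Function.Injective (fun b => u (ι b)))
    (hF : ∀ a, eval p (F a) = 0)
    (hB : ∀ a c, l ∣ (∑ b, eval p (pderiv (u (ι b)) (F a)) * B b c) - if a = c then 1 else 0) :
    ∀ k, 1 ≤ k → ∃ y : σ → Polynomial ℤ, (∀ i, y i - Polynomial.C (p i) ∈ (pf l).W 1) ∧
      (∀ a, ev y (F a) ∈ (pf l).W k) ∧
      (∀ i, (∀ b, i ≠ u (ι b)) → y i = Polynomial.C (p i) + Polynomial.C (ω i) * Polynomial.X) ∧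
      ∀ i, (y i).eval 0 = p i := by
  intro k hk
  induction k, hk using Nat.le_induction with
  | base =>
    let y : σ → Polynomial ℤ := fun i => Polynomial.C (p i) + Polynomial.C (ω i) * Polynomial.X
    have hy : ∀ i, y i - Polynomial.C (p i) ∈ (pf l).W 1 := by
      intro i
      simp only [y, add_sub_cancel_left]
      exact pf_X_mul _
    refine ⟨y, hy, ?_, fun i _ => rfl, ?_⟩
    · intro a
      have h1 := taylor0 (pf l) 1 y (fun i => Polynomial.C (p i)) hy (F a)
      rw [ev_C', hF, Polynomial.C_0, sub_zero] at h1
      exact h1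
    · intro i
      simp [y]
  | succ k hk ih =>
    obtain ⟨y, h1, h2, h3, h4⟩ := ih
    let δ : σ → Polynomial ℤ := fun i => ∑ b, ∑ c,
      if i = u (ι b) then Polynomial.C (B b c) * ev y (F c) else 0
    have hδ : ∀ i, δ i ∈ (pf l).W k := by
      intro i
      apply sum_mem
      intro b _
      apply sum_mem
      intro c _
      split_ifs
      · exact (pf l).mul_left k _ _ (h2 c)
      · exact ((pf l).W k).zero_mem
    let y' : σ → Polynomial ℤ := fun i => y i - δ i
    have hy' : ∀ i, y' i - Polynomial.C (p i) ∈ (pf l).W 1 := by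
      intro i
      have : y' i - Polynomial.C (p i) = (y i - Polynomial.C (p i)) - δ i := by
        simp only [y']
        ring
      rw [this]
      exact ((pf l).W 1).sub_mem (h1 i) ((pf l).mono 1 k _ hk (hδ i))
    refine ⟨y', hy', ?_, ?_, ?_⟩
    · intro a
      have e1 := taylor1 (pf l) k y' y (fun i => Polynomial.C (p i)) (by
        intro i
        have : y' i - y i = -δ i := by simp only [y']; ring
        rw [this]
        exact ((pf l).W k).neg_mem (hδ i)) hy' h1 (F a)
      have e2 : ∑ i, ev (fun i => (Polynomial.C (p i) : Polynomial ℤ)) (pderiv i (F a)) *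
          (y' i - y i) = -∑ c, Polynomial.C (∑ b, eval p (pderiv (u (ι b)) (F a)) * B b c) *
            ev y (F c) := by
        have e3 : ∀ i, ev (fun i => (Polynomial.C (p i) : Polynomial ℤ)) (pderiv i (F a)) *
            (y' i - y i) = -∑ b, if i = u (ι b) then ∑ c,
              Polynomial.C (eval p (pderiv (u (ι b)) (F a)) * B b c) * ev y (F c)
              else 0 := by
          intro i
          have e4 : y' i - y i = -δ i := by simp only [y']; ring
          rw [e4, ev_C', mul_neg]
          congr 1
          simp only [δ]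
          rw [Finset.mul_sum]
          apply Finset.sum_congr rfl
          intro b _
          split_ifs with hi
          · subst hi
            rw [Finset.mul_sum]
            apply Finset.sum_congr rfl
            intro c _
            rw [Polynomial.C_mul]
            ring
          · simp
        rw [Finset.sum_congr rfl (fun i _ => e3 i), Finset.sum_neg_distrib]
        congr 1
        rw [Finset.sum_comm]
        simp only [Finset.sum_ite_eq', Finset.mem_univ, if_true]
        rw [Finset.sum_comm]
        apply Finset.sum_congr rfl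
        intro c _
        rw [map_sum, Finset.sum_mul]
      rw [e2] at e1
      have e5 : (∑ c, Polynomial.C (∑ b, eval p (pderiv (u (ι b)) (F a)) * B b c) *
          ev y (F c)) - ev y (F a) ∈ (pf l).W (k + 1) := by
        have e6 : (∑ c, Polynomial.C (∑ b, eval p (pderiv (u (ι b)) (F a)) * B b c) *
            ev y (F c)) - ev y (F a) = ∑ c, Polynomial.C
            ((∑ b, eval p (pderiv (u (ι b)) (F a)) * B b c) - if a = c then 1 else 0) *
            ev y (F c) := by
          simp only [Polynomial.C_sub, sub_mul, Finset.sum_sub_distrib]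
          congr 1
          rw [Finset.sum_eq_single a]
          · simp
          · intro c _ hc
            rw [if_neg (Ne.symm hc)]
            simp
          · intro h
            exact absurd (Finset.mem_univ a) h
        rw [e6]
        apply sum_mem
        intro c _
        rw [add_comm k 1]
        exact (pf l).mul 1 k _ _ (pf_C (by rw [pow_one]; exact hB a c)) (h2 c)
      have e7 : ev y' (F a) = (ev y' (F a) - ev y (F a) -
          -∑ c, Polynomial.C (∑ b, eval p (pderiv (u (ι b)) (F a)) * B b c) * ev y (F c)) -
          ((∑ c, Polynomial.C (∑ b, eval p (pderiv (u (ι b)) (F a)) * B b c) *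
          ev y (F c)) - ev y (F a)) := by ring
      rw [e7]
      exact ((pf l).W (k + 1)).sub_mem e1 e5
    · intro i hi
      have : δ i = 0 := by
        simp only [δ]
        apply Finset.sum_eq_zero
        intro b _
        apply Finset.sum_eq_zero
        intro c _
        rw [if_neg (hi b)]
      simp only [y', this, sub_zero]
      exact h3 i hi
    · intro i
      simp only [y', δ, Polynomial.eval_sub, h4]
      rw [Polynomial.eval_finsetSum]
      have : ∀ b, Polynomial.eval 0 (∑ c, if i = u (ι b) then
          Polynomial.C (B b c) * ev y (F c) else 0) = 0 := by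
        intro b
        rw [Polynomial.eval_finsetSum]
        apply Finset.sum_eq_zero
        intro c _
        split_ifs
        · rw [Polynomial.eval_mul, eval_ev]
          simp only [h4]
          rw [hF, mul_zero]
        · simp
      rw [Finset.sum_eq_zero (fun b _ => this b), sub_zero]

omit [Fintype ν] [DecidableEq ν] in
/-- uniqueness of the integral point -/
lemma newton_unique (u : ν → σ) (ι : κ → ν) (F : κ → Rg σ) (p x z : σ → ℤ) (l : ℤ) (k : ℕ)
    (B : κ → κ → ℤ) (hinj : Function.Injective (fun b => u (ι b)))
    (hB : ∀ a c, l ∣ (∑ b, B a b * eval p (pderiv (u (ι c)) (F b))) - if a = c then 1 else 0)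
    (hx : ∀ i, l ∣ x i - p i) (hz : ∀ i, l ∣ z i - p i)
    (hFx : ∀ a, l ^ k ∣ eval x (F a)) (hFz : ∀ a, l ^ k ∣ eval z (F a))
    (hxz : ∀ i, (∀ b, i ≠ u (ι b)) → x i = z i) : ∀ i, l ^ k ∣ x i - z i := by
  have key : ∀ j, 1 ≤ j → j ≤ k → ∀ i, l ^ j ∣ x i - z i := by
    intro j hj
    induction j, hj using Nat.le_induction with
    | base =>
      intro _ i
      rw [pow_one]
      have := dvd_sub (hx i) (hz i)
      rwa [sub_sub_sub_cancel_right] at this
    | succ j hj ih =>
      intro hjk
      have ih' := ih (by omega)
      have e1 : ∀ a, l ^ (j + 1) ∣ ∑ b, eval p (pderiv (u (ι b)) (F a)) *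
          (x (u (ι b)) - z (u (ι b))) := by
        intro a
        have e2 := taylor1 (zf l) j x z p (fun i => mem_zf.mpr (ih' i))
          (fun i => mem_zf.mpr (by rw [pow_one]; exact hx i))
          (fun i => mem_zf.mpr (by rw [pow_one]; exact hz i)) (F a)
        rw [mem_zf] at e2
        simp only [ev_int] at e2
        have e3 : ∑ i, eval p (pderiv i (F a)) * (x i - z i) =
            ∑ b, eval p (pderiv (u (ι b)) (F a)) * (x (u (ι b)) - z (u (ι b))) := by
          symm
          rw [← Finset.sum_image (s := Finset.univ) (g := fun b => u (ι b))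
            (f := fun i => eval p (pderiv i (F a)) * (x i - z i)) (fun a _ b _ h => hinj h)]
          apply Finset.sum_subset (Finset.subset_univ _)
          intro i _ hi
          rw [Finset.mem_image] at hi
          push Not at hi
          rw [hxz i (fun b h => hi b (Finset.mem_univ b) h.symm), sub_self, mul_zero]
        have e4 : l ^ (j + 1) ∣ eval x (F a) - eval z (F a) :=
          dvd_sub ((pow_dvd_pow l hjk).trans (hFx a)) ((pow_dvd_pow l hjk).trans (hFz a))
        rw [← e3]
        have e5 := dvd_sub e4 e2
        rwa [sub_sub_cancel] at e5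
      intro i
      by_cases hi : ∀ b, i ≠ u (ι b)
      · rw [hxz i hi, sub_self]
        exact dvd_zero _
      · push Not at hi
        obtain ⟨c, rfl⟩ := hi
        have e2 : l ^ (j + 1) ∣ ∑ a, B c a * ∑ b, eval p (pderiv (u (ι b)) (F a)) *
            (x (u (ι b)) - z (u (ι b))) := Finset.dvd_sum (fun a _ => (e1 a).mul_left _)
        have e3 : ∑ a, B c a * ∑ b, eval p (pderiv (u (ι b)) (F a)) *
            (x (u (ι b)) - z (u (ι b))) = ∑ b, (∑ a, B c a *
              eval p (pderiv (u (ι b)) (F a))) * (x (u (ι b)) - z (u (ι b))) := by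
          simp only [Finset.mul_sum, Finset.sum_mul]
          rw [Finset.sum_comm]
          apply Finset.sum_congr rfl
          intro b _
          apply Finset.sum_congr rfl
          intro a _
          ring
        have e4 : l ^ (j + 1) ∣ ∑ b, ((∑ a, B c a * eval p (pderiv (u (ι b)) (F a))) -
            if c = b then 1 else 0) * (x (u (ι b)) - z (u (ι b))) := by
          apply Finset.dvd_sum
          intro b _
          rw [add_comm j 1, pow_add, pow_one]
          exact mul_dvd_mul (hB c b) (ih' _)
        have e5 : ∑ b, ((∑ a, B c a * eval p (pderiv (u (ι b)) (F a))) -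
            if c = b then 1 else 0) * (x (u (ι b)) - z (u (ι b))) =
            (∑ b, (∑ a, B c a * eval p (pderiv (u (ι b)) (F a))) *
              (x (u (ι b)) - z (u (ι b)))) - (x (u (ι c)) - z (u (ι c))) := by
          simp only [sub_mul, Finset.sum_sub_distrib]
          congr 1
          simp
        rw [e5] at e4
        rw [e3] at e2
        have e6 := dvd_sub e2 e4
        rwa [sub_sub_cancel] at e6
  rcases Nat.eq_zero_or_pos k with rfl | hk
  · intro i
    rw [pow_zero]
    exact one_dvd _
  · exact key k hk le_rfl

/-- inverse of the Jacobian matrix modulo `l` -/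
lemma exists_inv {l : ℕ} (hl : l.Prime) (M : Matrix κ κ ℤ) (hM : ¬ (l : ℤ) ∣ M.det) :
    ∃ B : Matrix κ κ ℤ, (∀ a c, (l : ℤ) ∣ (∑ b, M a b * B b c) - if a = c then 1 else 0) ∧
      ∀ a c, (l : ℤ) ∣ (∑ b, B a b * M b c) - if a = c then 1 else 0 := by
  have h1 : IsCoprime (l : ℤ) M.det := by
    rw [Int.isCoprime_iff_gcd_eq_one]
    have h2 : Nat.Coprime l M.det.natAbs := by
      rw [Nat.Prime.coprime_iff_not_dvd hl]
      intro h
      exact hM (Int.natCast_dvd.mpr h)
    exact h2
  obtain ⟨e, d, hed⟩ := h1
  refine ⟨d • M.adjugate, ?_, ?_⟩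
  · intro a c
    have h2 := congrFun (congrFun (Matrix.mul_adjugate M) a) c
    rw [Matrix.mul_apply, Matrix.smul_apply, Matrix.one_apply, smul_eq_mul] at h2
    have h3 : ∑ b, M a b * (d • M.adjugate) b c = d * ∑ b, M a b * M.adjugate b c := by
      rw [Finset.mul_sum]
      apply Finset.sum_congr rfl
      intro b _
      rw [Matrix.smul_apply, smul_eq_mul]
      ring
    rw [h3, h2]
    split_ifs
    · rw [mul_one, ← hed]
      exact ⟨-e, by ring⟩
    · simp
  · intro a c
    have h2 := congrFun (congrFun (Matrix.adjugate_mul M) a) c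
    rw [Matrix.mul_apply, Matrix.smul_apply, Matrix.one_apply, smul_eq_mul] at h2
    have h3 : ∑ b, (d • M.adjugate) a b * M b c = d * ∑ b, M.adjugate a b * M b c := by
      rw [Finset.mul_sum]
      apply Finset.sum_congr rfl
      intro b _
      rw [Matrix.smul_apply, smul_eq_mul]
      ring
    rw [h3, h2]
    split_ifs
    · rw [mul_one, ← hed]
      exact ⟨-e, by ring⟩
    · simp

end

end Pool.Agent.Y913.Vm
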