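import Pool.Agent.Y913.Vm.Newt

/-!
From an auxiliary polynomial in the free variables to a new equation with non-vanishing Jacobian.
-/

set_option autoImplicit false

namespace Pool.Agent.Y913.Vm

open Finset MvPolynomial Matrix

/-- iterated partial derivatives -/
noncomputable def pw {σ ν : Type} (u : ν → σ) (w : List ν) (G : Rg σ) : Rg σ :=
  w.foldr (fun r H => pderiv (u r) H) G

lemma pw_append {σ ν : Type} (u : ν → σ) (w : List ν) (t : ν) (G : Rg σ) :
    pw u (w ++ [t]) G = pw u w (pderiv (u t) G) := by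
  unfold pw
  rw [List.foldr_append]
  rfl

lemma pderiv_comm' {σ : Type} (i j : σ) (G : Rg σ) :
    pderiv i (pderiv j G) = pderiv j (pderiv i G) := by
  classical
  have h : ⁅(pderiv i : Derivation ℤ (Rg σ) (Rg σ)), (pderiv j : Derivation ℤ (Rg σ) (Rg σ))⁆ =
      0 := by
    apply MvPolynomial.derivation_ext
    intro k
    rw [Derivation.commutator_apply, Derivation.zero_apply]
    have : ∀ a b : σ, pderiv a (pderiv b (X k : Rg σ)) = 0 := by
      intro a b
      by_cases hk : k = b
      · subst hk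
        rw [pderiv_X_self]
        exact pderiv_one
      · rw [pderiv_X_of_ne hk, map_zero]
    rw [this, this, sub_zero]
  have h2 := congrArg (fun D : Derivation ℤ (Rg σ) (Rg σ) => D G) h
  simp only [Derivation.commutator_apply, Derivation.zero_apply] at h2
  exact sub_eq_zero.mp h2

lemma pderiv_pw {σ ν : Type} (u : ν → σ) (i : σ) (w : List ν) {G : Rg σ}
    (h : pderiv i G = 0) : pderiv i (pw u w G) = 0 := by
  induction w with
  | nil => exact h
  | cons r w ih =>
    show pderiv i (pderiv (u r) (pw u w G)) = 0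
    rw [pderiv_comm', ih, map_zero]

/-- a nonzero polynomial has an iterated partial derivative which does not vanish at a given
point -/
lemma exists_pw {φ : Type} (h : φ → ℤ) (d : ℕ) :
    ∀ H : Rg φ, H ≠ 0 → H.totalDegree ≤ d → ∃ w : List φ, w.length ≤ d ∧
      eval h (pw id w H) ≠ 0 := by
  classical
  induction d with
  | zero =>
    intro H hH hd
    refine ⟨[], by simp, ?_⟩
    have h1 := MvPolynomial.totalDegree_eq_zero_iff_eq_C.mp (by omega : H.totalDegree = 0)
    show eval h H ≠ 0
    rw [h1, eval_C]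
    intro h2
    apply hH
    rw [h1, h2, C_0]
  | succ d ih =>
    intro H hH hd
    by_cases h0 : eval h H = 0
    · have h1 : ∃ m ∈ H.support, m ≠ 0 := by
        by_contra hc
        push Not at hc
        have h2 : H = C (coeff 0 H) := by
          ext m
          rw [coeff_C]
          split_ifs with hm
          · rw [hm]
          · by_contra h3
            exact hm (hc m (mem_support_iff.mpr h3)).symm
        rw [h2, eval_C] at h0
        apply hH
        rw [h2, h0, C_0]
      obtain ⟨m, hm, hm0⟩ := h1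
      obtain ⟨t, ht⟩ : ∃ t, m t ≠ 0 := by
        by_contra hc
        push Not at hc
        exact hm0 (Finsupp.ext hc)
      have h2 : pderiv t H ≠ 0 := by
        intro h3
        have h4 := coeff_pderiv (i := t) H (m - Finsupp.single t 1)
        rw [h3, coeff_zero] at h4
        have h5 : m - Finsupp.single t 1 + Finsupp.single t 1 = m := by
          apply tsub_add_cancel_of_le
          rw [Finsupp.single_le_iff]
          omega
        rw [h5] at h4
        have h6 : coeff m H ≠ 0 := mem_support_iff.mp hm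
        have h7 : (((m - Finsupp.single t 1 : φ →₀ ℕ) t : ℕ) : ℤ) + 1 ≠ 0 := by positivity
        exact (mul_ne_zero h6 h7) h4.symm
      have h3 : (pderiv t H).totalDegree ≤ d := by
        apply Finset.sup_le
        intro m' hm'
        rw [mem_support_iff, coeff_pderiv] at hm'
        have h4 : m' + Finsupp.single t 1 ∈ H.support := by
          rw [mem_support_iff]
          exact left_ne_zero_of_mul hm'
        have h5 := MvPolynomial.le_totalDegree h4
        have h6 : (m' + Finsupp.single t 1).sum (fun _ e => e) = m'.sum (fun _ e => e) + 1 := by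
          rw [Finsupp.sum_add_index' (fun _ => rfl) (fun _ _ _ => rfl), Finsupp.sum_single_index rfl]
        rw [h6] at h5
        omega
      obtain ⟨w, hw1, hw2⟩ := ih (pderiv t H) h2 h3
      refine ⟨w ++ [t], by simp; omega, ?_⟩
      rw [pw_append]
      exact hw2
    · exact ⟨[], by simp, h0⟩

section

variable {π κ ν : Type} [Fintype κ] [DecidableEq κ] [Fintype ν] [DecidableEq ν]

/-- the generic polynomial in the free variables -/
noncomputable def gen (π : Type) (ι : κ → ν) (D : ℕ) : Rg ((π ⊕ (Fv ι → Fin D)) ⊕ ν) :=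
  ∑ m : Fv ι → Fin D, X (Sum.inl (Sum.inr m)) * ∏ r : Fv ι, X (Sum.inr r.1) ^ (m r : ℕ)

/-- the point -/
def pt (z : π → ℤ) {M : Type} (G : M → ℤ) (P : ν → ℤ) : (π ⊕ M) ⊕ ν → ℤ :=
  Sum.elim (Sum.elim z G) P

omit [Fintype κ] [DecidableEq κ] [Fintype ν] [DecidableEq ν] in
lemma pderiv_prod_X {σ φ : Type} (s : Finset φ) (g : φ → σ) (e : φ → ℕ) (i : σ)
    (h : ∀ r ∈ s, g r ≠ i) : pderiv i (∏ r ∈ s, (X (g r) : Rg σ) ^ e r) = 0 := by
  classical
  induction s using Finset.induction_on with
  | empty =>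
    rw [Finset.prod_empty]
    exact pderiv_one
  | insert j s hj ih =>
    rw [Finset.prod_insert hj, Derivation.leibniz,
      ih (fun r hr => h r (Finset.mem_insert_of_mem hr)), smul_zero, zero_add, pderiv_pow,
      pderiv_X_of_ne (h j (Finset.mem_insert_self _ _)), mul_zero, smul_zero]

omit [DecidableEq κ] in
lemma pderiv_gen (ι : κ → ν) (D : ℕ) (b : κ) :
    pderiv (Sum.inr (ι b)) (gen π ι D) = 0 := by
  unfold gen
  rw [map_sum]
  apply Finset.sum_eq_zero
  intro m _
  rw [Derivation.leibniz, pderiv_X_of_ne (by simp), smul_zero, add_zero, pderiv_prod_X,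
    smul_zero]
  rintro r _ h
  exact r.2 b (Sum.inr_injective h)

/-- the specialisation to the free variables -/
noncomputable def spe (ι : κ → ν) {M : Type} (z : π → ℤ) (G : M → ℤ) (P : ν → ℤ) : Rg ((π ⊕ M) ⊕ ν) →+* Rg (Fv ι) :=
  ev (Sum.elim (Sum.elim (fun i => C (z i)) (fun m => C (G m)))
    (fun r => if h : ∀ b, r ≠ ι b then X ⟨r, h⟩ else C (P r)))

lemma eval_spe (ι : κ → ν) {M : Type} (z : π → ℤ) (G : M → ℤ) (P : ν → ℤ) (Q : Rg ((π ⊕ M) ⊕ ν)) :
    eval (fun r : Fv ι => P r) (spe ι z G P Q) = eval (pt z G P) Q := by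
  unfold spe
  rw [eval_ev']
  congr 2
  funext i
  rcases i with (i | m) | r
  · simp [pt]
  · simp [pt]
  · simp only [Sum.elim_inr, pt]
    split_ifs
    · rw [eval_X]
    · rw [eval_C]

lemma pderiv_spe (ι : κ → ν) {M : Type} (z : π → ℤ) (G : M → ℤ) (P : ν → ℤ) (t : Fv ι) (Q : Rg ((π ⊕ M) ⊕ ν)) :
    pderiv t (spe ι z G P Q) = spe ι z G P (pderiv (Sum.inr t.1) Q) := by
  classical
  induction Q using MvPolynomial.induction_on with
  | C a =>
    unfold spe
    rw [ev_C, pderiv_C, map_zero]
    have : ((a : ℤ) : Rg (Fv ι)) = C a := by simp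
    rw [this, pderiv_C]
  | add G H hG hH => simp only [map_add, hG, hH]
  | mul_X Q n hQ =>
    rw [map_mul, Derivation.leibniz, Derivation.leibniz, map_add, hQ]
    simp only [smul_eq_mul, map_mul]
    congr 1
    congr 1
    rcases n with (i | m) | r
    · have h1 : spe ι z G P (X (Sum.inl (Sum.inl i))) = C (z i) := by
        unfold spe
        rw [ev_X]
        rfl
      rw [h1, pderiv_C, pderiv_X_of_ne (by simp), map_zero]
    · have h1 : spe ι z G P (X (Sum.inl (Sum.inr m))) = C (G m) := by
        unfold spe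
        rw [ev_X]
        rfl
      rw [h1, pderiv_C, pderiv_X_of_ne (by simp), map_zero]
    · have h1 : spe ι z G P (X (Sum.inr r)) =
          if h : ∀ b, r ≠ ι b then X ⟨r, h⟩ else C (P r) := by
        unfold spe
        rw [ev_X]
        rfl
      rw [h1]
      by_cases hr : ∀ b, r ≠ ι b
      · rw [dif_pos hr]
        by_cases hrt : r = t.1
        · subst hrt
          rw [show pderiv (Sum.inr t.1) (X (Sum.inr t.1) : Rg ((π ⊕ M) ⊕ ν)) = 1 from
            pderiv_X_self _, map_one]
          exact pderiv_X_self _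
        · rw [pderiv_X_of_ne (fun h => hrt (Sum.inr_injective h)), map_zero, pderiv_X_of_ne]
          intro h
          exact hrt (congrArg Subtype.val h)
      · rw [dif_neg hr, pderiv_C, pderiv_X_of_ne, map_zero]
        intro h
        apply hr
        rw [Sum.inr_injective h]
        exact t.2

lemma pw_spe (ι : κ → ν) {M : Type} (z : π → ℤ) (G : M → ℤ) (P : ν → ℤ) (w : List (Fv ι)) (Q : Rg ((π ⊕ M) ⊕ ν)) :
    pw id w (spe ι z G P Q) = spe ι z G P (pw Sum.inr (w.map Subtype.val) Q) := by
  induction w with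
  | nil => rfl
  | cons r w ih =>
    show pderiv r (pw id w (spe ι z G P Q)) =
      spe ι z G P (pderiv (Sum.inr r.1) (pw Sum.inr (w.map Subtype.val) Q))
    rw [ih, pderiv_spe]

lemma spe_gen (ι : κ → ν) (D : ℕ) (z : π → ℤ) (G : (Fv ι → Fin D) → ℤ) (P : ν → ℤ) :
    spe ι z G P (gen π ι D) = ∑ m : Fv ι → Fin D,
      monomial (Finsupp.equivFunOnFinite.symm (fun r => (m r : ℕ))) (G m) := by
  unfold gen
  rw [map_sum]
  apply Finset.sum_congr rfl
  intro m _
  rw [map_mul, map_prod]
  have h1 : spe ι z G P (X (Sum.inl (Sum.inr m))) = C (G m) := by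
    unfold spe
    rw [ev_X]
    rfl
  have h2 : ∀ r : Fv ι, spe ι z G P (X (Sum.inr r.1) ^ (m r : ℕ)) = X r ^ (m r : ℕ) := by
    intro r
    rw [map_pow]
    congr 1
    unfold spe
    rw [ev_X]
    simp only [Sum.elim_inr]
    rw [dif_pos r.2]
  rw [h1, Finset.prod_congr rfl (fun r _ => h2 r), MvPolynomial.monomial_eq]
  congr 1
  rw [Finsupp.prod_fintype _ _ (fun _ => pow_zero _)]
  rfl

/-- **the new equation** -/
theorem new_rel (ι : κ → ν) (F : κ → Rg (π ⊕ ν)) (D : ℕ) (z : π → ℤ) (P : ν → ℤ)
    (hJ : eval (Sum.elim z P) (jd Sum.inr ι F) ≠ 0)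
    (hF : ∀ a, eval (Sum.elim z P) (F a) = 0) (G : (Fv ι → Fin D) → ℤ) (hG : G ≠ 0)
    (hGP : ∑ m, G m * ∏ r : Fv ι, P r ^ (m r : ℕ) = 0) :
    ∃ w : List ν, ∃ t : ν, w.length ≤ Fintype.card (Fv ι) * D ∧
      (∀ a, eval (pt z G P) ((Sum.elim (fun a => rename (Sum.map Sum.inl id) (F a))
        (fun _ : Unit => pw Sum.inr w (gen π ι D))) a) = 0) ∧
      eval (pt z G P) (jd Sum.inr (Sum.elim ι (fun _ : Unit => t))
        (Sum.elim (fun a => rename (Sum.map Sum.inl id) (F a))
        (fun _ : Unit => pw Sum.inr w (gen π ι D)))) ≠ 0 := by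
  classical
  have h1 : spe ι z G P (gen π ι D) ≠ 0 := by
    obtain ⟨m0, hm0⟩ : ∃ m0, G m0 ≠ 0 := by
      by_contra hc
      push Not at hc
      exact hG (funext hc)
    intro h2
    rw [spe_gen] at h2
    have h3 := congrArg (coeff (Finsupp.equivFunOnFinite.symm (fun r => (m0 r : ℕ)))) h2
    rw [coeff_sum, coeff_zero, Finset.sum_eq_single m0] at h3
    · rw [coeff_monomial, if_pos rfl] at h3
      exact hm0 h3
    · intro m _ hm
      rw [coeff_monomial, if_neg]
      intro h4
      apply hm
      funext r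
      have h5 := congrArg (fun d : Fv ι →₀ ℕ => d r) h4
      exact Fin.ext h5
    · intro h
      exact absurd (Finset.mem_univ _) h
  have h2 : (spe ι z G P (gen π ι D)).totalDegree ≤ Fintype.card (Fv ι) * D := by
    rw [spe_gen]
    apply (MvPolynomial.totalDegree_finsetSum_le _)
    intro m _
    refine (MvPolynomial.totalDegree_monomial_le _ _).trans ?_
    rw [Finsupp.sum_fintype _ _ (fun _ => rfl)]
    calc ∑ r, (Finsupp.equivFunOnFinite.symm (fun r => (m r : ℕ))) r ≤ ∑ _r : Fv ι, D :=
          Finset.sum_le_sum (fun r _ => (m r).isLt.le)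
      _ = _ := by rw [Finset.sum_const, Finset.card_univ, smul_eq_mul]
  obtain ⟨w0, hw0, hw1⟩ := exists_pw (fun r : Fv ι => P r) _ _ h1 h2
  rw [pw_spe, eval_spe] at hw1
  have hex : ∃ n : ℕ, ∃ w : List (Fv ι), w.length = n ∧
      eval (pt z G P) (pw Sum.inr (w.map Subtype.val) (gen π ι D)) ≠ 0 := ⟨_, w0, rfl, hw1⟩
  obtain ⟨w1, hw2, hw3⟩ := Nat.find_spec hex
  have hmin : ∀ n < Nat.find hex, ¬ ∃ w : List (Fv ι), w.length = n ∧
      eval (pt z G P) (pw Sum.inr (w.map Subtype.val) (gen π ι D)) ≠ 0 :=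
    fun m hm => Nat.find_min hex hm
  have hle : Nat.find hex ≤ w0.length := Nat.find_min' hex ⟨w0, rfl, hw1⟩
  have h0 : eval (pt z G P) (gen π ι D) = 0 := by
    rw [← hGP]
    unfold gen
    rw [map_sum]
    apply Finset.sum_congr rfl
    intro m _
    rw [map_mul, map_prod, eval_X]
    congr 1
    apply Finset.prod_congr rfl
    intro r _
    rw [map_pow, eval_X]
    rfl
  rcases w1 with _ | ⟨t, w⟩
  · exact absurd h0 hw3
  · have hwz : eval (pt z G P) (pw Sum.inr (w.map Subtype.val) (gen π ι D)) = 0 := by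
      by_contra h3
      rw [List.length_cons] at hw2
      apply hmin w.length (by omega)
      exact ⟨w, rfl, h3⟩
    have hpt : (pt z G P) ∘ (Sum.map Sum.inl id) = Sum.elim z P := by
      funext i
      rcases i with i | r <;> rfl
    have hren : ∀ Q : Rg (π ⊕ ν), eval (pt z G P) (rename (Sum.map Sum.inl id) Q) =
        eval (Sum.elim z P) Q := by
      intro Q
      rw [eval_rename, hpt]
    have hinj : Function.Injective
        (Sum.map Sum.inl id : π ⊕ ν → (π ⊕ (Fv ι → Fin D)) ⊕ ν) :=
      Sum.map_injective.mpr ⟨Sum.inl_injective, Function.injective_id⟩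
    have hJ' : eval (pt z G P) (jd Sum.inr ι (fun a => rename (Sum.map Sum.inl id) (F a))) =
        eval (Sum.elim z P) (jd Sum.inr ι F) := by
      rw [eval_jd, eval_jd]
      congr 1
      ext a b
      simp only [Matrix.of_apply]
      rw [← hren, ← pderiv_rename hinj]
      rfl
    refine ⟨w.map Subtype.val, t.1, ?_, ?_, ?_⟩
    · rw [List.length_map]
      rw [List.length_cons] at hw2
      omega
    · rintro (a | a)
      · show eval (pt z G P) (rename (Sum.map Sum.inl id) (F a)) = 0
        rw [hren, hF]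
      · exact hwz
    · rw [jd_snoc _ _ _ _ _ _ (by rw [hJ']; exact hJ), dd_eq, map_sub, map_mul, hJ']
      have h3 : ∀ b : κ, pderiv (Sum.inr (ι b))
          (pw Sum.inr (w.map Subtype.val) (gen π ι D)) = 0 :=
        fun b => pderiv_pw _ _ _ (pderiv_gen ι D b)
      rw [Finset.sum_eq_zero (fun b _ => Finset.sum_eq_zero (fun a _ => by
        rw [h3 b, mul_zero])), map_zero, sub_zero]
      exact mul_ne_zero hJ hw3

end

end Pool.Agent.Y913.Vm
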