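import Pool.Agent.Y913.Vm.Flow

/-!
Functions which vanish to a given order along the tangent derivations; products of powers.
-/

set_option autoImplicit false

namespace Pool.Agent.Y913.Vm

open Finset MvPolynomial Matrix

section

variable {σ κ ν : Type} [Fintype κ] [DecidableEq κ] [Fintype ν] [DecidableEq ν]

/-- vanishing to order `n` -/
def Van (u : ν → σ) (ι : κ → ν) (F : κ → Rg σ) (p : σ → ℤ) (n : ℕ) (G : Rg σ) : Prop :=
  ∀ w : List ν, w.length ≤ n → eval p (word u ι F w G) = 0

variable {u : ν → σ} {ι : κ → ν} {F : κ → Rg σ} {p : σ → ℤ}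

lemma word_append (w : List ν) (i : ν) (G : Rg σ) :
    word u ι F (w ++ [i]) G = word u ι F w (dd u ι F i G) := by
  unfold word
  rw [List.foldr_append]
  rfl

lemma van_zero {G : Rg σ} : Van u ι F p 0 G ↔ eval p G = 0 := by
  constructor
  · intro h
    exact h [] (by simp)
  · intro h w hw
    have : w = [] := List.length_eq_zero_iff.mp (by omega)
    rw [this]
    exact h

lemma van_succ {n : ℕ} {G : Rg σ} :
    Van u ι F p (n + 1) G ↔ eval p G = 0 ∧ ∀ i, Van u ι F p n (dd u ι F i G) := by
  constructor
  · intro h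
    refine ⟨h [] (by simp), ?_⟩
    intro i w hw
    rw [← word_append]
    exact h _ (by simp; omega)
  · rintro ⟨h1, h2⟩ w hw
    rcases List.eq_nil_or_concat w with rfl | ⟨w', i, rfl⟩
    · exact h1
    · rw [List.concat_eq_append, word_append]
      exact h2 i w' (by simp at hw; omega)

lemma van_mono {n : ℕ} {G : Rg σ} (h : Van u ι F p (n + 1) G) : Van u ι F p n G :=
  fun w hw => h w (by omega)

lemma van_z (n : ℕ) : Van u ι F p n 0 := by
  induction n with
  | zero => rw [van_zero, map_zero]
  | succ n ih =>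
    rw [van_succ]
    refine ⟨map_zero _, ?_⟩
    intro i
    rw [map_zero]
    exact ih

lemma van_add {n : ℕ} {G H : Rg σ} (hG : Van u ι F p n G) (hH : Van u ι F p n H) :
    Van u ι F p n (G + H) := by
  induction n generalizing G H with
  | zero =>
    rw [van_zero] at *
    rw [map_add, hG, hH, add_zero]
  | succ n ih =>
    rw [van_succ] at *
    refine ⟨by rw [map_add, hG.1, hH.1, add_zero], ?_⟩
    intro i
    rw [map_add]
    exact ih (hG.2 i) (hH.2 i)

lemma van_mul {n : ℕ} (Q : Rg σ) {G : Rg σ} (hG : Van u ι F p n G) :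
    Van u ι F p n (Q * G) := by
  induction n generalizing Q G with
  | zero =>
    rw [van_zero] at *
    rw [map_mul, hG, mul_zero]
  | succ n ih =>
    have hG' := van_mono hG
    rw [van_succ] at *
    refine ⟨by rw [map_mul, hG.1, mul_zero], ?_⟩
    intro i
    rw [Derivation.leibniz, smul_eq_mul, smul_eq_mul]
    apply van_add (ih Q (hG.2 i))
    rw [mul_comm]
    exact ih _ hG'

lemma van_sum {J : Type} (s : Finset J) {n : ℕ} {G : J → Rg σ}
    (h : ∀ j ∈ s, Van u ι F p n (G j)) : Van u ι F p n (∑ j ∈ s, G j) := by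
  classical
  induction s using Finset.induction_on with
  | empty =>
    rw [Finset.sum_empty]
    exact van_z n
  | insert j s hj ih =>
    rw [Finset.sum_insert hj]
    exact van_add (h j (Finset.mem_insert_self _ _))
      (ih (fun k hk => h k (Finset.mem_insert_of_mem hk)))

lemma van_cancel {n : ℕ} {Q G : Rg σ} (hQ : eval p Q ≠ 0) (h : Van u ι F p n (Q * G)) :
    Van u ι F p n G := by
  induction n generalizing G with
  | zero =>
    rw [van_zero] at *
    rw [map_mul] at h
    exact (mul_eq_zero.mp h).resolve_left hQ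
  | succ n ih =>
    have hG : Van u ι F p n G := ih (van_mono h)
    rw [van_succ] at *
    refine ⟨?_, ?_⟩
    · have := h.1
      rw [map_mul] at this
      exact (mul_eq_zero.mp this).resolve_left hQ
    · intro i
      apply ih
      have h1 := h.2 i
      rw [Derivation.leibniz, smul_eq_mul, smul_eq_mul] at h1
      have h2 : Van u ι F p n (-1 * (G * dd u ι F i Q)) := by
        apply van_mul
        rw [mul_comm]
        exact van_mul _ hG
      have h3 := van_add h1 h2
      have h4 : Q * dd u ι F i G + G * dd u ι F i Q + -1 * (G * dd u ι F i Q) =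
          Q * dd u ι F i G := by ring
      rwa [h4] at h3

/-- parameters -/
lemma van_param (n : ℕ) {s : σ} (hs : ∀ r, s ≠ u r) :
    Van u ι F p n (X s - C (p s)) := by
  have h0 : ∀ i, dd u ι F i (X s - C (p s)) = 0 := by
    intro i
    apply dd_const
    intro r
    rw [map_sub, pderiv_C, pderiv_X_of_ne (hs r), sub_zero]
  rcases n with _ | n
  · rw [van_zero]
    simp
  · rw [van_succ]
    refine ⟨by simp, ?_⟩
    intro i
    rw [h0]
    exact van_z n

/-- a product of powers of the variables `u r` -/
noncomputable def mn (u : ν → σ) (a : ν → ℕ) : Rg σ := ∏ r, X (u r) ^ a r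

/-- the product of the other variables -/
noncomputable def om (u : ν → σ) (r : ν) : Rg σ := ∏ r' ∈ Finset.univ.erase r, X (u r')

omit [Fintype κ] [DecidableEq κ] [Fintype ν] in
lemma pderiv_prod_ne (hu : Function.Injective u) (a : ν → ℕ) (r : ν) (s : Finset ν)
    (hs : r ∉ s) : pderiv (u r) (∏ r' ∈ s, (X (u r') : Rg σ) ^ a r') = 0 := by
  induction s using Finset.induction_on with
  | empty =>
    rw [Finset.prod_empty]
    exact pderiv_one
  | insert j s hj ih =>
    rw [Finset.prod_insert hj, Derivation.leibniz, ih (fun h => hs (Finset.mem_insert_of_mem h)),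
      smul_zero, zero_add]
    have hne : j ≠ r := by
      rintro rfl
      exact hs (Finset.mem_insert_self _ _)
    rw [pderiv_pow, pderiv_X_of_ne (fun h => hne (hu h)), mul_zero, smul_zero]

omit [Fintype κ] [DecidableEq κ] in
lemma om_mul_pderiv (hu : Function.Injective u) (a : ν → ℕ) (r : ν) :
    (∏ r', (X (u r') : Rg σ)) * pderiv (u r) (mn u a) = C (a r : ℤ) * om u r * mn u a := by
  unfold mn om
  rw [← Finset.mul_prod_erase Finset.univ (fun r' => (X (u r') : Rg σ) ^ a r')
    (Finset.mem_univ r), ← Finset.mul_prod_erase Finset.univ (fun r' => (X (u r') : Rg σ))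
    (Finset.mem_univ r), Derivation.leibniz, pderiv_prod_ne hu a r _ (Finset.notMem_erase _ _),
    smul_zero, zero_add, smul_eq_mul, pderiv_pow, pderiv_X_self, mul_one]
  rcases Nat.eq_zero_or_pos (a r) with h | h
  · rw [h]
    simp
  · obtain ⟨m, hm⟩ : ∃ m, a r = m + 1 := ⟨a r - 1, by omega⟩
    rw [hm, Nat.add_sub_cancel, pow_succ, map_natCast]
    ring

/-- the logarithmic derivative of a product of powers -/
noncomputable def lg (u : ν → σ) (ι : κ → ν) (F : κ → Rg σ) (i : ν) (e : ν → Rg σ) : Rg σ :=
  ∑ r, e r * (kp u ι F i r * om u r)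

lemma pi_dd (hu : Function.Injective u) (a : ν → ℕ) (i : ν) :
    (∏ r', (X (u r') : Rg σ)) * dd u ι F i (mn u a) =
      lg u ι F i (fun r => C (a r : ℤ)) * mn u a := by
  unfold lg
  rw [dd_apply, Finset.mul_sum, Finset.sum_mul]
  apply Finset.sum_congr rfl
  intro r _
  have h := om_mul_pderiv (σ := σ) hu a r
  calc (∏ r', (X (u r') : Rg σ)) * (kp u ι F i r * pderiv (u r) (mn u a)) =
        kp u ι F i r * ((∏ r', (X (u r') : Rg σ)) * pderiv (u r) (mn u a)) := by ring
    _ = _ := by rw [h]; ring

/-- **if the logarithmic derivatives of `A / C` vanish to all orders at `p` then so does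
`A / C - (A / C) (p)`** -/
theorem van_ratio (hu : Function.Injective u) (a c : ν → ℕ) (s0 s2 : ν → σ)
    (h0 : ∀ r r', s0 r ≠ u r') (h2 : ∀ r r', s2 r ≠ u r') (hp0 : ∀ r, p (s0 r) = a r)
    (hp2 : ∀ r, p (s2 r) = c r) (hpos : ∀ r, p (u r) ≠ 0)
    (hg : ∀ i n, Van u ι F p n (lg u ι F i (fun r => X (s0 r) - X (s2 r)))) (n : ℕ) :
    Van u ι F p n (C (eval p (mn u c)) * mn u a - C (eval p (mn u a)) * mn u c) := by
  have hg' : ∀ i n, Van u ι F p n (lg u ι F i (fun r => C (a r : ℤ)) -
      lg u ι F i (fun r => C (c r : ℤ))) := by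
    intro i n
    have h3 : lg u ι F i (fun r => C (a r : ℤ)) - lg u ι F i (fun r => C (c r : ℤ)) =
        lg u ι F i (fun r => X (s0 r) - X (s2 r)) +
          (∑ r, (-(kp u ι F i r * om u r)) * (X (s0 r) - C (p (s0 r))) +
          ∑ r, (kp u ι F i r * om u r) * (X (s2 r) - C (p (s2 r)))) := by
      unfold lg
      rw [← Finset.sum_sub_distrib, ← Finset.sum_add_distrib, ← Finset.sum_add_distrib]
      apply Finset.sum_congr rfl
      intro r _
      rw [hp0, hp2]
      ring
    rw [h3]
    apply van_add (hg i n)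
    apply van_add
    · exact van_sum _ (fun r _ => van_mul _ (van_param n (h0 r)))
    · exact van_sum _ (fun r _ => van_mul _ (van_param n (h2 r)))
  have hPi : eval p (∏ r', (X (u r') : Rg σ)) ≠ 0 := by
    rw [map_prod]
    apply Finset.prod_ne_zero_iff.mpr
    intro r _
    rw [eval_X]
    exact hpos r
  induction n with
  | zero =>
    rw [van_zero]
    simp only [map_sub, map_mul, eval_C]
    ring
  | succ n ih =>
    rw [van_succ]
    refine ⟨by simp only [map_sub, map_mul, eval_C]; ring, ?_⟩
    intro i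
    apply van_cancel hPi
    have h1 : (∏ r', (X (u r') : Rg σ)) * dd u ι F i
        (C (eval p (mn u c)) * mn u a - C (eval p (mn u a)) * mn u c) =
        lg u ι F i (fun r => C (a r : ℤ)) *
          (C (eval p (mn u c)) * mn u a - C (eval p (mn u a)) * mn u c) +
        (C (eval p (mn u a)) * mn u c) * (lg u ι F i (fun r => C (a r : ℤ)) -
          lg u ι F i (fun r => C (c r : ℤ))) := by
      rw [map_sub, Derivation.leibniz, Derivation.leibniz, smul_eq_mul, smul_eq_mul, smul_eq_mul,
        smul_eq_mul]
      have h3 : ∀ z : ℤ, dd u ι F i (C z) = 0 := fun z => dd_const u ι F i (fun r => pderiv_C)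
      rw [h3, h3, mul_zero, mul_zero, add_zero, add_zero]
      have h4 := pi_dd (ι := ι) (F := F) hu a i
      have h5 := pi_dd (ι := ι) (F := F) hu c i
      calc (∏ r', (X (u r') : Rg σ)) * (C (eval p (mn u c)) * dd u ι F i (mn u a) -
            C (eval p (mn u a)) * dd u ι F i (mn u c)) =
            C (eval p (mn u c)) * ((∏ r', (X (u r') : Rg σ)) * dd u ι F i (mn u a)) -
            C (eval p (mn u a)) * ((∏ r', (X (u r') : Rg σ)) * dd u ι F i (mn u c)) := by ring
        _ = _ := by rw [h4, h5]; ring
    rw [h1]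
    exact van_add (van_mul _ ih) (van_mul _ (hg' i n))

end

end Pool.Agent.Y913.Vm
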